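import Pool.Agent.Work.MP_216d61_lc.Extract

/-!
# Every limiting density is a limit of densities of graphs without denser minors
-/

set_option autoImplicit false

namespace Pool.Agent.Work.MP_216d61_lc

open Set Relation

theorem e2_eq_zero {V : Type*} [Fintype V] {G : SimpleGraph V} (h : ∀ x y, ¬ G.Adj x y) :
    e2 G = 0 := by
  classical
  rw [e2, Finset.card_eq_zero, Finset.filter_eq_empty_iff]
  rintro ⟨x, y⟩ _ hxy
  exact h x y hxy

section basic

variable {F : Cls}

theorem tau2_le {R C : Type*} [Fintype R] [Fintype C] (H : SimpleGraph C) (A : R → C → Prop) :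
    tau2 H A ≤ Fintype.card C * Fintype.card C + 2 * (Fintype.card R * Fintype.card C) := by
  classical
  rw [tau2]
  refine Nat.add_le_add (e2_le_sq H) (Nat.mul_le_mul_left _ ?_)
  rw [← Fintype.card_prod]
  exact Finset.card_le_univ _

theorem card_fan (R C : Type*) [Fintype R] [Fintype C] (κ : ℕ) :
    Fintype.card (R ⊕ Fin κ × C) = Fintype.card R + κ * Fintype.card C := by simp

/-- good types have small ratio -/
theorem good_le_of_mem (hF : MinorClosed F) {c : ℝ} (hc : c ∈ SS F) {R C : Type} [Fintype R]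
    [Fintype C] {H : SimpleGraph C} {A : R → C → Prop} (hg : Good F H A) :
    (tau2 H A : ℝ) ≤ 2 * c * Fintype.card C := by
  obtain ⟨hc0, n0, hn0⟩ := mem_SS.1 hc
  rcases Nat.eq_zero_or_pos (Fintype.card C) with h0 | hpos
  · have := tau2_le H A
    rw [h0] at this ⊢
    have h1 : tau2 H A = 0 := by omega
    rw [h1]; simp
  · by_contra hcon
    push Not at hcon
    set d : ℝ := tau2 H A - 2 * c * Fintype.card C with hd
    have hd0 : 0 < d := by rw [hd]; linarith
    obtain ⟨κ0, hκ0⟩ := exists_nat_gt (2 * c * Fintype.card R / d)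
    set κ := max κ0 n0 with hκ
    have h1 : (2 * c * Fintype.card R / d : ℝ) < κ :=
      lt_of_lt_of_le hκ0 (by exact_mod_cast le_max_left _ _)
    obtain ⟨G', hG', he⟩ := InF.fin hF (hg κ) (card_fan R C κ)
    have h2 := hn0 _ (by
      have h3 : n0 ≤ κ := le_max_right _ _
      have h4 : κ * 1 ≤ κ * Fintype.card C := Nat.mul_le_mul_left _ hpos
      omega) G' hG'
    rw [he, e2_fan, Fintype.card_fin] at h2
    rw [div_lt_iff₀ hd0] at h1
    push_cast at h2
    have h5 : (κ : ℝ) * d = κ * tau2 H A - 2 * c * (κ * Fintype.card C) := by rw [hd]; ring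
    linarith

theorem good_le (hF : MinorClosed F) {ρ : ℝ} (hρ : ρ = sInf (SS F)) (hne : (SS F).Nonempty)
    {R C : Type} [Fintype R]
    [Fintype C] {H : SimpleGraph C} {A : R → C → Prop} (hg : Good F H A) :
    (tau2 H A : ℝ) ≤ 2 * ρ * Fintype.card C := by
  rcases Nat.eq_zero_or_pos (Fintype.card C) with h0 | hpos
  · obtain ⟨c, hc⟩ := hne
    have := good_le_of_mem hF hc hg
    rw [h0] at this ⊢
    simpa using this
  · have hpos' : (0 : ℝ) < Fintype.card C := by exact_mod_cast hpos
    have h1 : (tau2 H A : ℝ) / (2 * Fintype.card C) ≤ ρ := by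
      rw [hρ]
      refine le_csInf hne fun c hc => ?_
      rw [div_le_iff₀ (by positivity)]
      have := good_le_of_mem hF hc hg
      linarith
    rw [div_le_iff₀ (by positivity)] at h1
    linarith

end basic

/-- `θ` bounds the ratio of all good types of bounded size -/
def Bd (F : Cls) (r0 c0 : ℕ) (θ : ℝ) : Prop :=
  ∀ (R C : Type) [Fintype R] [Fintype C] (H : SimpleGraph C) (A : R → C → Prop), Good F H A →
    Fintype.card R ≤ r0 → Fintype.card C ≤ c0 → (tau2 H A : ℝ) ≤ 2 * θ * Fintype.card C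

/-- there is a good type of total size `s` which attains the ratio `θ` -/
def Att (F : Cls) (r0 c0 : ℕ) (θ : ℝ) (s : ℕ) : Prop :=
  ∃ (R C : Type) (_ : Fintype R) (_ : Fintype C) (H : SimpleGraph C) (A : R → C → Prop),
    Good F H A ∧ Fintype.card R ≤ r0 ∧ 1 ≤ Fintype.card C ∧ Fintype.card C ≤ c0 ∧
    2 * θ * Fintype.card C ≤ tau2 H A ∧ Fintype.card R + Fintype.card C = s

theorem exists_max_type {F : Cls} {R0 C0 : Type} [Fintype R0] [Fintype C0] {H0 : SimpleGraph C0}
    {A0 : R0 → C0 → Prop} (hg0 : Good F H0 A0) (hc0 : 1 ≤ Fintype.card C0) :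
    ∃ θ : ℝ, 0 ≤ θ ∧ (tau2 H0 A0 : ℝ) ≤ 2 * θ * Fintype.card C0 ∧
      Bd F (Fintype.card R0) (Fintype.card C0) θ ∧
      ∃ s, Att F (Fintype.card R0) (Fintype.card C0) θ s := by
  classical
  set r0 := Fintype.card R0 with hr0
  set c0 := Fintype.card C0 with hc0def
  set T := c0 * c0 + 2 * (r0 * c0) with hT
  let q : ℕ × ℕ → Prop := fun p => ∃ (R C : Type) (_ : Fintype R) (_ : Fintype C)
    (H : SimpleGraph C) (A : R → C → Prop), Good F H A ∧ Fintype.card R ≤ r0 ∧
      1 ≤ Fintype.card C ∧ Fintype.card C ≤ c0 ∧ Fintype.card C = p.1 ∧ tau2 H A = p.2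
  set X := (Finset.range (c0 + 1) ×ˢ Finset.range (T + 1)).filter q with hX
  have hmem : ∀ (R C : Type) [Fintype R] [Fintype C] (H : SimpleGraph C) (A : R → C → Prop),
      Good F H A → Fintype.card R ≤ r0 → 1 ≤ Fintype.card C → Fintype.card C ≤ c0 →
      (Fintype.card C, tau2 H A) ∈ X := by
    intro R C i1 i2 H A hg hR h1 hC
    refine Finset.mem_filter.2 ⟨Finset.mem_product.2 ⟨Finset.mem_range.2 ?_,
      Finset.mem_range.2 ?_⟩, R, C, i1, i2, H, A, hg, hR, h1, hC, rfl, rfl⟩
    · show Fintype.card C < c0 + 1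
      omega
    · show tau2 H A < T + 1
      have h2 := tau2_le H A
      have h3 := Nat.mul_le_mul hC hC
      have h4 := Nat.mul_le_mul hR hC
      omega
  have h0 := hmem R0 C0 H0 A0 hg0 le_rfl hc0 le_rfl
  obtain ⟨⟨c1, t1⟩, hp1, hmax⟩ := Finset.exists_max_image X
    (fun p : ℕ × ℕ => (p.2 : ℝ) / (2 * p.1)) ⟨_, h0⟩
  simp only at hmax
  obtain ⟨_, R1, C1, i1, i2, H1, A1, hg1, hR1, h11, hC1, hc1, ht1⟩ := Finset.mem_filter.1 hp1
  simp only at hc1 ht1
  have hle : ∀ (R C : Type) [Fintype R] [Fintype C] (H : SimpleGraph C) (A : R → C → Prop),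
      Good F H A → Fintype.card R ≤ r0 → 1 ≤ Fintype.card C → Fintype.card C ≤ c0 →
      (tau2 H A : ℝ) ≤ 2 * ((t1 : ℝ) / (2 * c1)) * Fintype.card C := by
    intro R C _ _ H A hg hR h1 hC
    have h2 := hmax _ (hmem R C H A hg hR h1 hC)
    have h3 : (0 : ℝ) < Fintype.card C := by exact_mod_cast h1
    simp only at h2
    rw [div_le_iff₀ (by positivity)] at h2
    linarith
  refine ⟨(t1 : ℝ) / (2 * c1), by positivity, hle R0 C0 H0 A0 hg0 le_rfl hc0 le_rfl, ?_,
    Fintype.card R1 + Fintype.card C1, R1, C1, i1, i2, H1, A1, hg1, hR1, h11, hC1, ?_, rfl⟩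
  · intro R C _ _ H A hg hR hC
    rcases Nat.eq_zero_or_pos (Fintype.card C) with h | h
    · have h2 := tau2_le H A
      rw [h] at h2
      have h3 : tau2 H A = 0 := by omega
      rw [h, h3]; simp
    · exact hle R C H A hg hR h hC
  · have h3 : (0 : ℝ) < c1 := by
      have : 0 < c1 := by omega
      exact_mod_cast this
    rw [hc1, ht1]
    apply le_of_eq
    field_simp

section split

variable {R C : Type} [Fintype R] [Fintype C] {H : SimpleGraph C} {A : R → C → Prop}

theorem tau2_le_del (a0 : R) (h : ∀ c, ¬ A a0 c) (inst : Fintype {a : R // a ≠ a0}) :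
    tau2 H A ≤ tau2 H (fun (a : {a : R // a ≠ a0}) c => A a c) := by
  classical
  rw [tau2, tau2]
  refine Nat.add_le_add_left (Nat.mul_le_mul_left _ ?_) _
  set T := (Finset.univ.filter fun p : {a : R // a ≠ a0} × C => A p.1 p.2) with hT
  have hsub : (Finset.univ.filter fun p : R × C => A p.1 p.2) ⊆
      T.image fun p => ((p.1 : R), p.2) := by
    rintro ⟨a, c⟩ hp
    have hac : A a c := (Finset.mem_filter.1 hp).2
    have hne : a ≠ a0 := by
      rintro rfl
      exact h c hac
    exact Finset.mem_image.2 ⟨(⟨a, hne⟩, c), Finset.mem_filter.2 ⟨Finset.mem_univ _, hac⟩, rfl⟩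
  exact (Finset.card_le_card hsub).trans Finset.card_image_le

theorem tau2_le_split (D : C → Prop) (h : ∀ x y, H.Adj x y → (D x ↔ D y))
    (i1 : Fintype {x // D x}) (i2 : Fintype {x // ¬ D x}) :
    tau2 H A ≤ tau2 (H.comap (fun x : {x // D x} => (x : C))) (fun a (c : {x // D x}) => A a c) +
      tau2 (H.comap (fun x : {x // ¬ D x} => (x : C))) (fun a (c : {x // ¬ D x}) => A a c) := by
  classical
  have h1 : e2 H ≤ e2 (H.comap (fun x : {x // D x} => (x : C))) +
      e2 (H.comap (fun x : {x // ¬ D x} => (x : C))) := by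
    rw [e2, e2, e2]
    set T1 := (Finset.univ.filter fun p : {x // D x} × {x // D x} =>
      (H.comap (fun x : {x // D x} => (x : C))).Adj p.1 p.2) with hT1
    set T2 := (Finset.univ.filter fun p : {x // ¬ D x} × {x // ¬ D x} =>
      (H.comap (fun x : {x // ¬ D x} => (x : C))).Adj p.1 p.2) with hT2
    have hsub : (Finset.univ.filter fun p : C × C => H.Adj p.1 p.2) ⊆
        (T1.image fun p => ((p.1 : C), (p.2 : C))) ∪ (T2.image fun p => ((p.1 : C), (p.2 : C))) := by
      rintro ⟨x, y⟩ hp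
      have hxy : H.Adj x y := (Finset.mem_filter.1 hp).2
      by_cases hx : D x
      · exact Finset.mem_union_left _ (Finset.mem_image.2 ⟨(⟨x, hx⟩, ⟨y, (h x y hxy).1 hx⟩),
          Finset.mem_filter.2 ⟨Finset.mem_univ _, hxy⟩, rfl⟩)
      · exact Finset.mem_union_right _ (Finset.mem_image.2
          ⟨(⟨x, hx⟩, ⟨y, fun hy => hx ((h x y hxy).2 hy)⟩),
          Finset.mem_filter.2 ⟨Finset.mem_univ _, hxy⟩, rfl⟩)
    exact (Finset.card_le_card hsub).trans ((Finset.card_union_le _ _).trans
      (Nat.add_le_add Finset.card_image_le Finset.card_image_le))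
  have h2 : (Finset.univ.filter fun p : R × C => A p.1 p.2).card ≤
      (Finset.univ.filter fun p : R × {x // D x} => A p.1 p.2).card +
      (Finset.univ.filter fun p : R × {x // ¬ D x} => A p.1 p.2).card := by
    have hsub : (Finset.univ.filter fun p : R × C => A p.1 p.2) ⊆
        ((Finset.univ.filter fun p : R × {x // D x} => A p.1 p.2).image
          fun p => (p.1, (p.2 : C))) ∪
        ((Finset.univ.filter fun p : R × {x // ¬ D x} => A p.1 p.2).image
          fun p => (p.1, (p.2 : C))) := by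
      rintro ⟨a, y⟩ hp
      have hay : A a y := (Finset.mem_filter.1 hp).2
      by_cases hy : D y
      · exact Finset.mem_union_left _ (Finset.mem_image.2 ⟨(a, ⟨y, hy⟩),
          Finset.mem_filter.2 ⟨Finset.mem_univ _, hay⟩, rfl⟩)
      · exact Finset.mem_union_right _ (Finset.mem_image.2 ⟨(a, ⟨y, hy⟩),
          Finset.mem_filter.2 ⟨Finset.mem_univ _, hay⟩, rfl⟩)
    exact (Finset.card_le_card hsub).trans ((Finset.card_union_le _ _).trans
      (Nat.add_le_add Finset.card_image_le Finset.card_image_le))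
  rw [tau2, tau2, tau2]
  have h3 : ∀ (p : R × {x // D x} → Prop) (d1 d2 : DecidablePred p),
      (@Finset.filter _ p d1 Finset.univ).card = (@Finset.filter _ p d2 Finset.univ).card := by
    intro p d1 d2
    congr!
  omega

end split

/-- the minimal type is connected, and all its roots have neighbours -/
theorem min_type {F : Cls} {r0 c0 : ℕ} {θ : ℝ} (hB : Bd F r0 c0 θ) {s : ℕ}
    (hs : Att F r0 c0 θ s) :
    ∃ (R C : Type) (_ : Fintype R) (_ : Fintype C) (H : SimpleGraph C) (A : R → C → Prop),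
    Good F H A ∧ Fintype.card R ≤ r0 ∧ 1 ≤ Fintype.card C ∧ Fintype.card C ≤ c0 ∧
    2 * θ * Fintype.card C ≤ tau2 H A ∧ Conn H univ ∧ ∀ a, ∃ c, A a c := by
  classical
  induction s using Nat.strong_induction_on with
  | _ s ih =>
  obtain ⟨R, C, i1, i2, H, A, hg, hR, h1, hC, ht, hsum⟩ := hs
  by_cases hroot : ∀ a, ∃ c, A a c
  · by_cases hconn : ∀ D : C → Prop, (∀ x y, H.Adj x y → (D x ↔ D y)) → (∀ x, D x) ∨ (∀ x, ¬ D x)
    · refine ⟨R, C, i1, i2, H, A, hg, hR, h1, hC, ht, ?_, hroot⟩
      have hne : Nonempty C := Fintype.card_pos_iff.1 h1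
      obtain ⟨x0⟩ := hne
      refine conn_of_center (x0 := x0) trivial ?_
      have h2 := hconn (fun x => ReflTransGen (fun a b => H.Adj a b ∧ a ∈ univ ∧ b ∈ univ) x x0) (by
        intro x y hxy
        constructor
        · intro h
          exact ReflTransGen.head ⟨hxy.symm, trivial, trivial⟩ h
        · intro h
          exact ReflTransGen.head ⟨hxy, trivial, trivial⟩ h)
      rcases h2 with h2 | h2
      · exact fun x _ => h2 x
      · exact absurd ReflTransGen.refl (h2 x0)
    · push Not at hconn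
      obtain ⟨D, hD, ⟨y, hy⟩, ⟨x, hx⟩⟩ := hconn
      have hgD : Good F (H.comap (fun x : {x // D x} => (x : C)))
          (fun a (c : {x // D x}) => A a c) :=
        hg.sub (fun x : {x // D x} => (x : C)) id Subtype.val_injective Function.injective_id
          (fun _ _ h => h) (fun _ _ h => h)
      have hgD' : Good F (H.comap (fun x : {x // ¬ D x} => (x : C)))
          (fun a (c : {x // ¬ D x}) => A a c) :=
        hg.sub (fun x : {x // ¬ D x} => (x : C)) id Subtype.val_injective Function.injective_id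
          (fun _ _ h => h) (fun _ _ h => h)
      have hcc : Fintype.card {x // D x} + Fintype.card {x // ¬ D x} = Fintype.card C := by
        have h3 := Fintype.card_subtype_compl D
        have h4 := Fintype.card_subtype_le D
        have h5 : Fintype.card {x // ¬ D x} = Fintype.card C - Fintype.card {x // D x} := h3
        omega
      have hpos : 1 ≤ Fintype.card {x // D x} := Fintype.card_pos_iff.2 ⟨⟨x, hx⟩⟩
      have hpos' : 1 ≤ Fintype.card {x // ¬ D x} := Fintype.card_pos_iff.2 ⟨⟨y, hy⟩⟩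
      have h3 := tau2_le_split (A := A) D hD inferInstance inferInstance
      have h4 := hB _ _ _ _ hgD hR (by omega)
      have h5 := hB _ _ _ _ hgD' hR (by omega)
      have h3' : (tau2 H A : ℝ) ≤ tau2 (H.comap (fun x : {x // D x} => (x : C)))
          (fun a (c : {x // D x}) => A a c) + tau2 (H.comap (fun x : {x // ¬ D x} => (x : C)))
          (fun a (c : {x // ¬ D x}) => A a c) := by exact_mod_cast h3
      have hcc' : (Fintype.card {x // D x} : ℝ) + Fintype.card {x // ¬ D x} = Fintype.card C := by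
        exact_mod_cast hcc
      refine ih (Fintype.card R + Fintype.card {x // D x}) (by omega)
        ⟨R, {x // D x}, i1, inferInstance, _, _, hgD, hR, hpos, by omega, ?_, rfl⟩
      rw [← hcc'] at ht
      linarith
  · push Not at hroot
    obtain ⟨a0, ha0⟩ := hroot
    have hgD : Good F H (fun (a : {a : R // a ≠ a0}) c => A a c) :=
      hg.sub id (fun a : {a : R // a ≠ a0} => (a : R)) Function.injective_id
        Subtype.val_injective (fun _ _ h => h) (fun _ _ h => h)
    have h3 := tau2_le_del (H := H) a0 ha0 inferInstance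
    have h4 : Fintype.card {a : R // a ≠ a0} < Fintype.card R :=
      Fintype.card_subtype_lt (x := a0) (by simp)
    refine ih (Fintype.card {a : R // a ≠ a0} + Fintype.card C) (by omega)
      ⟨{a : R // a ≠ a0}, C, inferInstance, i2, _, _, hgD, by omega, h1, hC, ?_, rfl⟩
    have h3' : (tau2 H A : ℝ) ≤ tau2 H (fun (a : {a : R // a ≠ a0}) c => A a c) := by
      exact_mod_cast h3
    linarith

theorem fan_MR {F : Cls} {r0 c0 : ℕ} {θ : ℝ} (hB : Bd F r0 c0 θ) {R C : Type} [Fintype R]
    [Fintype C] {H : SimpleGraph C} {A : R → C → Prop} (hg : Good F H A)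
    (hR : Fintype.card R ≤ r0) (hC : Fintype.card C ≤ c0) (hr : (Fintype.card R : ℝ) - 1 ≤ 2 * θ)
    (κ : ℕ) : MR θ (Fan H A (Fin κ)) := by
  classical
  intro W _ K hK
  obtain ⟨f, hf⟩ := minor_iff.1 hK
  obtain ⟨col, h1, h2⟩ := exists_col hf
  have h3 := card_root_le hf h1
  rw [Nat.card_eq_fintype_card (α := R)] at h3
  refine e2_le_of_types K col (col_adj hf h2) (Or.inr ?_) ?_
  · have h4 : (Nat.card {w // col w = none} : ℝ) ≤ Fintype.card R := by exact_mod_cast h3
    linarith
  · intro i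
    have h4 := card_copy_le hf h2 i
    rw [Nat.card_eq_fintype_card (α := C)] at h4
    have h5 := hf.good hg i (fun w : {w // col w = none} => (w : W))
      (fun w : {w // col w = some i} => (w : W)) Subtype.val_injective Subtype.val_injective
      (fun a => h1 a a.2) (fun c => h2 c i c.2)
    have h6 := hB _ _ _ _ h5 (by
      rw [← Nat.card_eq_fintype_card]; omega) (by
      rw [← Nat.card_eq_fintype_card]; omega)
    rw [Nat.card_eq_fintype_card (α := {w // col w = some i})]
    exact h6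

theorem MR.mono {ρ θ : ℝ} (h : θ ≤ ρ) {V : Type} {G : SimpleGraph V} (hG : MR θ G) : MR ρ G := by
  intro W _ K hK
  have h1 := hG W K hK
  have h2 : (0 : ℝ) ≤ Nat.card W := Nat.cast_nonneg _
  nlinarith

theorem dense_of_isDen {ρ : ℝ} (hρ : 0 ≤ ρ) (h : IsDen ρ) : Dense ρ := by
  classical
  rcases hρ.eq_or_lt with h0 | hpos
  · -- `ρ = 0`
    subst h0
    intro ε hε
    refine ⟨1, le_rfl, ⊥, ?_, ?_⟩
    · intro W _ K hK
      obtain ⟨f, hf⟩ := minor_iff.1 hK
      have h1 : e2 K = 0 := by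
        rw [e2, Finset.card_eq_zero, Finset.filter_eq_empty_iff]
        rintro ⟨x, y⟩ _ hxy
        obtain ⟨a, _, b, _, hab⟩ := hf.adj x y hxy
        exact hab
      rw [h1]; simp
    · have : (0 : ℝ) ≤ e2 (⊥ : SimpleGraph (Fin 1)) := Nat.cast_nonneg _
      push_cast
      linarith
  obtain ⟨F, hF, _, hinf⟩ := h
  have hne : (SS F).Nonempty := by
    rw [nonempty_iff_ne_empty]
    intro he
    rw [he, Real.sInf_empty] at hinf
    linarith
  obtain ⟨c1, hc1⟩ := hne
  have hne : (SS F).Nonempty := ⟨c1, hc1⟩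
  obtain ⟨hc10, n0, hn0⟩ := mem_SS.1 hc1
  -- the bound for all members
  have hB : ∀ n, ∀ G ∈ F n, (e2 G : ℝ) ≤ (2 * c1 + n0) * n := by
    intro n G hG
    have hn : (0 : ℝ) ≤ n := Nat.cast_nonneg _
    have hn0' : (0 : ℝ) ≤ n0 := Nat.cast_nonneg _
    rcases le_or_gt n0 n with hle | hlt
    · have := hn0 n hle G hG
      nlinarith
    · have h1 : e2 G ≤ n * n := by simpa using e2_le_sq G
      have h2 : (e2 G : ℝ) ≤ n * n := by exact_mod_cast h1
      have h3 : (n : ℝ) ≤ n0 := by exact_mod_cast hlt.le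
      nlinarith
  -- a complete graph outside of the class
  obtain ⟨t, ht1, htF⟩ : ∃ t : ℕ, 1 ≤ t ∧ (⊤ : SimpleGraph (Fin t)) ∉ F t := by
    obtain ⟨t0, ht0⟩ := exists_nat_gt (2 * c1 + 1)
    refine ⟨max t0 n0 + 1, by omega, fun hmem => ?_⟩
    have h1 := hn0 _ (by omega) _ hmem
    have h2 := e2_top (max t0 n0 + 1)
    set t := max t0 n0 + 1 with ht
    have h2' : (e2 (⊤ : SimpleGraph (Fin t)) : ℝ) + t = t * t := by exact_mod_cast h2
    have h3 : (t0 : ℝ) ≤ t := by
      have : t0 ≤ t := by omega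
      exact_mod_cast this
    have h4 : (1 : ℝ) ≤ t := by
      have : 1 ≤ t := by omega
      exact_mod_cast this
    nlinarith
  have hK : ∀ n, ∀ G ∈ F n, KFree t G.Adj := by
    intro n G hG C hC1 hC2 hC3
    refine htF (hF _ _ _ _ hG (Model.minor (f := fun i => (C i : Set (Fin n))) ⟨?_, ?_, ?_⟩))
    · intro i j hij
      have := hC2 i j hij
      exact_mod_cast this
    · intro i
      exact ⟨(hC1 i).1, fun x hx y hy => (hC1 i).2 x hx y hy⟩
    · intro i j hij
      exact hC3 i j hij
  intro ε' hε'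
  set ε : ℝ := min (ε' / 3) (ρ / 2) with hεdef
  have hε : 0 < ε := lt_min (by linarith) (by linarith)
  have hε1 : ε ≤ ε' / 3 := min_le_left _ _
  have hε2 : ε ≤ ρ / 2 := min_le_right _ _
  have hfreq : ∀ n0 : ℕ, ∃ n ≥ n0, ∃ G ∈ F n, 2 * (ρ - ε) * n < e2 G := by
    by_contra hcon
    push Not at hcon
    obtain ⟨n1, hn1⟩ := hcon
    have h1 : ρ - ε ∈ SS F := mem_SS.2 ⟨by linarith, n1, hn1⟩
    have h2 := csInf_le (SS_bddBelow F) h1
    rw [← hinf] at h2
    linarith
  obtain ⟨r0, c0, H0, A0, hg0, ht0⟩ := exists_good hF (B := 2 * c1 + n0) (by positivity) hB ht1 hK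
    hε (by linarith) hfreq
  have hc0 : 1 ≤ Fintype.card (Fin c0) := by
    rw [Fintype.card_fin]
    rcases Nat.eq_zero_or_pos c0 with h | h
    · have h1 := tau2_le H0 A0
      subst h
      simp at h1
      rw [h1] at ht0
      simp at ht0
    · exact h
  obtain ⟨θ, hθ0, hθt, hBd, s, hs⟩ := exists_max_type hg0 hc0
  rw [Fintype.card_fin] at hc0
  obtain ⟨R, C, i1, i2, H, A, hg, hR, h1, hC, hT, hconn, hroot⟩ := min_type hBd hs
  have hc0' : (0 : ℝ) < c0 := by exact_mod_cast hc0
  have hθ1 : ρ - 2 * ε < θ := by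
    rw [Fintype.card_fin] at hθt
    have h2 := lt_of_lt_of_le ht0 hθt
    have h3 : 2 * (ρ - 2 * ε) < 2 * θ := lt_of_mul_lt_mul_right h2 hc0'.le
    linarith
  have hCpos : (0 : ℝ) < Fintype.card C := by exact_mod_cast h1
  have hθ2 : θ ≤ ρ := by
    have h2 := good_le hF hinf hne hg
    have h3 := hT.trans h2
    have h4 : 2 * θ ≤ 2 * ρ := le_of_mul_le_mul_right h3 hCpos
    linarith
  have hRθ : (Fintype.card R : ℝ) ≤ θ := by
    have h2 := hBd R (Fin 1) _ _ (hg.contract hconn hroot) hR (by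
      simp only [Fintype.card_fin]; omega)
    have h3 : tau2 (⊥ : SimpleGraph (Fin 1)) (fun (_ : R) (_ : Fin 1) => True) =
        2 * Fintype.card R := by
      rw [tau2]
      have h4 : e2 (⊥ : SimpleGraph (Fin 1)) = 0 := e2_eq_zero fun _ _ h => h
      rw [h4]
      simp
    rw [h3] at h2
    push_cast at h2
    simp at h2
    exact h2
  have hMR := fun κ => MR.mono hθ2 (fan_MR hBd hg hR hC (by linarith) κ)
  obtain ⟨κ, hκ⟩ := exists_nat_gt (ρ * Fintype.card R / ε)
  have hκ0 : (0 : ℝ) < κ := lt_of_le_of_lt (by positivity) hκ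
  have hκ1 : 1 ≤ κ := by
    have : 0 < κ := by exact_mod_cast hκ0
    omega
  set e := Fintype.equivFinOfCardEq (card_fan R C κ) with he
  refine ⟨Fintype.card R + κ * Fintype.card C, ?_, (Fan H A (Fin κ)).comap e.symm,
    (hMR κ).minor (minor_of_inj e.symm e.symm.injective fun _ _ h => h), ?_⟩
  · have := Nat.mul_le_mul hκ1 h1
    omega
  · rw [e2_congr (H := (Fan H A (Fin κ)).comap e.symm) (G := Fan H A (Fin κ)) e.symm
      fun _ _ => Iff.rfl, e2_fan, Fintype.card_fin]
    push_cast
    have h2 : (κ : ℝ) * (2 * θ * Fintype.card C) ≤ κ * tau2 H A :=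
      mul_le_mul_of_nonneg_left hT hκ0.le
    rw [div_lt_iff₀ hε] at hκ
    have h3 : (1 : ℝ) ≤ Fintype.card C := by exact_mod_cast h1
    have h4 : 0 < κ * (Fintype.card C : ℝ) := by positivity
    have h5 : (ρ - ε' + ε) * (κ * (Fintype.card C : ℝ)) < θ * (κ * (Fintype.card C : ℝ)) :=
      mul_lt_mul_of_pos_right (by linarith) h4
    have h6 : (κ : ℝ) * ε ≤ ε * (κ * Fintype.card C) := by
      have := mul_le_mul_of_nonneg_left h3 (mul_nonneg hε.le hκ0.le)
      linarith
    have h7 : (ρ - ε') * Fintype.card R ≤ ρ * Fintype.card R :=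
      mul_le_mul_of_nonneg_right (by linarith) (Nat.cast_nonneg _)
    nlinarith

/-- **Characterisation of limiting densities.** -/
theorem isDen_iff {ρ : ℝ} (hρ : 0 ≤ ρ) : IsDen ρ ↔ Dense ρ :=
  ⟨dense_of_isDen hρ, isDen_of_dense hρ⟩

end Pool.Agent.Work.MP_216d61_lc
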