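import Pool.Agent.Work.MP_216d61_lc.Back

/-!
# A finite certificate for not being a limiting density
-/

set_option autoImplicit false

namespace Pool.Agent.Work.MP_216d61_lc

open Finset

/-- the number of vertices of the graphs which have to be inspected -/
def KK (a N : ℕ) : ℕ := 4096 * N ^ 2 * (2 * a + 2) ^ 3

/-- The certificate: all graphs of `M_ρ`, `ρ = a / (b + 1)`, with at most `KK a N` vertices have
density less than `σ N / (N + 1)`, `σ = c / (d + 1)`. -/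
def Cert (a b c d N : ℕ) : Prop :=
  1 ≤ N ∧ ∀ n, 1 ≤ n → n ≤ KK a N → ∀ G : SimpleGraph (Fin n),
    MR ((a : ℝ) / ((b : ℝ) + 1)) G → e2 G * ((d + 1) * (N + 1)) < 2 * c * n * N

theorem MR_bot {ρ : ℝ} (hρ : 0 ≤ ρ) (n : ℕ) : MR ρ (⊥ : SimpleGraph (Fin n)) := by
  intro W _ K hK
  obtain ⟨f, hf⟩ := minor_iff.1 hK
  have h1 : e2 K = 0 := e2_eq_zero fun x y hxy => by
    obtain ⟨a, _, b, _, hab⟩ := hf.adj x y hxy
    exact hab
  rw [h1, Nat.cast_zero]
  positivity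

/-- the densities of the graphs of `M_ρ` -/
def DS (ρ : ℝ) : Set ℝ := {x | ∃ m : ℕ, 1 ≤ m ∧ ∃ G : SimpleGraph (Fin m), MR ρ G ∧
  x = e2 G / (2 * m)}

/-- the supremum of the densities of the graphs of `M_ρ` -/
noncomputable def sd (ρ : ℝ) : ℝ := sSup (DS ρ)

theorem DS_bdd {ρ : ℝ} : ρ ∈ upperBounds (DS ρ) := by
  rintro x ⟨m, hm, G, hG, rfl⟩
  have h1 := hG.self
  rw [Nat.card_eq_fintype_card, Fintype.card_fin] at h1
  have hm' : (0 : ℝ) < m := by exact_mod_cast hm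
  rw [div_le_iff₀ (by positivity)]
  linarith

theorem DS_nonempty {ρ : ℝ} (hρ : 0 ≤ ρ) : (DS ρ).Nonempty :=
  ⟨_, 1, le_rfl, ⊥, MR_bot hρ 1, rfl⟩

theorem sd_le {ρ : ℝ} (hρ : 0 ≤ ρ) : sd ρ ≤ ρ := csSup_le (DS_nonempty hρ) DS_bdd

theorem e2_le_sd {ρ : ℝ} {m : ℕ} {G : SimpleGraph (Fin m)} (hG : MR ρ G) :
    (e2 G : ℝ) ≤ 2 * sd ρ * m := by
  rcases Nat.eq_zero_or_pos m with h | h
  · subst h
    have h1 := e2_le_sq G
    simp at h1
    rw [h1]; simp
  · have h1 : (e2 G : ℝ) / (2 * m) ≤ sd ρ := le_csSup ⟨ρ, DS_bdd⟩ ⟨m, h, G, hG, rfl⟩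
    have hm' : (0 : ℝ) < m := by exact_mod_cast h
    rw [div_le_iff₀ (by positivity)] at h1
    linarith

theorem sd_nonneg {ρ : ℝ} (hρ : 0 ≤ ρ) : 0 ≤ sd ρ := by
  have h1 := e2_le_sd (MR_bot hρ 1)
  have h2 : (0 : ℝ) ≤ e2 (⊥ : SimpleGraph (Fin 1)) := Nat.cast_nonneg _
  push_cast at h1
  linarith

/-- the supremum of the densities is a limiting density -/
theorem isDen_sd {ρ : ℝ} (hρ : 0 ≤ ρ) : IsDen (sd ρ) := by
  refine ⟨MC ρ, MC_closed ρ, ?_, ?_⟩
  · obtain ⟨n, hn⟩ := exists_nat_gt (2 * ρ + 1)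
    refine ⟨n, ⊤, top_not_MR ?_ hn⟩
    have : (0 : ℝ) < n := by linarith
    have : 0 < n := by exact_mod_cast this
    omega
  · have hmem : sd ρ ∈ SS (MC ρ) := by
      rw [mem_SS]
      exact ⟨sd_nonneg hρ, 0, fun n _ G hG => e2_le_sd hG⟩
    refine le_antisymm (le_csInf ⟨_, hmem⟩ ?_) (csInf_le (SS_bddBelow _) hmem)
    intro c hc
    refine csSup_le (DS_nonempty hρ) ?_
    rintro x ⟨m, hm, G, hG, rfl⟩
    obtain ⟨_, n0, hn0⟩ := mem_SS.1 hc
    set q : ℕ := n0 + 1 with hq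
    set A : Fin 0 → Fin m → Prop := fun _ _ => False with hA
    set Γ := Fan G A (Fin q) with hΓ
    have hcard : Fintype.card (Fin 0 ⊕ Fin q × Fin m) = q * m := by simp
    set e := Fintype.equivFinOfCardEq hcard with he
    set G' : SimpleGraph (Fin (q * m)) := Γ.comap e.symm with hG'
    have hmin : Minor G' Γ := minor_of_inj e.symm e.symm.injective fun _ _ h => h
    have hMR : MR ρ G' := (hG.copies q).minor hmin
    have h1 := hn0 (q * m) (by nlinarith) G' hMR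
    have h2 : e2 G' = q * tau2 G A := by
      rw [e2_congr (H := G') (G := Γ) e.symm fun _ _ => Iff.rfl, hΓ, e2_fan, Fintype.card_fin]
    have h3 : e2 G ≤ tau2 G A := Nat.le_add_right _ _
    have h4 : (e2 G : ℝ) ≤ tau2 G A := by exact_mod_cast h3
    rw [h2] at h1
    push_cast at h1
    have hq0 : (0 : ℝ) < q := by
      rw [hq]; positivity
    have hm' : (0 : ℝ) < m := by exact_mod_cast hm
    rw [div_le_iff₀ (by positivity)]
    have h5 : (q : ℝ) * e2 G ≤ q * (c * (2 * m)) := by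
      calc (q : ℝ) * e2 G ≤ q * tau2 G A := mul_le_mul_of_nonneg_left h4 hq0.le
        _ ≤ 2 * c * (q * m) := h1
        _ = q * (c * (2 * m)) := by ring
    exact le_of_mul_le_mul_left h5 hq0

/-- **The largest limiting density which is at most `ρ`.** -/
theorem isGreatest_sd {ρ : ℝ} (hρ : 0 ≤ ρ) : IsGreatest {x | IsDen x ∧ x ≤ ρ} (sd ρ) := by
  refine ⟨⟨isDen_sd hρ, sd_le hρ⟩, ?_⟩
  rintro x ⟨hx, hxρ⟩
  have hx0 : 0 ≤ x := by
    obtain ⟨F, _, _, h⟩ := hx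
    rw [h]
    exact Real.sInf_nonneg fun c hc => hc.1
  have hD := dense_of_isDen hx0 hx
  refine le_of_forall_pos_le_add fun ε hε => ?_
  obtain ⟨m, hm, G, hG, hGe⟩ := hD ε hε
  have h1 := e2_le_sd (hG.mono hxρ)
  have hm' : (0 : ℝ) < m := by exact_mod_cast hm
  have h2 : 2 * (x - ε) * m < 2 * sd ρ * m := lt_of_lt_of_le hGe h1
  have h3 : 2 * (x - ε) < 2 * sd ρ := lt_of_mul_lt_mul_right h2 hm'.le
  linarith

theorem kfree_of_MR {ρ : ℝ} {t n : ℕ} (ht : 1 ≤ t) (h : 2 * ρ + 1 < t) {G : SimpleGraph (Fin n)}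
    (hG : MR ρ G) : KFree t G.Adj := by
  intro C hC1 hC2 hC3
  refine top_not_MR ht h (hG.minor (Model.minor (f := fun i => (C i : Set (Fin n))) ⟨?_, ?_, ?_⟩))
  · intro i j hij
    have := hC2 i j hij
    exact_mod_cast this
  · intro i
    exact ⟨(hC1 i).1, fun x hx y hy => (hC1 i).2 x hx y hy⟩
  · intro i j hij
    exact hC3 i j hij

theorem eP_empty_le {V : Type} [Fintype V] (G : SimpleGraph V) (P : Finset V) :
    eP G ∅ P ≤ e2 (G.comap (fun x : {x // x ∈ P} => (x : V))) := by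
  classical
  rw [eP, e2]
  set T : Finset ({x // x ∈ P} × {x // x ∈ P}) := univ.filter fun p =>
    (G.comap (fun x : {x // x ∈ P} => (x : V))).Adj p.1 p.2 with hT
  have hsub : ((P ×ˢ P).filter fun p => G.Adj p.1 p.2 ∧ ¬ (p.1 ∈ (∅ : Finset V) ∧ p.2 ∈
      (∅ : Finset V))) ⊆ T.image fun p => ((p.1 : V), (p.2 : V)) := by
    rintro ⟨x, y⟩ hp
    obtain ⟨h1, h2, _⟩ := mem_filter.1 hp
    obtain ⟨hx, hy⟩ := mem_product.1 h1
    exact mem_image.2 ⟨(⟨x, hx⟩, ⟨y, hy⟩), mem_filter.2 ⟨mem_univ _, h2⟩, rfl⟩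
  exact (card_le_card hsub).trans card_image_le

theorem sd_lt_of_cert {a b c d N : ℕ} (h : Cert a b c d N) :
    sd ((a : ℝ) / ((b : ℝ) + 1)) < (c : ℝ) / ((d : ℝ) + 1) := by
  classical
  obtain ⟨hN, h⟩ := h
  set ρ : ℝ := (a : ℝ) / ((b : ℝ) + 1) with hρ
  set σ : ℝ := (c : ℝ) / ((d : ℝ) + 1) with hσ
  have hb : (0 : ℝ) < b + 1 := by positivity
  have hd : (0 : ℝ) < d + 1 := by positivity
  have hρa : ρ * (b + 1) = a := by rw [hρ]; field_simp
  have hσc : σ * (d + 1) = c := by rw [hσ]; field_simp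
  have hρ0 : 0 ≤ ρ := by rw [hρ]; positivity
  have hKK : 1 ≤ KK a N := by
    rw [KK]
    exact Nat.one_le_iff_ne_zero.2 (by positivity)
  -- `c` is positive
  have hc : 0 < c := by
    rcases Nat.eq_zero_or_pos c with h0 | h0
    · exfalso
      have h1 := h 1 le_rfl hKK ⊥ (MR_bot hρ0 1)
      rw [h0] at h1
      simp at h1
    · exact h0
  have hc' : (0 : ℝ) < c := by exact_mod_cast hc
  have hσ0 : 0 < σ := by rw [hσ]; positivity
  have hN' : (1 : ℝ) ≤ N := by exact_mod_cast hN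
  have key : sd ρ ≤ σ * ((2 * N + 1) / (2 * N + 2)) := by
    refine csSup_le (DS_nonempty hρ0) ?_
    rintro x ⟨m, hm, G, hG, rfl⟩
    have hm' : (0 : ℝ) < m := by exact_mod_cast hm
    rw [div_le_iff₀ (by positivity)]
    have hkf : KFree (2 * a + 2) G.Adj := by
      refine kfree_of_MR (by omega) ?_ hG
      have : ρ ≤ a := by
        rw [← hρa]
        have hb1 : (1 : ℝ) ≤ b + 1 := by
          have : (0 : ℝ) ≤ b := Nat.cast_nonneg _
          linarith
        nlinarith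
      push_cast
      linarith
    obtain ⟨Q, hQ, hQs⟩ := decomp (fun x y h => SimpleGraph.Adj.symm h) hkf (by omega) N hN
      (KK a N) le_rfl (univ : Finset (Fin m))
    rw [card_univ, Fintype.card_fin] at hQs
    have h1 := e2_le_pieces G (fun x y h => hQ.edge x (mem_univ x) y (mem_univ y) h)
      (∅ : Finset (Fin m))
    have h2 : e2 (G.comap (fun x : {x // x ∈ (∅ : Finset (Fin m))} => (x : Fin m))) = 0 :=
      e2_eq_zero fun x _ _ => absurd x.2 (Finset.notMem_empty _)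
    rw [h2, zero_add] at h1
    have h3 : ∀ P ∈ Q, eP G ∅ P * ((d + 1) * (N + 1)) ≤ 2 * c * P.card * N := by
      intro P hP
      have h4 := eP_empty_le G P
      rcases Nat.eq_zero_or_pos P.card with h0 | hpos
      · have h5 := e2_le_sq (G.comap (fun x : {x // x ∈ P} => (x : Fin m)))
        rw [Fintype.card_coe, h0] at h5
        have h6 : eP G ∅ P = 0 := by omega
        rw [h6, zero_mul]
        exact Nat.zero_le _
      · set e := Fintype.equivFinOfCardEq (Fintype.card_coe P) with he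
        have h5 := h P.card hpos (hQ.small P hP)
          ((G.comap (fun x : {x // x ∈ P} => (x : Fin m))).comap e.symm)
          (hG.minor (minor_of_inj (fun i => ((e.symm i : {x // x ∈ P}) : Fin m))
            (fun i j hij => e.symm.injective (Subtype.ext hij)) fun _ _ h => h))
        rw [e2_congr (G := (G.comap (fun x : {x // x ∈ P} => (x : Fin m)))) e.symm
          fun _ _ => Iff.rfl] at h5
        exact (Nat.mul_le_mul_right _ h4).trans h5.le
    have h4 : e2 G * ((d + 1) * (N + 1)) ≤ 2 * c * (∑ P ∈ Q, P.card) * N := by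
      calc e2 G * ((d + 1) * (N + 1)) ≤ (∑ P ∈ Q, eP G ∅ P) * ((d + 1) * (N + 1)) :=
            Nat.mul_le_mul_right _ h1
        _ = ∑ P ∈ Q, eP G ∅ P * ((d + 1) * (N + 1)) := sum_mul _ _ _
        _ ≤ ∑ P ∈ Q, 2 * c * P.card * N := sum_le_sum h3
        _ = 2 * c * (∑ P ∈ Q, P.card) * N := by rw [mul_sum, sum_mul]
    have h5 : e2 G * ((d + 1) * (N + 1)) * 2 ≤ 2 * c * ((2 * N + 1) * m) := by
      calc e2 G * ((d + 1) * (N + 1)) * 2 ≤ 2 * c * (∑ P ∈ Q, P.card) * N * 2 :=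
            Nat.mul_le_mul_right _ h4
        _ = 2 * c * (2 * N * ∑ P ∈ Q, P.card) := by ring
        _ ≤ 2 * c * ((2 * N + 1) * m) := Nat.mul_le_mul_left _ hQs
    have h6 : (e2 G : ℝ) * ((d + 1) * (N + 1)) * 2 ≤ 2 * c * ((2 * N + 1) * m) := by
      exact_mod_cast h5
    rw [← hσc] at h6
    have h7 : (e2 G : ℝ) * (2 * N + 2) ≤ 2 * σ * ((2 * N + 1) * m) := by
      have h8 : ((e2 G : ℝ) * (2 * N + 2)) * (d + 1) ≤ (2 * σ * ((2 * N + 1) * m)) * (d + 1) := by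
        linarith
      exact le_of_mul_le_mul_right h8 hd
    have h9 : σ * ((2 * N + 1) / (2 * N + 2)) * (2 * m) =
        2 * σ * ((2 * N + 1) * m) / (2 * N + 2) := by ring
    rw [h9, le_div_iff₀ (by positivity)]
    exact h7
  refine lt_of_le_of_lt key ?_
  have h1 : (2 * (N : ℝ) + 1) / (2 * N + 2) < 1 := by
    rw [div_lt_one (by positivity)]
    linarith
  nlinarith

theorem cert_of_sd_lt {a b c d : ℕ}
    (h : sd ((a : ℝ) / ((b : ℝ) + 1)) < (c : ℝ) / ((d : ℝ) + 1)) : ∃ N, Cert a b c d N := by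
  set ρ : ℝ := (a : ℝ) / ((b : ℝ) + 1) with hρ
  set σ : ℝ := (c : ℝ) / ((d : ℝ) + 1) with hσ
  have hd : (0 : ℝ) < d + 1 := by positivity
  have hσc : σ * (d + 1) = c := by rw [hσ]; field_simp
  have hρ0 : 0 ≤ ρ := by rw [hρ]; positivity
  set ε : ℝ := σ - sd ρ with hεd
  have hε : 0 < ε := by rw [hεd]; linarith
  have hσ0 : 0 < σ := lt_of_le_of_lt (sd_nonneg hρ0) h
  obtain ⟨N, hN⟩ := exists_nat_gt (σ / ε)
  have hN0 : (0 : ℝ) < N := lt_of_le_of_lt (by positivity) hN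
  rw [div_lt_iff₀ hε] at hN
  refine ⟨N, ?_, ?_⟩
  · have : 0 < N := by exact_mod_cast hN0
    omega
  · intro n hn _ G hG
    have h1 := e2_le_sd hG
    have hn' : (1 : ℝ) ≤ n := by exact_mod_cast hn
    have h2 : sd ρ * (N + 1) < σ * N := by
      have : sd ρ = σ - ε := by rw [hεd]; ring
      rw [this]
      linarith
    have h3 : (e2 G : ℝ) * ((d + 1) * (N + 1)) < 2 * c * n * N := by
      rw [← hσc]
      calc (e2 G : ℝ) * ((d + 1) * (N + 1)) ≤ 2 * sd ρ * n * ((d + 1) * (N + 1)) :=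
            mul_le_mul_of_nonneg_right h1 (by positivity)
        _ = (2 * n * (d + 1)) * (sd ρ * (N + 1)) := by ring
        _ < (2 * n * (d + 1)) * (σ * N) := mul_lt_mul_of_pos_left h2 (by positivity)
        _ = 2 * (σ * (d + 1)) * n * N := by ring
    exact_mod_cast h3

theorem sd_lt_iff {a b c d : ℕ} : sd ((a : ℝ) / ((b : ℝ) + 1)) < (c : ℝ) / ((d : ℝ) + 1) ↔
    ∃ N, Cert a b c d N :=
  ⟨cert_of_sd_lt, fun ⟨_, h⟩ => sd_lt_of_cert h⟩

theorem lt_sd_iff {a b c d : ℕ} : (c : ℝ) / ((d : ℝ) + 1) < sd ((a : ℝ) / ((b : ℝ) + 1)) ↔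
    ∃ m : ℕ, 1 ≤ m ∧ ∃ G : SimpleGraph (Fin m), MR ((a : ℝ) / ((b : ℝ) + 1)) G ∧
      2 * c * m < e2 G * (d + 1) := by
  set ρ : ℝ := (a : ℝ) / ((b : ℝ) + 1) with hρ
  have hd : (0 : ℝ) < d + 1 := by positivity
  have hρ0 : 0 ≤ ρ := by rw [hρ]; positivity
  constructor
  · intro h
    obtain ⟨x, ⟨m, hm, G, hG, rfl⟩, hx⟩ := exists_lt_of_lt_csSup (DS_nonempty hρ0) h
    refine ⟨m, hm, G, hG, ?_⟩
    have hm' : (0 : ℝ) < m := by exact_mod_cast hm
    rw [div_lt_div_iff₀ hd (by positivity)] at hx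
    have h3 : (2 * c * m : ℝ) < e2 G * (d + 1) := by linarith
    exact_mod_cast h3
  · rintro ⟨m, hm, G, hG, h⟩
    have hm' : (0 : ℝ) < m := by exact_mod_cast hm
    have h1 := e2_le_sd hG
    have h3 : (2 * c * m : ℝ) < e2 G * (d + 1) := by exact_mod_cast h
    rw [div_lt_iff₀ hd]
    have h4 : (e2 G : ℝ) * (d + 1) ≤ 2 * sd ρ * m * (d + 1) := mul_le_mul_of_nonneg_right h1 hd.le
    have h5 : (2 * m) * (c : ℝ) < (2 * m) * (sd ρ * (d + 1)) := by linarith
    exact lt_of_mul_lt_mul_left h5 (by positivity)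

end Pool.Agent.Work.MP_216d61_lc
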