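import Pool.Agent.Work.MP_216d61_lc.Cert

/-!
# Coding of graphs and of minors by natural numbers and lists
-/

set_option autoImplicit false

namespace Pool.Agent.Work.MP_216d61_lc

open Relation Set

/-- the adjacency relation of the graph coded by `g` -/
def BA (n g i j : ℕ) : Prop :=
  i ≠ j ∧ (g / 2 ^ (i * n + j) % 2 = 1 ∨ g / 2 ^ (j * n + i) % 2 = 1)

/-- the graph coded by `g` -/
def GG (n g : ℕ) : SimpleGraph (Fin n) where
  Adj i j := BA n g i j
  symm := ⟨fun _ _ h => ⟨h.1.symm, h.2.symm⟩⟩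
  loopless := ⟨fun _ h => h.1 rfl⟩

theorem exists_code {n : ℕ} (G : SimpleGraph (Fin n)) : ∃ g < 2 ^ (n * n), GG n g = G := by
  classical
  let f : Fin (n * n) → Bool := fun k => decide (G.Adj k.divNat k.modNat)
  refine ⟨Nat.ofBits f, Nat.ofBits_lt_two_pow f, ?_⟩
  have key : ∀ i j : Fin n, (Nat.ofBits f / 2 ^ ((i : ℕ) * n + j) % 2 = 1 ↔ G.Adj i j) := by
    intro i j
    have hlt : (i : ℕ) * n + j < n * n := by
      have h1 := i.2
      have h2 := j.2
      calc (i : ℕ) * n + j < i * n + n := by omega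
        _ = (i + 1) * n := by ring
        _ ≤ n * n := Nat.mul_le_mul_right _ h1
    have h1 := Nat.testBit_ofBits_lt f ((i : ℕ) * n + j) hlt
    rw [Nat.testBit_eq_decide_div_mod_eq] at h1
    have hn : 0 < n := lt_of_le_of_lt (Nat.zero_le _) i.2
    have h2 : (⟨(i : ℕ) * n + j, hlt⟩ : Fin (n * n)).divNat = i := by
      apply Fin.ext
      rw [Fin.coe_divNat]
      simp only
      rw [mul_comm, Nat.mul_add_div hn, Nat.div_eq_of_lt j.2, add_zero]
    have h3 : (⟨(i : ℕ) * n + j, hlt⟩ : Fin (n * n)).modNat = j := by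
      apply Fin.ext
      rw [Fin.coe_modNat]
      simp only
      rw [mul_comm, Nat.mul_add_mod, Nat.mod_eq_of_lt j.2]
    have h4 : f ⟨(i : ℕ) * n + j, hlt⟩ = decide (G.Adj i j) := by
      simp only [f, h2, h3]
    rw [h4] at h1
    exact decide_eq_decide.1 h1
  ext i j
  show BA n _ i j ↔ _
  unfold BA
  rw [key, key]
  constructor
  · rintro ⟨_, h | h⟩
    · exact h
    · exact h.symm
  · intro h
    exact ⟨fun he => h.ne (Fin.ext he), Or.inl h⟩

/-- a connected set has a labelling which decreases towards a root -/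
theorem exists_label {V : Type*} {G : SimpleGraph V} {s : Set V} (h : Conn G s) :
    ∃ ℓ : V → ℕ, (∀ x ∈ s, ∀ y ∈ s, ℓ x = 0 → ℓ y = 0 → x = y) ∧
      ∀ x ∈ s, ℓ x ≠ 0 → ∃ y ∈ s, ℓ y < ℓ x ∧ G.Adj x y := by
  classical
  obtain ⟨⟨x0, hx0⟩, hc⟩ := h
  let R : ℕ → V → Prop := fun k => Nat.rec (motive := fun _ => V → Prop) (fun x => x = x0)
    (fun _ r x => r x ∨ (x ∈ s ∧ ∃ y ∈ s, r y ∧ G.Adj x y)) k
  have hdec : ∀ x, DecidablePred fun k => R k x := fun x k => Classical.propDecidable _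
  have hR0 : ∀ x, R 0 x ↔ x = x0 := fun _ => Iff.rfl
  have hRs : ∀ k x, R (k + 1) x ↔ R k x ∨ (x ∈ s ∧ ∃ y ∈ s, R k y ∧ G.Adj x y) :=
    fun _ _ => Iff.rfl
  have hex : ∀ x ∈ s, ∃ k, R k x := by
    intro x hx
    have h1 := hc x0 hx0 x hx
    clear hx
    induction h1 with
    | refl => exact ⟨0, rfl⟩
    | tail _ hst ih =>
      obtain ⟨k, hk⟩ := ih
      exact ⟨k + 1, (hRs _ _).2 (Or.inr ⟨hst.2.2, _, hst.2.1, hk, hst.1.symm⟩)⟩
  refine ⟨fun x => if hx : x ∈ s then Nat.find (hex x hx) else 0, ?_, ?_⟩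
  · intro x hx y hy h1 h2
    simp only [dif_pos hx, dif_pos hy] at h1 h2
    have h3 := Nat.find_spec (hex x hx)
    have h4 := Nat.find_spec (hex y hy)
    rw [h1, hR0] at h3
    rw [h2, hR0] at h4
    rw [h3, h4]
  · intro x hx h1
    simp only [dif_pos hx] at h1 ⊢
    obtain ⟨k, hk⟩ := Nat.exists_eq_succ_of_ne_zero h1
    have h3 := Nat.find_spec (hex x hx)
    rw [hk, Nat.succ_eq_add_one, hRs] at h3
    rcases h3 with h3 | ⟨_, y, hy, hy1, hy2⟩
    · exact absurd h3 (Nat.find_min (hex x hx) (by omega))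
    · refine ⟨y, hy, ?_, hy2⟩
      rw [dif_pos hy, hk]
      exact Nat.lt_succ_of_le (Nat.find_min' _ hy1)

/-- the certificate for a dense minor: `m` is the number of its vertices, `f` gives the branch sets,
`ℓ` the labelling of the branch sets, `L` is a list of edges -/
def Wit (a b n g m : ℕ) (f ℓ : List ℕ) (L : List (ℕ × ℕ)) : Prop :=
  (∀ v < m, ∃ x, x < n ∧ f.getD x 0 = v + 1) ∧
  (∀ x < n, ∀ y < n, f.getD x 0 ≠ f.getD y 0 ∨ f.getD x 0 = 0 ∨ ℓ.getD x 0 ≠ 0 ∨
    ℓ.getD y 0 ≠ 0 ∨ x = y) ∧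
  (∀ x < n, f.getD x 0 = 0 ∨ ℓ.getD x 0 = 0 ∨
    ∃ y, y < n ∧ f.getD y 0 = f.getD x 0 ∧ ℓ.getD y 0 < ℓ.getD x 0 ∧ BA n g x y) ∧
  (∀ i < L.length, ∀ j < i, L[i]? ≠ L[j]?) ∧
  (∀ p ∈ L, p.1 < p.2 ∧ p.2 < m ∧ ∃ x, x < n ∧ ∃ y, y < n ∧ f.getD x 0 = p.1 + 1 ∧
    f.getD y 0 = p.2 + 1 ∧ BA n g x y) ∧
  a * m < (b + 1) * L.length

theorem nodup_of_get {α : Type*} {L : List α} (h : ∀ i < L.length, ∀ j < i, L[i]? ≠ L[j]?) :
    L.Nodup := by
  rw [List.nodup_iff_injective_get]
  intro i j hij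
  by_contra hne
  rcases Nat.lt_or_gt_of_ne (fun h => hne (Fin.ext h)) with hlt | hlt
  · refine h j j.2 i hlt ?_
    rw [List.getElem?_eq_getElem j.2, List.getElem?_eq_getElem i.2]
    exact congrArg some hij.symm
  · refine h i i.2 j hlt ?_
    rw [List.getElem?_eq_getElem j.2, List.getElem?_eq_getElem i.2]
    exact congrArg some hij

theorem get_of_nodup {α : Type*} {L : List α} (h : L.Nodup) :
    ∀ i < L.length, ∀ j < i, L[i]? ≠ L[j]? := by
  intro i hi j hj he
  have hj' : j < L.length := hj.trans hi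
  rw [List.getElem?_eq_getElem hi, List.getElem?_eq_getElem hj'] at he
  rw [List.nodup_iff_injective_get] at h
  have h1 : L.get ⟨i, hi⟩ = L.get ⟨j, hj'⟩ := by simpa using he
  have h2 := congrArg Fin.val (h h1)
  simp only at h2
  omega

/-- the number of edges as a number of ordered pairs, upper bound for lists of edges -/
theorem length_le_e2 {m : ℕ} {K : SimpleGraph (Fin m)} {L : List (ℕ × ℕ)} (hL : L.Nodup)
    (h : ∀ p ∈ L, p.1 < p.2 ∧ ∃ (h1 : p.1 < m) (h2 : p.2 < m), K.Adj ⟨p.1, h1⟩ ⟨p.2, h2⟩) :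
    2 * L.length ≤ e2 K := by
  classical
  set T := L.toFinset with hT
  have hTc : T.card = L.length := List.toFinset_card_of_nodup hL
  set E := (Finset.univ.filter fun p : Fin m × Fin m => K.Adj p.1 p.2) with hE
  have h1 : T ∪ T.image Prod.swap ⊆ E.image fun p => ((p.1 : ℕ), (p.2 : ℕ)) := by
    intro p hp
    rcases Finset.mem_union.1 hp with hp | hp
    · obtain ⟨_, h1, h2, h3⟩ := h p (List.mem_toFinset.1 hp)
      exact Finset.mem_image.2 ⟨(⟨p.1, h1⟩, ⟨p.2, h2⟩), Finset.mem_filter.2 ⟨Finset.mem_univ _, h3⟩,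
        rfl⟩
    · obtain ⟨q, hq, rfl⟩ := Finset.mem_image.1 hp
      obtain ⟨_, h1, h2, h3⟩ := h q (List.mem_toFinset.1 hq)
      exact Finset.mem_image.2 ⟨(⟨q.2, h2⟩, ⟨q.1, h1⟩), Finset.mem_filter.2 ⟨Finset.mem_univ _,
        h3.symm⟩, rfl⟩
  have h2 : Disjoint T (T.image Prod.swap) := by
    rw [Finset.disjoint_left]
    intro p hp hp'
    obtain ⟨q, hq, rfl⟩ := Finset.mem_image.1 hp'
    have h3 := (h _ (List.mem_toFinset.1 hp)).1
    have h4 := (h _ (List.mem_toFinset.1 hq)).1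
    simp only [Prod.fst_swap, Prod.snd_swap] at h3
    omega
  have h3 := Finset.card_le_card h1
  rw [Finset.card_union_of_disjoint h2, Finset.card_image_of_injective _ Prod.swap_injective,
    hTc] at h3
  have h4 : (E.image fun p => ((p.1 : ℕ), (p.2 : ℕ))).card ≤ E.card := Finset.card_image_le
  have h5 : e2 K = E.card := rfl
  omega

/-- the list of all edges -/
theorem exists_list {m : ℕ} (K : SimpleGraph (Fin m)) : ∃ L : List (ℕ × ℕ), L.Nodup ∧
    (∀ p ∈ L, p.1 < p.2 ∧ ∃ (h1 : p.1 < m) (h2 : p.2 < m), K.Adj ⟨p.1, h1⟩ ⟨p.2, h2⟩) ∧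
    e2 K ≤ 2 * L.length := by
  classical
  set E := (Finset.univ.filter fun p : Fin m × Fin m => K.Adj p.1 p.2) with hE
  set E' := E.filter fun p => p.1 < p.2 with hE'
  set T := E'.image fun p => ((p.1 : ℕ), (p.2 : ℕ)) with hT
  have hinj : Function.Injective fun p : Fin m × Fin m => ((p.1 : ℕ), (p.2 : ℕ)) := by
    intro p q hpq
    simp only [Prod.mk.injEq] at hpq
    exact Prod.ext (Fin.ext hpq.1) (Fin.ext hpq.2)
  refine ⟨T.toList, T.nodup_toList, ?_, ?_⟩
  · intro p hp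
    rw [Finset.mem_toList] at hp
    obtain ⟨q, hq, rfl⟩ := Finset.mem_image.1 hp
    obtain ⟨h1, h2⟩ := Finset.mem_filter.1 hq
    exact ⟨h2, q.1.2, q.2.2, (Finset.mem_filter.1 h1).2⟩
  · rw [Finset.length_toList, hT, Finset.card_image_of_injective _ hinj]
    have h1 : E ⊆ E' ∪ E'.image Prod.swap := by
      rintro ⟨x, y⟩ hp
      have hxy : K.Adj x y := (Finset.mem_filter.1 hp).2
      rcases lt_or_gt_of_ne hxy.ne with hlt | hlt
      · exact Finset.mem_union_left _ (Finset.mem_filter.2 ⟨hp, hlt⟩)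
      · exact Finset.mem_union_right _ (Finset.mem_image.2 ⟨(y, x), Finset.mem_filter.2
          ⟨Finset.mem_filter.2 ⟨Finset.mem_univ _, hxy.symm⟩, hlt⟩, rfl⟩)
    have h2 := (Finset.card_le_card h1).trans (Finset.card_union_le _ _)
    have h3 : (E'.image Prod.swap).card ≤ E'.card := Finset.card_image_le
    have h4 : e2 K = E.card := rfl
    omega

theorem not_MR_of_wit {a b n g m : ℕ} {f ℓ : List ℕ} {L : List (ℕ × ℕ)}
    (h : Wit a b n g m f ℓ L) : ¬ MR ((a : ℝ) / ((b : ℝ) + 1)) (GG n g) := by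
  obtain ⟨h1, h2, h3, h4, h5, h6⟩ := h
  let F : Fin m → Set (Fin n) := fun v => {x | f.getD x 0 = v + 1}
  let K : SimpleGraph (Fin m) :=
    { Adj := fun i j => i ≠ j ∧ ∃ x ∈ F i, ∃ y ∈ F j, (GG n g).Adj x y
      symm := ⟨fun _ _ ⟨h, x, hx, y, hy, hxy⟩ => ⟨h.symm, y, hy, x, hx, hxy.symm⟩⟩
      loopless := ⟨fun _ h => h.1 rfl⟩ }
  have hmodel : Model K (GG n g) F := by
    refine ⟨?_, ?_, ?_⟩
    · intro i j hij
      rw [disjoint_left]
      intro x hx hx'
      have hx1 : f.getD x 0 = i + 1 := hx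
      have hx2 : f.getD x 0 = j + 1 := hx'
      apply hij
      apply Fin.ext
      omega
    · intro v
      -- every vertex is linked to a vertex with label 0
      have hlink : ∀ k, ∀ x ∈ F v, ℓ.getD (x : ℕ) 0 = k → ∃ y ∈ F v, ℓ.getD (y : ℕ) 0 = 0 ∧
          ReflTransGen (fun a b => (GG n g).Adj a b ∧ a ∈ F v ∧ b ∈ F v) x y := by
        intro k
        induction k using Nat.strong_induction_on with
        | _ k ih =>
        intro x hx hk
        have hx1 : f.getD x 0 = v + 1 := hx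
        rcases h3 x x.2 with h | h | ⟨y, hy, hy1, hy2, hy3⟩
        · omega
        · exact ⟨x, hx, h, ReflTransGen.refl⟩
        · have hyF : (⟨y, hy⟩ : Fin n) ∈ F v := by
            show f.getD y 0 = v + 1
            rw [hy1, hx1]
          obtain ⟨z, hz, hz0, hzl⟩ := ih (ℓ.getD y 0) (by omega) ⟨y, hy⟩ hyF rfl
          have hy4 : (GG n g).Adj x ⟨y, hy⟩ := hy3
          exact ⟨z, hz, hz0, ReflTransGen.head ⟨hy4, hx, hyF⟩ hzl⟩
      obtain ⟨x, hx, hxv⟩ := h1 v v.2
      obtain ⟨z, hz, hz0, _⟩ := hlink _ (⟨x, hx⟩ : Fin n) hxv rfl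
      refine conn_of_center hz ?_
      intro y hy
      obtain ⟨z', hz', hz0', hl⟩ := hlink _ y hy rfl
      have hzz : z' = z := by
        have e1 : f.getD z' 0 = v + 1 := hz'
        have e2 : f.getD z 0 = v + 1 := hz
        rcases h2 z' z'.2 z z.2 with h | h | h | h | h
        · exact absurd (e1.trans e2.symm) h
        · omega
        · exact absurd hz0' h
        · exact absurd hz0 h
        · exact Fin.ext h
      rw [hzz] at hl
      exact hl
    · intro i j hij
      exact hij.2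
  intro hMR
  have h7 := hMR (Fin m) K hmodel.minor
  have h8 := length_le_e2 (K := K) (nodup_of_get h4) (by
    intro p hp
    obtain ⟨e1, e2, x, hx, y, hy, e3, e4, e5⟩ := h5 p hp
    refine ⟨e1, by omega, e2, ?_⟩
    refine ⟨?_, ⟨x, hx⟩, e3, ⟨y, hy⟩, e4, e5⟩
    intro he
    have := congrArg Fin.val he
    simp only at this
    omega)
  rw [Nat.card_eq_fintype_card, Fintype.card_fin] at h7
  have hb : (0 : ℝ) < b + 1 := by positivity
  have h9 : (2 * L.length : ℝ) ≤ e2 K := by exact_mod_cast h8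
  have h10 : (a * m : ℝ) < (b + 1) * L.length := by exact_mod_cast h6
  have h11 : 2 * ((a : ℝ) / ((b : ℝ) + 1)) * m * (b + 1) = 2 * (a * m) := by field_simp
  have h12 : (L.length : ℝ) * 2 * (b + 1) ≤ 2 * ((a : ℝ) / ((b : ℝ) + 1)) * m * (b + 1) :=
    mul_le_mul_of_nonneg_right (by linarith) hb.le
  rw [h11] at h12
  linarith

theorem wit_of_not_MR {a b n g : ℕ} (h : ¬ MR ((a : ℝ) / ((b : ℝ) + 1)) (GG n g)) :
    ∃ m f ℓ L, Wit a b n g m f ℓ L := by
  classical
  unfold MR at h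
  push Not at h
  obtain ⟨W, iW, K, hK, hlt⟩ := h
  obtain ⟨f0, hf0⟩ := minor_iff.1 hK
  set m := Fintype.card W with hm
  set e := Fintype.equivFin W with he
  set K' : SimpleGraph (Fin m) := K.comap e.symm with hK'
  have hee : e2 K' = e2 K := e2_congr e.symm fun _ _ => Iff.rfl
  let F : Fin m → Set (Fin n) := fun v => f0 (e.symm v)
  have hF : Model K' (GG n g) F :=
    ⟨fun i j hij => hf0.disj _ _ fun h => hij (e.symm.injective h), fun i => hf0.conn _,
      fun i j hij => hf0.adj _ _ hij⟩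
  choose lab hlab1 hlab2 using fun v => exists_label (hF.conn v)
  -- the branch set of a vertex
  let fv : Fin n → ℕ := fun x => if h : ∃ v, x ∈ F v then (h.choose : ℕ) + 1 else 0
  have hfv : ∀ x v, x ∈ F v → fv x = v + 1 := by
    intro x v hx
    have h : ∃ v, x ∈ F v := ⟨v, hx⟩
    simp only [fv, dif_pos h]
    rw [hF.eq_of_mem h.choose_spec hx]
  have hfv' : ∀ x (v : Fin m), fv x = v + 1 → x ∈ F v := by
    intro x v hx
    by_cases h : ∃ v, x ∈ F v
    · obtain ⟨w, hw⟩ := h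
      rw [hfv x w hw] at hx
      have : w = v := Fin.ext (by omega)
      rw [← this]
      exact hw
    · simp only [fv, dif_neg h] at hx
      omega
  have hfv0 : ∀ x, fv x ≠ 0 → ∃ v, x ∈ F v := by
    intro x hx
    by_contra h
    exact hx (dif_neg h)
  let lv : Fin n → ℕ := fun x => if h : ∃ v, x ∈ F v then lab h.choose x else 0
  have hlv : ∀ x v, x ∈ F v → lv x = lab v x := by
    intro x v hx
    have h : ∃ v, x ∈ F v := ⟨v, hx⟩
    simp only [lv, dif_pos h]
    rw [hF.eq_of_mem h.choose_spec hx]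
  obtain ⟨L, hL1, hL2, hL3⟩ := exists_list K'
  have hgf : ∀ (φ : Fin n → ℕ) (x : ℕ) (hx : x < n), (List.ofFn φ).getD x 0 = φ ⟨x, hx⟩ := by
    intro φ x hx
    rw [List.getD_eq_getElem?_getD, List.getElem?_ofFn]
    simp [hx]
  refine ⟨m, List.ofFn fv, List.ofFn lv, L, ?_, ?_, ?_, get_of_nodup hL1, ?_, ?_⟩
  · intro v hv
    obtain ⟨x, hx⟩ := (hF.conn ⟨v, hv⟩).1
    refine ⟨x, x.2, ?_⟩
    rw [hgf fv x x.2]
    exact hfv x _ hx
  · intro x hx y hy
    rw [hgf _ x hx, hgf _ y hy, hgf _ x hx, hgf _ y hy]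
    by_contra hcon
    push Not at hcon
    obtain ⟨e1, e2, e3, e4, e5⟩ := hcon
    obtain ⟨v, hv⟩ := hfv0 _ e2
    have hv' : (⟨y, hy⟩ : Fin n) ∈ F v := hfv' _ _ (by rw [← e1]; exact hfv _ _ hv)
    rw [hlv _ v hv] at e3
    rw [hlv _ v hv'] at e4
    have := hlab1 v _ hv _ hv' e3 e4
    exact e5 (congrArg Fin.val this)
  · intro x hx
    rw [hgf _ x hx, hgf _ x hx]
    by_cases h1 : fv ⟨x, hx⟩ = 0
    · exact Or.inl h1
    · by_cases h2 : lv ⟨x, hx⟩ = 0
      · exact Or.inr (Or.inl h2)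
      · obtain ⟨v, hv⟩ := hfv0 _ h1
        rw [hlv _ v hv] at h2 ⊢
        obtain ⟨y, hy, hy1, hy2⟩ := hlab2 v _ hv h2
        refine Or.inr (Or.inr ⟨y, y.2, ?_, ?_, hy2⟩)
        · rw [hgf _ y y.2, hfv _ v hv]
          exact hfv y v hy
        · rw [hgf _ y y.2]
          have : lv ⟨(y : ℕ), y.2⟩ = lab v y := hlv y v hy
          rw [this]
          exact hy1
  · intro p hp
    obtain ⟨e1, e2, e3, e4⟩ := hL2 p hp
    obtain ⟨x, hx, y, hy, hxy⟩ := hF.adj _ _ e4
    refine ⟨e1, e3, x, x.2, y, y.2, ?_, ?_, hxy⟩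
    · rw [hgf _ x x.2]
      exact hfv _ _ hx
    · rw [hgf _ y y.2]
      exact hfv _ _ hy
  · rw [← hee, Nat.card_eq_fintype_card] at hlt
    have h1 : (e2 K' : ℝ) ≤ 2 * L.length := by exact_mod_cast hL3
    have hb : (0 : ℝ) < b + 1 := by positivity
    have h2 : 2 * ((a : ℝ) / ((b : ℝ) + 1)) * m * (b + 1) < 2 * L.length * (b + 1) :=
      mul_lt_mul_of_pos_right (lt_of_lt_of_le hlt h1) hb
    have h11 : 2 * ((a : ℝ) / ((b : ℝ) + 1)) * m * (b + 1) = 2 * (a * m) := by field_simp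
    rw [h11] at h2
    have h3 : (a * m : ℝ) < (b + 1) * L.length := by linarith
    exact_mod_cast h3

/-- few edges -/
def Few (c d N n g : ℕ) (L : List (ℕ × ℕ)) : Prop :=
  (∀ i < n, ∀ j < n, (i = j ∨ (g / 2 ^ (i * n + j) % 2 ≠ 1 ∧ g / 2 ^ (j * n + i) % 2 ≠ 1)) ∨
    ∃ k : ℕ, L[k]? = some (i, j)) ∧
  L.length * ((d + 1) * (N + 1)) < 2 * c * n * N

theorem few_iff {c d N n g : ℕ} : (∃ L, Few c d N n g L) ↔
    e2 (GG n g) * ((d + 1) * (N + 1)) < 2 * c * n * N := by
  classical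
  set E := (Finset.univ.filter fun p : Fin n × Fin n => (GG n g).Adj p.1 p.2) with hE
  have hinj : Function.Injective fun p : Fin n × Fin n => ((p.1 : ℕ), (p.2 : ℕ)) := by
    intro p q hpq
    simp only [Prod.mk.injEq] at hpq
    exact Prod.ext (Fin.ext hpq.1) (Fin.ext hpq.2)
  constructor
  · rintro ⟨L, h1, h2⟩
    have h3 : E.image (fun p => ((p.1 : ℕ), (p.2 : ℕ))) ⊆ L.toFinset := by
      intro p hp
      obtain ⟨q, hq, rfl⟩ := Finset.mem_image.1 hp
      have hq' : BA n g q.1 q.2 := (Finset.mem_filter.1 hq).2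
      rw [List.mem_toFinset]
      rcases h1 q.1 q.1.2 q.2 q.2.2 with (h | ⟨h, h'⟩) | ⟨k, hk⟩
      · exact absurd h hq'.1
      · rcases hq'.2 with h'' | h''
        · exact absurd h'' h
        · exact absurd h'' h'
      · exact List.mem_of_getElem? hk
    have h4 := (Finset.card_le_card h3).trans (List.toFinset_card_le _)
    rw [Finset.card_image_of_injective _ hinj] at h4
    have h5 : e2 (GG n g) = E.card := rfl
    rw [h5]
    exact lt_of_le_of_lt (Nat.mul_le_mul_right _ h4) h2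
  · intro h
    refine ⟨(E.image (fun p => ((p.1 : ℕ), (p.2 : ℕ)))).toList, ?_, ?_⟩
    · intro i hi j hj
      by_cases h1 : BA n g i j
      · right
        have h2 : (i, j) ∈ (E.image (fun p => ((p.1 : ℕ), (p.2 : ℕ)))).toList := by
          rw [Finset.mem_toList, Finset.mem_image]
          exact ⟨(⟨i, hi⟩, ⟨j, hj⟩), Finset.mem_filter.2 ⟨Finset.mem_univ _, h1⟩, rfl⟩
        obtain ⟨k, hk, hk'⟩ := List.mem_iff_getElem.1 h2
        exact ⟨k, by rw [List.getElem?_eq_getElem hk, hk']⟩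
      · left
        unfold BA at h1
        push Not at h1
        by_cases hij : i = j
        · exact Or.inl hij
        · exact Or.inr (h1 hij)
    · rw [Finset.length_toList, Finset.card_image_of_injective _ hinj]
      exact h

/-- the certificate in coded form -/
theorem cert_iff {a b c d N : ℕ} : Cert a b c d N ↔ 1 ≤ N ∧ ∀ n < KK a N + 1, ∀ g < 2 ^ (n * n),
    n = 0 ∨ (∃ m f ℓ L, Wit a b n g m f ℓ L) ∨ ∃ L, Few c d N n g L := by
  unfold Cert
  refine and_congr_right fun hN => ?_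
  constructor
  · intro h n hn g _
    rcases Nat.eq_zero_or_pos n with h0 | hpos
    · exact Or.inl h0
    · right
      by_cases hM : MR ((a : ℝ) / ((b : ℝ) + 1)) (GG n g)
      · exact Or.inr (few_iff.2 (h n hpos (by omega) _ hM))
      · exact Or.inl (wit_of_not_MR hM)
  · intro h n hn hnK G hG
    obtain ⟨g, hg, rfl⟩ := exists_code G
    rcases h n (by omega) g hg with h | ⟨m, f, ℓ, L, hW⟩ | h
    · omega
    · exact absurd hG (not_MR_of_wit hW)
    · exact few_iff.1 h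

/-! ### A certificate for being in `M_ρ` -/

/-- the vertices `x`, `y` of `GG n g` are equal or not adjacent -/
def NBA (n g i j : ℕ) : Prop :=
  i = j ∨ (g / 2 ^ (i * n + j) % 2 ≠ 1 ∧ g / 2 ^ (j * n + i) % 2 ≠ 1)

theorem nba_iff {n g i j : ℕ} : NBA n g i j ↔ ¬ BA n g i j := by
  unfold NBA BA
  constructor
  · rintro (h | ⟨h, h'⟩)
    · exact fun h' => h'.1 h
    · rintro ⟨_, h1 | h1⟩
      · exact h h1
      · exact h' h1
  · intro h
    push Not at h
    by_cases hij : i = j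
    · exact Or.inl hij
    · exact Or.inr (h hij)

/-- the digits of `w` in base `n + 1` -/
def dig (n w x : ℕ) : ℕ := w / (n + 1) ^ x % (n + 1)

theorem exists_dig {n : ℕ} : ∀ (k : ℕ) (φ : ℕ → ℕ), (∀ x < k, φ x ≤ n) →
    ∃ w < (n + 1) ^ k, ∀ x < k, dig n w x = φ x := by
  intro k
  induction k with
  | zero => exact fun φ _ => ⟨0, by simp, fun x hx => absurd hx (by omega)⟩
  | succ k ih =>
    intro φ hφ
    obtain ⟨w, hw, hw'⟩ := ih (fun x => φ (x + 1)) (fun x hx => hφ _ (by omega))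
    refine ⟨φ 0 + (n + 1) * w, ?_, ?_⟩
    · have h1 := hφ 0 (by omega)
      calc φ 0 + (n + 1) * w < (n + 1) + (n + 1) * w := by omega
        _ = (n + 1) * (w + 1) := by ring
        _ ≤ (n + 1) * (n + 1) ^ k := Nat.mul_le_mul_left _ hw
        _ = (n + 1) ^ (k + 1) := by ring
    · intro x hx
      have h1 := hφ 0 (by omega)
      rcases x with _ | x
      · unfold dig
        rw [pow_zero, Nat.div_one, Nat.add_mul_mod_self_left, Nat.mod_eq_of_lt (by omega)]
      · rw [← hw' x (by omega)]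
        unfold dig
        rw [pow_succ', ← Nat.div_div_eq_div_mul, Nat.add_mul_div_left _ _ (by omega),
          Nat.div_eq_of_lt (show φ 0 < n + 1 by omega), zero_add]

/-- the digits of `w` do not give branch sets of a minor with `m` vertices -/
def NBr (n g m w : ℕ) : Prop :=
  ∃ v, v < m ∧ ((∀ x < n, dig n w x ≠ v + 1) ∨ ∃ χ : List ℕ,
    (∃ x, x < n ∧ dig n w x = v + 1 ∧ χ.getD x 0 = 1) ∧
    (∃ y, y < n ∧ dig n w y = v + 1 ∧ χ.getD y 0 ≠ 1) ∧
    ∀ x < n, ∀ y < n, dig n w x ≠ v + 1 ∨ dig n w y ≠ v + 1 ∨ χ.getD x 0 ≠ 1 ∨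
      χ.getD y 0 = 1 ∨ NBA n g x y)

/-- the minor given by the digits of `w` has few edges -/
def FewM (a b n g m w : ℕ) (L : List (ℕ × ℕ)) : Prop :=
  (∀ x < n, ∀ y < n, dig n w x = 0 ∨ dig n w y = 0 ∨ m < dig n w x ∨ m < dig n w y ∨
    dig n w x = dig n w y ∨ NBA n g x y ∨ ∃ k : ℕ, L[k]? = some (dig n w x, dig n w y)) ∧
  L.length * (b + 1) ≤ 2 * a * m

/-- the branch sets given by `w` -/
def BrS (n w : ℕ) {m : ℕ} (v : Fin m) : Set (Fin n) := {x | dig n w x = v + 1}

theorem conn_of_not_NBr {n g m w : ℕ} (h : ¬ NBr n g m w) (v : Fin m) :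
    Conn (GG n g) (BrS n w v) := by
  classical
  unfold NBr at h
  push Not at h
  obtain ⟨⟨x0, hx0, hx0v⟩, h⟩ := h v v.2
  refine conn_of_center (x0 := (⟨x0, hx0⟩ : Fin n)) hx0v ?_
  by_contra hcon
  push Not at hcon
  obtain ⟨z, hz, hzn⟩ := hcon
  let S : Fin n → Prop := fun x => ReflTransGen (fun a b => (GG n g).Adj a b ∧ a ∈ BrS n w v ∧
    b ∈ BrS n w v) x ⟨x0, hx0⟩
  have hgf : ∀ (φ : Fin n → ℕ) (x : ℕ) (hx : x < n), (List.ofFn φ).getD x 0 = φ ⟨x, hx⟩ := by
    intro φ x hx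
    rw [List.getD_eq_getElem?_getD, List.getElem?_ofFn]
    simp [hx]
  obtain ⟨x, hx, y, hy, e1, e2, e3, e4, e5⟩ := h (List.ofFn fun x => if S x then 1 else 0)
    ⟨x0, hx0, hx0v, by
      rw [hgf _ x0 hx0]
      exact if_pos ReflTransGen.refl⟩
    ⟨z, z.2, hz, by
      rw [hgf _ z z.2]
      simp only [Fin.eta, S, if_neg hzn]
      exact zero_ne_one⟩
  rw [hgf _ x hx] at e3
  rw [hgf _ y hy] at e4
  rw [nba_iff, not_not] at e5
  have hSx : S ⟨x, hx⟩ := by
    by_contra hn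
    rw [if_neg hn] at e3
    exact absurd e3 zero_ne_one
  refine e4 (if_pos (ReflTransGen.head ⟨?_, e2, e1⟩ hSx))
  exact (show (GG n g).Adj ⟨x, hx⟩ ⟨y, hy⟩ from e5).symm

theorem not_NBr_of_conn {n g m w : ℕ} (h : ∀ v : Fin m, Conn (GG n g) (BrS n w v)) :
    ¬ NBr n g m w := by
  rintro ⟨v, hv, h1 | ⟨χ, ⟨x, hx, hxv, hx1⟩, ⟨y, hy, hyv, hy1⟩, h2⟩⟩
  · obtain ⟨x, hx⟩ := (h ⟨v, hv⟩).1
    exact h1 x x.2 hx
  · have h3 := (h ⟨v, hv⟩).2 (⟨x, hx⟩ : Fin n) hxv (⟨y, hy⟩ : Fin n) hyv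
    have key : ∀ z : Fin n, ReflTransGen (fun a b => (GG n g).Adj a b ∧ a ∈ BrS n w (⟨v, hv⟩ : Fin m) ∧
        b ∈ BrS n w (⟨v, hv⟩ : Fin m)) ⟨x, hx⟩ z → χ.getD z 0 = 1 := by
      intro z hz
      induction hz with
      | refl => exact hx1
      | @tail y' z _ hst ih =>
        rcases h2 y' y'.2 z z.2 with e | e | e | e | e
        · exact absurd hst.2.1 e
        · exact absurd hst.2.2 e
        · exact absurd ih e
        · exact e
        · rw [nba_iff] at e
          exact absurd hst.1 e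
    exact hy1 (key _ h3)

theorem MR_code {a b n g : ℕ} : MR ((a : ℝ) / ((b : ℝ) + 1)) (GG n g) ↔
    ∀ m < n + 1, ∀ w < (n + 1) ^ n, NBr n g m w ∨ ∃ L, FewM a b n g m w L := by
  classical
  have hb : (0 : ℝ) < b + 1 := by positivity
  constructor
  · intro hMR m hm w _
    by_cases hbr : NBr n g m w
    · exact Or.inl hbr
    right
    have hc := conn_of_not_NBr hbr
    let K : SimpleGraph (Fin m) :=
      { Adj := fun i j => i ≠ j ∧ ∃ x ∈ BrS n w i, ∃ y ∈ BrS n w j, (GG n g).Adj x y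
        symm := ⟨fun _ _ ⟨h, x, hx, y, hy, hxy⟩ => ⟨h.symm, y, hy, x, hx, hxy.symm⟩⟩
        loopless := ⟨fun _ h => h.1 rfl⟩ }
    have hmodel : Model K (GG n g) (fun i => BrS n w i) := by
      refine ⟨?_, hc, fun i j hij => hij.2⟩
      intro i j hij
      rw [disjoint_left]
      intro x hx hx'
      have e1 : dig n w x = i + 1 := hx
      have e2 : dig n w x = j + 1 := hx'
      exact hij (Fin.ext (by omega))
    have h7 := hMR (Fin m) K hmodel.minor
    rw [Nat.card_eq_fintype_card, Fintype.card_fin] at h7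
    set E := (Finset.univ.filter fun p : Fin m × Fin m => K.Adj p.1 p.2) with hE
    have hinj : Function.Injective fun p : Fin m × Fin m => ((p.1 : ℕ) + 1, (p.2 : ℕ) + 1) := by
      intro p q hpq
      simp only [Prod.mk.injEq] at hpq
      exact Prod.ext (Fin.ext (by omega)) (Fin.ext (by omega))
    refine ⟨(E.image (fun p => ((p.1 : ℕ) + 1, (p.2 : ℕ) + 1))).toList, ?_, ?_⟩
    · intro x hx y hy
      by_contra hcon
      push Not at hcon
      obtain ⟨e1, e2, e3, e4, e5, e6, e7⟩ := hcon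
      rw [nba_iff, not_not] at e6
      have h1 : (dig n w x, dig n w y) ∈
          (E.image (fun p => ((p.1 : ℕ) + 1, (p.2 : ℕ) + 1))).toList := by
        rw [Finset.mem_toList, Finset.mem_image]
        refine ⟨(⟨dig n w x - 1, by omega⟩, ⟨dig n w y - 1, by omega⟩),
          Finset.mem_filter.2 ⟨Finset.mem_univ _, ?_, ⟨x, hx⟩, ?_, ⟨y, hy⟩, ?_, e6⟩, ?_⟩
        · intro he
          have := congrArg Fin.val he
          simp only at this
          omega
        · show dig n w x = dig n w x - 1 + 1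
          omega
        · show dig n w y = dig n w y - 1 + 1
          omega
        · simp only [Prod.mk.injEq]
          omega
      obtain ⟨k, hk, hk'⟩ := List.mem_iff_getElem.1 h1
      exact e7 k (by rw [List.getElem?_eq_getElem hk, hk'])
    · rw [Finset.length_toList, Finset.card_image_of_injective _ hinj]
      have h8 : (e2 K : ℝ) * (b + 1) ≤ 2 * a * m := by
        have h11 : 2 * ((a : ℝ) / ((b : ℝ) + 1)) * m * (b + 1) = 2 * a * m := by field_simp
        rw [← h11]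
        exact mul_le_mul_of_nonneg_right h7 hb.le
      have h9 : e2 K = E.card := by
        rw [e2, hE]
        congr!
      rw [h9] at h8
      exact_mod_cast h8
  · intro h W iW K hK
    obtain ⟨f0, hf0⟩ := minor_iff.1 hK
    set m := Fintype.card W with hm
    set e := Fintype.equivFin W with he
    set K' : SimpleGraph (Fin m) := K.comap e.symm with hK'
    have hee : e2 K' = e2 K := e2_congr e.symm fun _ _ => Iff.rfl
    let F : Fin m → Set (Fin n) := fun v => f0 (e.symm v)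
    have hF : Model K' (GG n g) F :=
      ⟨fun i j hij => hf0.disj _ _ fun h => hij (e.symm.injective h), fun i => hf0.conn _,
        fun i j hij => hf0.adj _ _ hij⟩
    -- the number of branch sets
    have hmn : m ≤ n := by
      choose r hr using fun v => (hF.conn v).1
      have h1 : Function.Injective r := by
        intro v v' hvv
        have h2 := hr v'
        rw [← hvv] at h2
        exact hF.eq_of_mem (hr v) h2
      simpa using Fintype.card_le_of_injective r h1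
    let fv : ℕ → ℕ := fun x => if h : ∃ (v : Fin m) (hx : x < n), (⟨x, hx⟩ : Fin n) ∈ F v then
      (h.choose : ℕ) + 1 else 0
    have hfv : ∀ (x : Fin n) v, x ∈ F v → fv x = v + 1 := by
      intro x v hx
      have h : ∃ (v : Fin m) (hx : (x : ℕ) < n), (⟨x, hx⟩ : Fin n) ∈ F v := ⟨v, x.2, hx⟩
      simp only [fv, dif_pos h]
      obtain ⟨hx', hx''⟩ := h.choose_spec
      rw [hF.eq_of_mem hx'' hx]
    have hfv' : ∀ (x : Fin n) (v : Fin m), fv x = v + 1 → x ∈ F v := by
      intro x v hx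
      by_cases h : ∃ v, x ∈ F v
      · obtain ⟨w, hw⟩ := h
        rw [hfv x w hw] at hx
        have : w = v := Fin.ext (by omega)
        rw [← this]
        exact hw
      · have h' : ¬ ∃ (v : Fin m) (hx : (x : ℕ) < n), (⟨x, hx⟩ : Fin n) ∈ F v :=
          fun ⟨v, _, h2⟩ => h ⟨v, h2⟩
        simp only [fv, dif_neg h'] at hx
        omega
    have hfvn : ∀ x < n, fv x ≤ n := by
      intro x hx
      by_cases h : ∃ (v : Fin m) (hx : x < n), (⟨x, hx⟩ : Fin n) ∈ F v
      · simp only [fv, dif_pos h]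
        have := h.choose.2
        omega
      · simp only [fv, dif_neg h]
        omega
    obtain ⟨w, hw, hw'⟩ := exists_dig n fv hfvn
    have hBr : ∀ v : Fin m, BrS n w v = F v := by
      intro v
      ext x
      show dig n w x = v + 1 ↔ _
      rw [hw' x x.2]
      exact ⟨hfv' x v, hfv x v⟩
    rcases h m (by omega) w hw with hbr | ⟨L, hL1, hL2⟩
    · exact absurd hbr (not_NBr_of_conn fun v => by rw [hBr]; exact hF.conn v)
    · set E := (Finset.univ.filter fun p : Fin m × Fin m => K'.Adj p.1 p.2) with hE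
      have hinj : Function.Injective fun p : Fin m × Fin m => ((p.1 : ℕ) + 1, (p.2 : ℕ) + 1) := by
        intro p q hpq
        simp only [Prod.mk.injEq] at hpq
        exact Prod.ext (Fin.ext (by omega)) (Fin.ext (by omega))
      have h3 : E.image (fun p => ((p.1 : ℕ) + 1, (p.2 : ℕ) + 1)) ⊆ L.toFinset := by
        intro p hp
        obtain ⟨q, hq, rfl⟩ := Finset.mem_image.1 hp
        have hq' : K'.Adj q.1 q.2 := (Finset.mem_filter.1 hq).2
        obtain ⟨x, hx, y, hy, hxy⟩ := hF.adj _ _ hq'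
        have ex : dig n w x = q.1 + 1 := by rw [hw' x x.2]; exact hfv x _ hx
        have ey : dig n w y = q.2 + 1 := by rw [hw' y y.2]; exact hfv y _ hy
        have hne := hq'.ne
        have q1 := q.1.2
        have q2 := q.2.2
        rw [List.mem_toFinset]
        have hne' : (q.1 : ℕ) ≠ q.2 := fun h => hne (Fin.ext h)
        rcases hL1 x x.2 y y.2 with e | e | e | e | e | e | ⟨k, e⟩
        · omega
        · omega
        · omega
        · omega
        · omega
        · exact absurd hxy (nba_iff.1 e)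
        · rw [ex, ey] at e
          exact List.mem_of_getElem? e
      have h4 := (Finset.card_le_card h3).trans (List.toFinset_card_le _)
      rw [Finset.card_image_of_injective _ hinj] at h4
      have h5 : e2 K' = E.card := rfl
      rw [← hee, h5, Nat.card_eq_fintype_card]
      have h6 : E.card * (b + 1) ≤ 2 * a * m := (Nat.mul_le_mul_right _ h4).trans hL2
      have h7 : (E.card : ℝ) * (b + 1) ≤ 2 * a * m := by exact_mod_cast h6
      have h11 : 2 * ((a : ℝ) / ((b : ℝ) + 1)) * m * (b + 1) = 2 * a * m := by field_simp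
      rw [← h11] at h7
      exact le_of_mul_le_mul_right h7 hb

/-- many edges -/
def Many (c d n g : ℕ) (L : List (ℕ × ℕ)) : Prop :=
  (∀ i < L.length, ∀ j < i, L[i]? ≠ L[j]?) ∧
  (∀ p ∈ L, p.1 < p.2 ∧ p.2 < n ∧ BA n g p.1 p.2) ∧
  c * n < L.length * (d + 1)

theorem many_iff {c d n g : ℕ} : (∃ L, Many c d n g L) ↔
    2 * c * n < e2 (GG n g) * (d + 1) := by
  constructor
  · rintro ⟨L, h1, h2, h3⟩
    have h4 := length_le_e2 (K := GG n g) (nodup_of_get h1) (fun p hp => by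
      obtain ⟨e1, e2, e3⟩ := h2 p hp
      exact ⟨e1, by omega, e2, e3⟩)
    calc 2 * c * n = 2 * (c * n) := by ring
      _ < 2 * (L.length * (d + 1)) := by omega
      _ = (2 * L.length) * (d + 1) := by ring
      _ ≤ e2 (GG n g) * (d + 1) := Nat.mul_le_mul_right _ h4
  · intro h
    obtain ⟨L, hL1, hL2, hL3⟩ := exists_list (GG n g)
    refine ⟨L, get_of_nodup hL1, ?_, ?_⟩
    · intro p hp
      obtain ⟨e1, e2, e3, e4⟩ := hL2 p hp
      exact ⟨e1, e3, e4⟩
    · have h4 : e2 (GG n g) * (d + 1) ≤ (2 * L.length) * (d + 1) := Nat.mul_le_mul_right _ hL3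
      have h5 : 2 * (c * n) < 2 * (L.length * (d + 1)) := by
        calc 2 * (c * n) = 2 * c * n := by ring
          _ < _ := lt_of_lt_of_le h h4
          _ = _ := by ring
      omega

theorem lt_sd_code {a b c d : ℕ} : (c : ℝ) / ((d : ℝ) + 1) < sd ((a : ℝ) / ((b : ℝ) + 1)) ↔
    ∃ n g, 1 ≤ n ∧ (∀ m < n + 1, ∀ w < (n + 1) ^ n, NBr n g m w ∨ ∃ L, FewM a b n g m w L) ∧
      ∃ L, Many c d n g L := by
  rw [lt_sd_iff]
  constructor
  · rintro ⟨n, hn, G, hG, h⟩
    obtain ⟨g, _, rfl⟩ := exists_code G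
    exact ⟨n, g, hn, MR_code.1 hG, many_iff.2 h⟩
  · rintro ⟨n, g, hn, h1, h2⟩
    exact ⟨n, hn, GG n g, MR_code.2 h1, many_iff.1 h2⟩

end Pool.Agent.Work.MP_216d61_lc
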