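import Pool.Agent.Work.MP_216d61_lc.Code
import Pool.Agent.Work.MP_a32fd7_lc.Sigma

/-!
# Recursive enumerability of the certificates
-/

set_option autoImplicit false

namespace Pool.Agent.Work.MP_216d61_lc

open Pool.Agent.Work.MP_a32fd7_lc

variable {α : Type*} [Primcodable α]

theorem sone_eq {f g : α → ℕ} (hf : Primrec f) (hg : Primrec g) : SOne fun x => f x = g x :=
  SOne.of_primrecPred (PrimrecRel.comp Primrec.eq hf hg)

theorem sone_ne {f g : α → ℕ} (hf : Primrec f) (hg : Primrec g) : SOne fun x => f x ≠ g x :=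
  SOne.of_primrecPred (PrimrecPred.not (PrimrecRel.comp Primrec.eq hf hg))

theorem sone_lt {f g : α → ℕ} (hf : Primrec f) (hg : Primrec g) : SOne fun x => f x < g x :=
  SOne.of_primrecPred (PrimrecRel.comp Primrec.nat_lt hf hg)

theorem sone_le {f g : α → ℕ} (hf : Primrec f) (hg : Primrec g) : SOne fun x => f x ≤ g x :=
  SOne.of_primrecPred (PrimrecRel.comp Primrec.nat_le hf hg)

theorem prim_two_pow {f : α → ℕ} (hf : Primrec f) : Primrec fun x => 2 ^ f x := by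
  have h : Primrec fun n : ℕ => 2 ^ n := by
    refine (Primrec.nat_rec₁ 1 (f := fun _ r => 2 * r) ?_).of_eq ?_
    · exact Primrec.nat_mul.comp (Primrec.const 2) Primrec.snd
    · intro n
      induction n with
      | zero => rfl
      | succ n ih =>
        show 2 * _ = _
        rw [ih, pow_succ, mul_comm]
  exact h.comp hf

theorem prim_mul {f g : α → ℕ} (hf : Primrec f) (hg : Primrec g) : Primrec fun x => f x * g x :=
  Primrec.nat_mul.comp hf hg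

theorem prim_add {f g : α → ℕ} (hf : Primrec f) (hg : Primrec g) : Primrec fun x => f x + g x :=
  Primrec.nat_add.comp hf hg

theorem prim_bit {n g i j : α → ℕ} (hn : Primrec n) (hg : Primrec g) (hi : Primrec i)
    (hj : Primrec j) : Primrec fun x => g x / 2 ^ (i x * n x + j x) % 2 :=
  Primrec.nat_mod.comp (Primrec.nat_div.comp hg (prim_two_pow (prim_add (prim_mul hi hn) hj)))
    (Primrec.const 2)

theorem sone_BA {n g i j : α → ℕ} (hn : Primrec n) (hg : Primrec g) (hi : Primrec i)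
    (hj : Primrec j) : SOne fun x => BA (n x) (g x) (i x) (j x) :=
  (sone_ne hi hj).and ((sone_eq (prim_bit hn hg hi hj) (Primrec.const 1)).or
    (sone_eq (prim_bit hn hg hj hi) (Primrec.const 1)))

theorem sone_NBA {n g i j : α → ℕ} (hn : Primrec n) (hg : Primrec g) (hi : Primrec i)
    (hj : Primrec j) : SOne fun x => (i x = j x ∨ (g x / 2 ^ (i x * n x + j x) % 2 ≠ 1 ∧
      g x / 2 ^ (j x * n x + i x) % 2 ≠ 1)) :=
  (sone_eq hi hj).or ((sone_ne (prim_bit hn hg hi hj) (Primrec.const 1)).and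
    (sone_ne (prim_bit hn hg hj hi) (Primrec.const 1)))

theorem prim_getD {f : α → List ℕ} {i : α → ℕ} (hf : Primrec f) (hi : Primrec i) :
    Primrec fun x => (f x).getD (i x) 0 := (Primrec.list_getD 0).comp hf hi

theorem sone_Wit {a b n g m : α → ℕ} {f ℓ : α → List ℕ} {L : α → List (ℕ × ℕ)}
    (ha : Primrec a) (hb : Primrec b) (hn : Primrec n) (hg : Primrec g) (hm : Primrec m)
    (hf : Primrec f) (hℓ : Primrec ℓ) (hL : Primrec L) :
    SOne fun x => Wit (a x) (b x) (n x) (g x) (m x) (f x) (ℓ x) (L x) := by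
  have c1 : SOne fun x => ∀ v < m x, ∃ y, y < n x ∧ (f x).getD y 0 = v + 1 := by
    refine SOne.forall_lt (p := fun x v => ∃ y, y < n x ∧ (f x).getD y 0 = v + 1) ?_ hm
    refine SOne.exists (p := fun (z : α × ℕ) y => y < n z.1 ∧ (f z.1).getD y 0 = z.2 + 1) ?_
    have h1 : Primrec fun z : (α × ℕ) × ℕ => z.1.1 := Primrec.fst.comp Primrec.fst
    exact (sone_lt Primrec.snd (hn.comp h1)).and (sone_eq (prim_getD (hf.comp h1) Primrec.snd)
      (Primrec.succ.comp (Primrec.snd.comp Primrec.fst)))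
  have c2 : SOne fun x => ∀ y < n x, ∀ z < n x, (f x).getD y 0 ≠ (f x).getD z 0 ∨
      (f x).getD y 0 = 0 ∨ (ℓ x).getD y 0 ≠ 0 ∨ (ℓ x).getD z 0 ≠ 0 ∨ y = z := by
    refine SOne.forall_lt (p := fun x y => ∀ z < n x, (f x).getD y 0 ≠ (f x).getD z 0 ∨
      (f x).getD y 0 = 0 ∨ (ℓ x).getD y 0 ≠ 0 ∨ (ℓ x).getD z 0 ≠ 0 ∨ y = z) ?_ hn
    refine SOne.forall_lt (p := fun (w : α × ℕ) z => (f w.1).getD w.2 0 ≠ (f w.1).getD z 0 ∨
      (f w.1).getD w.2 0 = 0 ∨ (ℓ w.1).getD w.2 0 ≠ 0 ∨ (ℓ w.1).getD z 0 ≠ 0 ∨ w.2 = z) ?_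
      (hn.comp Primrec.fst)
    have h1 : Primrec fun z : (α × ℕ) × ℕ => z.1.1 := Primrec.fst.comp Primrec.fst
    have h2 : Primrec fun z : (α × ℕ) × ℕ => z.1.2 := Primrec.snd.comp Primrec.fst
    have h3 : Primrec fun z : (α × ℕ) × ℕ => z.2 := Primrec.snd
    exact (sone_ne (prim_getD (hf.comp h1) h2) (prim_getD (hf.comp h1) h3)).or
      ((sone_eq (prim_getD (hf.comp h1) h2) (Primrec.const 0)).or
      ((sone_ne (prim_getD (hℓ.comp h1) h2) (Primrec.const 0)).or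
      ((sone_ne (prim_getD (hℓ.comp h1) h3) (Primrec.const 0)).or (sone_eq h2 h3))))
  have c3 : SOne fun x => ∀ y < n x, (f x).getD y 0 = 0 ∨ (ℓ x).getD y 0 = 0 ∨
      ∃ z, z < n x ∧ (f x).getD z 0 = (f x).getD y 0 ∧ (ℓ x).getD z 0 < (ℓ x).getD y 0 ∧
        BA (n x) (g x) y z := by
    refine SOne.forall_lt (p := fun x y => (f x).getD y 0 = 0 ∨ (ℓ x).getD y 0 = 0 ∨
      ∃ z, z < n x ∧ (f x).getD z 0 = (f x).getD y 0 ∧ (ℓ x).getD z 0 < (ℓ x).getD y 0 ∧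
        BA (n x) (g x) y z) ?_ hn
    refine (sone_eq (prim_getD (hf.comp Primrec.fst) Primrec.snd) (Primrec.const 0)).or
      ((sone_eq (prim_getD (hℓ.comp Primrec.fst) Primrec.snd) (Primrec.const 0)).or ?_)
    refine SOne.exists (p := fun (w : α × ℕ) z => z < n w.1 ∧ (f w.1).getD z 0 =
      (f w.1).getD w.2 0 ∧ (ℓ w.1).getD z 0 < (ℓ w.1).getD w.2 0 ∧ BA (n w.1) (g w.1) w.2 z) ?_
    have h1 : Primrec fun z : (α × ℕ) × ℕ => z.1.1 := Primrec.fst.comp Primrec.fst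
    have h2 : Primrec fun z : (α × ℕ) × ℕ => z.1.2 := Primrec.snd.comp Primrec.fst
    have h3 : Primrec fun z : (α × ℕ) × ℕ => z.2 := Primrec.snd
    exact (sone_lt h3 (hn.comp h1)).and
      ((sone_eq (prim_getD (hf.comp h1) h3) (prim_getD (hf.comp h1) h2)).and
      ((sone_lt (prim_getD (hℓ.comp h1) h3) (prim_getD (hℓ.comp h1) h2)).and
      (sone_BA (hn.comp h1) (hg.comp h1) h2 h3)))
  have c4 : SOne fun x => ∀ i < (L x).length, ∀ j < i, (L x)[i]? ≠ (L x)[j]? := by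
    refine SOne.forall_lt (p := fun x i => ∀ j < i, (L x)[i]? ≠ (L x)[j]?) ?_
      (Primrec.list_length.comp hL)
    refine SOne.forall_lt (p := fun (w : α × ℕ) j => (L w.1)[w.2]? ≠ (L w.1)[j]?) ?_ Primrec.snd
    have h1 : Primrec fun z : (α × ℕ) × ℕ => z.1.1 := Primrec.fst.comp Primrec.fst
    have h2 : Primrec fun z : (α × ℕ) × ℕ => z.1.2 := Primrec.snd.comp Primrec.fst
    have h3 : Primrec fun z : (α × ℕ) × ℕ => z.2 := Primrec.snd
    exact SOne.of_primrecPred (PrimrecPred.not (PrimrecRel.comp Primrec.eq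
      (Primrec.list_getElem?.comp (hL.comp h1) h2) (Primrec.list_getElem?.comp (hL.comp h1) h3)))
  have c5 : SOne fun x => ∀ p ∈ L x, p.1 < p.2 ∧ p.2 < m x ∧ ∃ y, y < n x ∧ ∃ z, z < n x ∧
      (f x).getD y 0 = p.1 + 1 ∧ (f x).getD z 0 = p.2 + 1 ∧ BA (n x) (g x) y z := by
    refine SOne.forall_mem_list (p := fun x (p : ℕ × ℕ) => p.1 < p.2 ∧ p.2 < m x ∧ ∃ y, y < n x ∧
      ∃ z, z < n x ∧ (f x).getD y 0 = p.1 + 1 ∧ (f x).getD z 0 = p.2 + 1 ∧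
        BA (n x) (g x) y z) ?_ hL
    refine (sone_lt (Primrec.fst.comp Primrec.snd) (Primrec.snd.comp Primrec.snd)).and
      ((sone_lt (Primrec.snd.comp Primrec.snd) (hm.comp Primrec.fst)).and ?_)
    refine SOne.exists (p := fun (w : α × (ℕ × ℕ)) y => y < n w.1 ∧
      ∃ z, z < n w.1 ∧ (f w.1).getD y 0 = w.2.1 + 1 ∧ (f w.1).getD z 0 = w.2.2 + 1 ∧
        BA (n w.1) (g w.1) y z) ?_
    have h1 : Primrec fun z : (α × (ℕ × ℕ)) × ℕ => z.1.1 := Primrec.fst.comp Primrec.fst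
    have h3 : Primrec fun z : (α × (ℕ × ℕ)) × ℕ => z.2 := Primrec.snd
    refine (sone_lt h3 (hn.comp h1)).and ?_
    refine SOne.exists (p := fun (w : (α × (ℕ × ℕ)) × ℕ) z => z < n w.1.1 ∧
      (f w.1.1).getD w.2 0 = w.1.2.1 + 1 ∧ (f w.1.1).getD z 0 = w.1.2.2 + 1 ∧
        BA (n w.1.1) (g w.1.1) w.2 z) ?_
    have k1 : Primrec fun z : ((α × (ℕ × ℕ)) × ℕ) × ℕ => z.1.1.1 := h1.comp Primrec.fst
    have k2 : Primrec fun z : ((α × (ℕ × ℕ)) × ℕ) × ℕ => z.1.1.2 :=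
      Primrec.snd.comp (Primrec.fst.comp Primrec.fst)
    have k3 : Primrec fun z : ((α × (ℕ × ℕ)) × ℕ) × ℕ => z.1.2 := Primrec.snd.comp Primrec.fst
    have k4 : Primrec fun z : ((α × (ℕ × ℕ)) × ℕ) × ℕ => z.2 := Primrec.snd
    exact (sone_lt k4 (hn.comp k1)).and
      ((sone_eq (prim_getD (hf.comp k1) k3) (Primrec.succ.comp (Primrec.fst.comp k2))).and
      ((sone_eq (prim_getD (hf.comp k1) k4) (Primrec.succ.comp (Primrec.snd.comp k2))).and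
      (sone_BA (hn.comp k1) (hg.comp k1) k3 k4)))
  have c6 : SOne fun x => a x * m x < (b x + 1) * (L x).length :=
    sone_lt (prim_mul ha hm) (prim_mul (Primrec.succ.comp hb) (Primrec.list_length.comp hL))
  exact c1.and (c2.and (c3.and (c4.and (c5.and c6))))

theorem sone_Few {a b N n g : α → ℕ} {L : α → List (ℕ × ℕ)}
    (ha : Primrec a) (hb : Primrec b) (hN : Primrec N) (hn : Primrec n) (hg : Primrec g)
    (hL : Primrec L) : SOne fun x => Few (a x) (b x) (N x) (n x) (g x) (L x) := by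
  have c1 : SOne fun x => ∀ i < n x, ∀ j < n x, (i = j ∨ (g x / 2 ^ (i * n x + j) % 2 ≠ 1 ∧
      g x / 2 ^ (j * n x + i) % 2 ≠ 1)) ∨ ∃ k : ℕ, (L x)[k]? = some (i, j) := by
    refine SOne.forall_lt (p := fun x i => ∀ j < n x, (i = j ∨
      (g x / 2 ^ (i * n x + j) % 2 ≠ 1 ∧
      g x / 2 ^ (j * n x + i) % 2 ≠ 1)) ∨ ∃ k : ℕ, (L x)[k]? = some (i, j)) ?_ hn
    refine SOne.forall_lt (p := fun (w : α × ℕ) j => (w.2 = j ∨
      (g w.1 / 2 ^ (w.2 * n w.1 + j) % 2 ≠ 1 ∧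
      g w.1 / 2 ^ (j * n w.1 + w.2) % 2 ≠ 1)) ∨ ∃ k : ℕ, (L w.1)[k]? = some (w.2, j)) ?_
      (hn.comp Primrec.fst)
    have h1 : Primrec fun z : (α × ℕ) × ℕ => z.1.1 := Primrec.fst.comp Primrec.fst
    have h2 : Primrec fun z : (α × ℕ) × ℕ => z.1.2 := Primrec.snd.comp Primrec.fst
    have h3 : Primrec fun z : (α × ℕ) × ℕ => z.2 := Primrec.snd
    refine (sone_NBA (hn.comp h1) (hg.comp h1) h2 h3).or ?_
    refine SOne.exists (p := fun (w : (α × ℕ) × ℕ) (k : ℕ) => (L w.1.1)[k]? = some (w.1.2, w.2)) ?_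
    exact SOne.of_primrecPred (PrimrecRel.comp Primrec.eq
      (Primrec.list_getElem?.comp (hL.comp (h1.comp Primrec.fst)) Primrec.snd)
      (Primrec.option_some.comp (Primrec.pair (h2.comp Primrec.fst) (h3.comp Primrec.fst))))
  have c2 : SOne fun x => (L x).length * ((b x + 1) * (N x + 1)) < 2 * a x * n x * N x :=
    sone_lt (prim_mul (Primrec.list_length.comp hL) (prim_mul (Primrec.succ.comp hb)
      (Primrec.succ.comp hN)))
      (prim_mul (prim_mul (prim_mul (Primrec.const 2) ha) hn) hN)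
  exact c1.and c2

theorem sone_cert : SOne fun q : (ℕ × ℕ) × (ℕ × ℕ) => ∃ N, Cert q.1.1 q.1.2 q.2.1 q.2.2 N := by
  refine SOne.exists (p := fun (q : (ℕ × ℕ) × (ℕ × ℕ)) N => Cert q.1.1 q.1.2 q.2.1 q.2.2 N) ?_
  refine SOne.of_eq ?_ fun x => (cert_iff (a := x.1.1.1) (b := x.1.1.2) (c := x.1.2.1)
    (d := x.1.2.2) (N := x.2)).symm
  refine (sone_le (Primrec.const 1) Primrec.snd).and ?_
  refine SOne.forall_lt (p := fun (x : ((ℕ × ℕ) × (ℕ × ℕ)) × ℕ) n => ∀ g < 2 ^ (n * n), n = 0 ∨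
    (∃ m f ℓ L, Wit x.1.1.1 x.1.1.2 n g m f ℓ L) ∨ ∃ L, Few x.1.2.1 x.1.2.2 x.2 n g L) ?_ ?_
  · refine SOne.forall_lt (p := fun (y : (((ℕ × ℕ) × (ℕ × ℕ)) × ℕ) × ℕ) g => y.2 = 0 ∨
      (∃ m f ℓ L, Wit y.1.1.1.1 y.1.1.1.2 y.2 g m f ℓ L) ∨
        ∃ L, Few y.1.1.2.1 y.1.1.2.2 y.1.2 y.2 g L) ?_
      (prim_two_pow (prim_mul Primrec.snd Primrec.snd))
    have hq : Primrec fun z : ((((ℕ × ℕ) × (ℕ × ℕ)) × ℕ) × ℕ) × ℕ => z.1.1.1 :=
      Primrec.fst.comp (Primrec.fst.comp Primrec.fst)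
    have ha : Primrec fun z : ((((ℕ × ℕ) × (ℕ × ℕ)) × ℕ) × ℕ) × ℕ => z.1.1.1.1.1 :=
      Primrec.fst.comp (Primrec.fst.comp hq)
    have hb : Primrec fun z : ((((ℕ × ℕ) × (ℕ × ℕ)) × ℕ) × ℕ) × ℕ => z.1.1.1.1.2 :=
      Primrec.snd.comp (Primrec.fst.comp hq)
    have hc : Primrec fun z : ((((ℕ × ℕ) × (ℕ × ℕ)) × ℕ) × ℕ) × ℕ => z.1.1.1.2.1 :=
      Primrec.fst.comp (Primrec.snd.comp hq)
    have hd : Primrec fun z : ((((ℕ × ℕ) × (ℕ × ℕ)) × ℕ) × ℕ) × ℕ => z.1.1.1.2.2 :=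
      Primrec.snd.comp (Primrec.snd.comp hq)
    have hN : Primrec fun z : ((((ℕ × ℕ) × (ℕ × ℕ)) × ℕ) × ℕ) × ℕ => z.1.1.2 :=
      Primrec.snd.comp (Primrec.fst.comp Primrec.fst)
    have hn : Primrec fun z : ((((ℕ × ℕ) × (ℕ × ℕ)) × ℕ) × ℕ) × ℕ => z.1.2 :=
      Primrec.snd.comp Primrec.fst
    have hg : Primrec fun z : ((((ℕ × ℕ) × (ℕ × ℕ)) × ℕ) × ℕ) × ℕ => z.2 := Primrec.snd
    refine (sone_eq hn (Primrec.const 0)).or (SOne.or ?_ ?_)
    · refine SOne.exists (p := fun (z : ((((ℕ × ℕ) × (ℕ × ℕ)) × ℕ) × ℕ) × ℕ) m =>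
        ∃ f ℓ L, Wit z.1.1.1.1.1 z.1.1.1.1.2 z.1.2 z.2 m f ℓ L) ?_
      refine SOne.exists (p := fun (z : (((((ℕ × ℕ) × (ℕ × ℕ)) × ℕ) × ℕ) × ℕ) × ℕ) f =>
        ∃ ℓ L, Wit z.1.1.1.1.1.1 z.1.1.1.1.1.2 z.1.1.2 z.1.2 z.2 f ℓ L) ?_
      refine SOne.exists (p := fun (z : ((((((ℕ × ℕ) × (ℕ × ℕ)) × ℕ) × ℕ) × ℕ) × ℕ) × List ℕ) ℓ =>
        ∃ L, Wit z.1.1.1.1.1.1.1 z.1.1.1.1.1.1.2 z.1.1.1.2 z.1.1.2 z.1.2 z.2 ℓ L) ?_
      refine SOne.exists (p := fun (z : (((((((ℕ × ℕ) × (ℕ × ℕ)) × ℕ) × ℕ) × ℕ) × ℕ) × List ℕ) ×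
        List ℕ) L => Wit z.1.1.1.1.1.1.1.1 z.1.1.1.1.1.1.1.2 z.1.1.1.1.2 z.1.1.1.2 z.1.1.2 z.1.2
          z.2 L) ?_
      have k1 : Primrec fun z : ((((((((ℕ × ℕ) × (ℕ × ℕ)) × ℕ) × ℕ) × ℕ) × ℕ) × List ℕ) ×
          List ℕ) × List (ℕ × ℕ) => z.1.1.1 := Primrec.fst.comp (Primrec.fst.comp Primrec.fst)
      exact sone_Wit (ha.comp (Primrec.fst.comp k1)) (hb.comp (Primrec.fst.comp k1))
        (hn.comp (Primrec.fst.comp k1)) (hg.comp (Primrec.fst.comp k1)) (Primrec.snd.comp k1)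
        (Primrec.snd.comp (Primrec.fst.comp Primrec.fst)) (Primrec.snd.comp Primrec.fst)
        Primrec.snd
    · refine SOne.exists (p := fun (z : ((((ℕ × ℕ) × (ℕ × ℕ)) × ℕ) × ℕ) × ℕ) L =>
        Few z.1.1.1.2.1 z.1.1.1.2.2 z.1.1.2 z.1.2 z.2 L) ?_
      exact sone_Few (hc.comp Primrec.fst) (hd.comp Primrec.fst) (hN.comp Primrec.fst)
        (hn.comp Primrec.fst) (hg.comp Primrec.fst) Primrec.snd
  · have hN : Primrec fun x : ((ℕ × ℕ) × (ℕ × ℕ)) × ℕ => x.2 := Primrec.snd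
    have ha : Primrec fun x : ((ℕ × ℕ) × (ℕ × ℕ)) × ℕ => 2 * x.1.1.1 + 2 :=
      prim_add (prim_mul (Primrec.const 2) (Primrec.fst.comp (Primrec.fst.comp Primrec.fst)))
        (Primrec.const 2)
    refine (Primrec.succ.comp (prim_mul (prim_mul (Primrec.const 4096) (prim_mul hN hN))
      (prim_mul (prim_mul ha ha) ha))).of_eq fun x => ?_
    show 4096 * (x.2 * x.2) * ((2 * x.1.1.1 + 2) * (2 * x.1.1.1 + 2) * (2 * x.1.1.1 + 2)) + 1 =
      KK x.1.1.1 x.2 + 1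
    rw [KK]
    ring

theorem sone_sd_lt : SOne fun q : (ℕ × ℕ) × (ℕ × ℕ) =>
    sd ((q.1.1 : ℝ) / ((q.1.2 : ℝ) + 1)) < (q.2.1 : ℝ) / ((q.2.2 : ℝ) + 1) :=
  sone_cert.of_eq fun _ => sd_lt_iff.symm

/-! ### The other half -/

theorem prim_pow {f g : α → ℕ} (hf : Primrec f) (hg : Primrec g) :
    Primrec fun x => f x ^ g x := by
  have h : Primrec₂ fun (a : ℕ) (n : ℕ) => a ^ n := by
    refine (Primrec.nat_rec (f := fun _ : ℕ => 1) (g := fun (a : ℕ) (p : ℕ × ℕ) => p.2 * a)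
      (Primrec.const 1) ?_).of_eq ?_
    · exact Primrec.nat_mul.comp (Primrec.snd.comp Primrec.snd) Primrec.fst
    · intro a n
      induction n with
      | zero => rfl
      | succ n ih =>
        show _ * a = _
        rw [ih, pow_succ]
  exact h.comp hf hg

theorem prim_dig {n w i : α → ℕ} (hn : Primrec n) (hw : Primrec w) (hi : Primrec i) :
    Primrec fun x => dig (n x) (w x) (i x) :=
  Primrec.nat_mod.comp (Primrec.nat_div.comp hw (prim_pow (Primrec.succ.comp hn) hi))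
    (Primrec.succ.comp hn)

theorem sone_NBr {n g m w : α → ℕ} (hn : Primrec n) (hg : Primrec g) (hm : Primrec m)
    (hw : Primrec w) : SOne fun x => NBr (n x) (g x) (m x) (w x) := by
  refine SOne.exists (p := fun x v => v < m x ∧ ((∀ y < n x, dig (n x) (w x) y ≠ v + 1) ∨
    ∃ χ : List ℕ, (∃ y, y < n x ∧ dig (n x) (w x) y = v + 1 ∧ χ.getD y 0 = 1) ∧
    (∃ y, y < n x ∧ dig (n x) (w x) y = v + 1 ∧ χ.getD y 0 ≠ 1) ∧
    ∀ y < n x, ∀ z < n x, dig (n x) (w x) y ≠ v + 1 ∨ dig (n x) (w x) z ≠ v + 1 ∨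
      χ.getD y 0 ≠ 1 ∨ χ.getD z 0 = 1 ∨ NBA (n x) (g x) y z)) ?_
  refine (sone_lt Primrec.snd (hm.comp Primrec.fst)).and (SOne.or ?_ ?_)
  · refine SOne.forall_lt (p := fun (x : α × ℕ) y => dig (n x.1) (w x.1) y ≠ x.2 + 1) ?_
      (hn.comp Primrec.fst)
    have h1 : Primrec fun z : (α × ℕ) × ℕ => z.1.1 := Primrec.fst.comp Primrec.fst
    exact sone_ne (prim_dig (hn.comp h1) (hw.comp h1) Primrec.snd)
      (Primrec.succ.comp (Primrec.snd.comp Primrec.fst))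
  · refine SOne.exists (p := fun (x : α × ℕ) (χ : List ℕ) =>
      (∃ y, y < n x.1 ∧ dig (n x.1) (w x.1) y = x.2 + 1 ∧ χ.getD y 0 = 1) ∧
      (∃ y, y < n x.1 ∧ dig (n x.1) (w x.1) y = x.2 + 1 ∧ χ.getD y 0 ≠ 1) ∧
      ∀ y < n x.1, ∀ z < n x.1, dig (n x.1) (w x.1) y ≠ x.2 + 1 ∨
        dig (n x.1) (w x.1) z ≠ x.2 + 1 ∨ χ.getD y 0 ≠ 1 ∨ χ.getD z 0 = 1 ∨
          NBA (n x.1) (g x.1) y z) ?_
    have h1 : Primrec fun z : ((α × ℕ) × List ℕ) × ℕ => z.1.1.1 :=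
      Primrec.fst.comp (Primrec.fst.comp Primrec.fst)
    have h2 : Primrec fun z : ((α × ℕ) × List ℕ) × ℕ => z.1.1.2 :=
      Primrec.snd.comp (Primrec.fst.comp Primrec.fst)
    have h3 : Primrec fun z : ((α × ℕ) × List ℕ) × ℕ => z.1.2 := Primrec.snd.comp Primrec.fst
    have h4 : Primrec fun z : ((α × ℕ) × List ℕ) × ℕ => z.2 := Primrec.snd
    refine SOne.and ?_ (SOne.and ?_ ?_)
    · refine SOne.exists (p := fun (x : (α × ℕ) × List ℕ) y => y < n x.1.1 ∧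
        dig (n x.1.1) (w x.1.1) y = x.1.2 + 1 ∧ x.2.getD y 0 = 1) ?_
      exact (sone_lt h4 (hn.comp h1)).and ((sone_eq (prim_dig (hn.comp h1) (hw.comp h1) h4)
        (Primrec.succ.comp h2)).and (sone_eq (prim_getD h3 h4) (Primrec.const 1)))
    · refine SOne.exists (p := fun (x : (α × ℕ) × List ℕ) y => y < n x.1.1 ∧
        dig (n x.1.1) (w x.1.1) y = x.1.2 + 1 ∧ x.2.getD y 0 ≠ 1) ?_
      exact (sone_lt h4 (hn.comp h1)).and ((sone_eq (prim_dig (hn.comp h1) (hw.comp h1) h4)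
        (Primrec.succ.comp h2)).and (sone_ne (prim_getD h3 h4) (Primrec.const 1)))
    · refine SOne.forall_lt (p := fun (x : (α × ℕ) × List ℕ) y => ∀ z < n x.1.1,
        dig (n x.1.1) (w x.1.1) y ≠ x.1.2 + 1 ∨
        dig (n x.1.1) (w x.1.1) z ≠ x.1.2 + 1 ∨ x.2.getD y 0 ≠ 1 ∨ x.2.getD z 0 = 1 ∨
          NBA (n x.1.1) (g x.1.1) y z) ?_ (hn.comp (Primrec.fst.comp Primrec.fst))
      refine SOne.forall_lt (p := fun (x : ((α × ℕ) × List ℕ) × ℕ) z =>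
        dig (n x.1.1.1) (w x.1.1.1) x.2 ≠ x.1.1.2 + 1 ∨
        dig (n x.1.1.1) (w x.1.1.1) z ≠ x.1.1.2 + 1 ∨ x.1.2.getD x.2 0 ≠ 1 ∨
          x.1.2.getD z 0 = 1 ∨ NBA (n x.1.1.1) (g x.1.1.1) x.2 z) ?_ (hn.comp h1)
      have k1 : Primrec fun z : (((α × ℕ) × List ℕ) × ℕ) × ℕ => z.1.1.1.1 := h1.comp Primrec.fst
      have k2 : Primrec fun z : (((α × ℕ) × List ℕ) × ℕ) × ℕ => z.1.1.1.2 := h2.comp Primrec.fst
      have k3 : Primrec fun z : (((α × ℕ) × List ℕ) × ℕ) × ℕ => z.1.1.2 := h3.comp Primrec.fst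
      have k4 : Primrec fun z : (((α × ℕ) × List ℕ) × ℕ) × ℕ => z.1.2 := h4.comp Primrec.fst
      have k5 : Primrec fun z : (((α × ℕ) × List ℕ) × ℕ) × ℕ => z.2 := Primrec.snd
      exact (sone_ne (prim_dig (hn.comp k1) (hw.comp k1) k4) (Primrec.succ.comp k2)).or
        ((sone_ne (prim_dig (hn.comp k1) (hw.comp k1) k5) (Primrec.succ.comp k2)).or
        ((sone_ne (prim_getD k3 k4) (Primrec.const 1)).or
        ((sone_eq (prim_getD k3 k5) (Primrec.const 1)).or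
        (sone_NBA (hn.comp k1) (hg.comp k1) k4 k5))))

theorem sone_FewM {a b n g m w : α → ℕ} {L : α → List (ℕ × ℕ)} (ha : Primrec a) (hb : Primrec b)
    (hn : Primrec n) (hg : Primrec g) (hm : Primrec m) (hw : Primrec w) (hL : Primrec L) :
    SOne fun x => FewM (a x) (b x) (n x) (g x) (m x) (w x) (L x) := by
  refine SOne.and (p := fun x => ∀ y < n x, ∀ z < n x, dig (n x) (w x) y = 0 ∨
    dig (n x) (w x) z = 0 ∨ m x < dig (n x) (w x) y ∨ m x < dig (n x) (w x) z ∨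
    dig (n x) (w x) y = dig (n x) (w x) z ∨ NBA (n x) (g x) y z ∨
    ∃ k : ℕ, (L x)[k]? = some (dig (n x) (w x) y, dig (n x) (w x) z)) ?_
    (sone_le (prim_mul (Primrec.list_length.comp hL) (Primrec.succ.comp hb))
      (prim_mul (prim_mul (Primrec.const 2) ha) hm))
  refine SOne.forall_lt (p := fun x y => ∀ z < n x, dig (n x) (w x) y = 0 ∨
    dig (n x) (w x) z = 0 ∨ m x < dig (n x) (w x) y ∨ m x < dig (n x) (w x) z ∨
    dig (n x) (w x) y = dig (n x) (w x) z ∨ NBA (n x) (g x) y z ∨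
    ∃ k : ℕ, (L x)[k]? = some (dig (n x) (w x) y, dig (n x) (w x) z)) ?_ hn
  refine SOne.forall_lt (p := fun (u : α × ℕ) z => dig (n u.1) (w u.1) u.2 = 0 ∨
    dig (n u.1) (w u.1) z = 0 ∨ m u.1 < dig (n u.1) (w u.1) u.2 ∨ m u.1 < dig (n u.1) (w u.1) z ∨
    dig (n u.1) (w u.1) u.2 = dig (n u.1) (w u.1) z ∨ NBA (n u.1) (g u.1) u.2 z ∨
    ∃ k : ℕ, (L u.1)[k]? = some (dig (n u.1) (w u.1) u.2, dig (n u.1) (w u.1) z)) ?_
    (hn.comp Primrec.fst)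
  have h1 : Primrec fun z : (α × ℕ) × ℕ => z.1.1 := Primrec.fst.comp Primrec.fst
  have h2 : Primrec fun z : (α × ℕ) × ℕ => z.1.2 := Primrec.snd.comp Primrec.fst
  have h3 : Primrec fun z : (α × ℕ) × ℕ => z.2 := Primrec.snd
  have d1 : Primrec fun z : (α × ℕ) × ℕ => dig (n z.1.1) (w z.1.1) z.1.2 :=
    prim_dig (hn.comp h1) (hw.comp h1) h2
  have d2 : Primrec fun z : (α × ℕ) × ℕ => dig (n z.1.1) (w z.1.1) z.2 :=
    prim_dig (hn.comp h1) (hw.comp h1) h3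
  refine (sone_eq d1 (Primrec.const 0)).or ((sone_eq d2 (Primrec.const 0)).or
    ((sone_lt (hm.comp h1) d1).or ((sone_lt (hm.comp h1) d2).or ((sone_eq d1 d2).or
    ((sone_NBA (hn.comp h1) (hg.comp h1) h2 h3).or ?_)))))
  refine SOne.exists (p := fun (u : (α × ℕ) × ℕ) (k : ℕ) => (L u.1.1)[k]? =
    some (dig (n u.1.1) (w u.1.1) u.1.2, dig (n u.1.1) (w u.1.1) u.2)) ?_
  exact SOne.of_primrecPred (PrimrecRel.comp Primrec.eq
    (Primrec.list_getElem?.comp (hL.comp (h1.comp Primrec.fst)) Primrec.snd)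
    (Primrec.option_some.comp (Primrec.pair (d1.comp Primrec.fst) (d2.comp Primrec.fst))))

theorem sone_Many {c d n g : α → ℕ} {L : α → List (ℕ × ℕ)} (hc : Primrec c) (hd : Primrec d)
    (hn : Primrec n) (hg : Primrec g) (hL : Primrec L) :
    SOne fun x => Many (c x) (d x) (n x) (g x) (L x) := by
  have c1 : SOne fun x => ∀ i < (L x).length, ∀ j < i, (L x)[i]? ≠ (L x)[j]? := by
    refine SOne.forall_lt (p := fun x i => ∀ j < i, (L x)[i]? ≠ (L x)[j]?) ?_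
      (Primrec.list_length.comp hL)
    refine SOne.forall_lt (p := fun (w : α × ℕ) j => (L w.1)[w.2]? ≠ (L w.1)[j]?) ?_ Primrec.snd
    have h1 : Primrec fun z : (α × ℕ) × ℕ => z.1.1 := Primrec.fst.comp Primrec.fst
    have h2 : Primrec fun z : (α × ℕ) × ℕ => z.1.2 := Primrec.snd.comp Primrec.fst
    have h3 : Primrec fun z : (α × ℕ) × ℕ => z.2 := Primrec.snd
    exact SOne.of_primrecPred (PrimrecPred.not (PrimrecRel.comp Primrec.eq
      (Primrec.list_getElem?.comp (hL.comp h1) h2) (Primrec.list_getElem?.comp (hL.comp h1) h3)))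
  have c2 : SOne fun x => ∀ p ∈ L x, p.1 < p.2 ∧ p.2 < n x ∧ BA (n x) (g x) p.1 p.2 := by
    refine SOne.forall_mem_list (p := fun x (p : ℕ × ℕ) => p.1 < p.2 ∧ p.2 < n x ∧
      BA (n x) (g x) p.1 p.2) ?_ hL
    exact (sone_lt (Primrec.fst.comp Primrec.snd) (Primrec.snd.comp Primrec.snd)).and
      ((sone_lt (Primrec.snd.comp Primrec.snd) (hn.comp Primrec.fst)).and
      (sone_BA (hn.comp Primrec.fst) (hg.comp Primrec.fst) (Primrec.fst.comp Primrec.snd)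
        (Primrec.snd.comp Primrec.snd)))
  exact c1.and (c2.and (sone_lt (prim_mul hc hn) (prim_mul (Primrec.list_length.comp hL)
    (Primrec.succ.comp hd))))

theorem sone_lt_sd : SOne fun q : (ℕ × ℕ) × (ℕ × ℕ) =>
    (q.2.1 : ℝ) / ((q.2.2 : ℝ) + 1) < sd ((q.1.1 : ℝ) / ((q.1.2 : ℝ) + 1)) := by
  refine SOne.of_eq ?_ fun q => lt_sd_code.symm
  refine SOne.exists (p := fun (q : (ℕ × ℕ) × (ℕ × ℕ)) n => ∃ g, 1 ≤ n ∧ (∀ m < n + 1,
    ∀ w < (n + 1) ^ n, NBr n g m w ∨ ∃ L, FewM q.1.1 q.1.2 n g m w L) ∧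
    ∃ L, Many q.2.1 q.2.2 n g L) ?_
  refine SOne.exists (p := fun (x : ((ℕ × ℕ) × (ℕ × ℕ)) × ℕ) g => 1 ≤ x.2 ∧ (∀ m < x.2 + 1,
    ∀ w < (x.2 + 1) ^ x.2, NBr x.2 g m w ∨ ∃ L, FewM x.1.1.1 x.1.1.2 x.2 g m w L) ∧
    ∃ L, Many x.1.2.1 x.1.2.2 x.2 g L) ?_
  have hq : Primrec fun z : (((ℕ × ℕ) × (ℕ × ℕ)) × ℕ) × ℕ => z.1.1 :=
    Primrec.fst.comp Primrec.fst
  have ha : Primrec fun z : (((ℕ × ℕ) × (ℕ × ℕ)) × ℕ) × ℕ => z.1.1.1.1 :=
    Primrec.fst.comp (Primrec.fst.comp hq)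
  have hb : Primrec fun z : (((ℕ × ℕ) × (ℕ × ℕ)) × ℕ) × ℕ => z.1.1.1.2 :=
    Primrec.snd.comp (Primrec.fst.comp hq)
  have hc : Primrec fun z : (((ℕ × ℕ) × (ℕ × ℕ)) × ℕ) × ℕ => z.1.1.2.1 :=
    Primrec.fst.comp (Primrec.snd.comp hq)
  have hd : Primrec fun z : (((ℕ × ℕ) × (ℕ × ℕ)) × ℕ) × ℕ => z.1.1.2.2 :=
    Primrec.snd.comp (Primrec.snd.comp hq)
  have hn : Primrec fun z : (((ℕ × ℕ) × (ℕ × ℕ)) × ℕ) × ℕ => z.1.2 := Primrec.snd.comp Primrec.fst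
  have hg : Primrec fun z : (((ℕ × ℕ) × (ℕ × ℕ)) × ℕ) × ℕ => z.2 := Primrec.snd
  refine (sone_le (Primrec.const 1) hn).and (SOne.and ?_ ?_)
  · refine SOne.forall_lt (p := fun (x : (((ℕ × ℕ) × (ℕ × ℕ)) × ℕ) × ℕ) m =>
      ∀ w < (x.1.2 + 1) ^ x.1.2, NBr x.1.2 x.2 m w ∨
        ∃ L, FewM x.1.1.1.1 x.1.1.1.2 x.1.2 x.2 m w L) ?_ (Primrec.succ.comp hn)
    refine SOne.forall_lt (p := fun (x : ((((ℕ × ℕ) × (ℕ × ℕ)) × ℕ) × ℕ) × ℕ) w =>
      NBr x.1.1.2 x.1.2 x.2 w ∨ ∃ L, FewM x.1.1.1.1.1 x.1.1.1.1.2 x.1.1.2 x.1.2 x.2 w L) ?_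
      (prim_pow (Primrec.succ.comp (hn.comp Primrec.fst)) (hn.comp Primrec.fst))
    have h1 : Primrec fun z : (((((ℕ × ℕ) × (ℕ × ℕ)) × ℕ) × ℕ) × ℕ) × ℕ => z.1.1 :=
      Primrec.fst.comp Primrec.fst
    have h2 : Primrec fun z : (((((ℕ × ℕ) × (ℕ × ℕ)) × ℕ) × ℕ) × ℕ) × ℕ => z.1.2 :=
      Primrec.snd.comp Primrec.fst
    refine (sone_NBr (hn.comp h1) (hg.comp h1) h2 Primrec.snd).or ?_
    refine SOne.exists (p := fun (x : (((((ℕ × ℕ) × (ℕ × ℕ)) × ℕ) × ℕ) × ℕ) × ℕ) L =>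
      FewM x.1.1.1.1.1.1 x.1.1.1.1.1.2 x.1.1.1.2 x.1.1.2 x.1.2 x.2 L) ?_
    exact sone_FewM (ha.comp (h1.comp Primrec.fst)) (hb.comp (h1.comp Primrec.fst))
      (hn.comp (h1.comp Primrec.fst)) (hg.comp (h1.comp Primrec.fst)) (h2.comp Primrec.fst)
      (Primrec.snd.comp Primrec.fst) Primrec.snd
  · refine SOne.exists (p := fun (x : (((ℕ × ℕ) × (ℕ × ℕ)) × ℕ) × ℕ) L =>
      Many x.1.1.2.1 x.1.1.2.2 x.1.2 x.2 L) ?_
    exact sone_Many (hc.comp Primrec.fst) (hd.comp Primrec.fst) (hn.comp Primrec.fst)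
      (hg.comp Primrec.fst) Primrec.snd

/-- computable choice of a witness -/
theorem exists_choice {p : α → ℕ → Prop} (hp : SOne fun x : α × ℕ => p x.1 x.2)
    (h : ∀ a, ∃ j, p a j) : ∃ f : α → ℕ, Computable f ∧ ∀ a, p a (f a) := by
  classical
  obtain ⟨R, hR, hpR⟩ := hp
  have hR' : Primrec fun a : (α × ℕ) × ℕ => decide (R a.1 a.2) := by
    obtain ⟨h, h'⟩ := hR
    exact h'.of_eq fun a => decide_eq_decide.2 Iff.rfl
  let D : α → ℕ → Bool := fun a k => decide (R (a, k.unpair.1) k.unpair.2)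
  have hD : Primrec₂ D := hR'.comp (Primrec.pair (Primrec.pair Primrec.fst
    (Primrec.fst.comp (Primrec.unpair.comp Primrec.snd)))
    (Primrec.snd.comp (Primrec.unpair.comp Primrec.snd)))
  have hex : ∀ a, ∃ k, D a k = true := by
    intro a
    obtain ⟨j, hj⟩ := h a
    obtain ⟨l, hl⟩ := (hpR (a, j)).1 hj
    refine ⟨Nat.pair j l, ?_⟩
    show decide _ = true
    rw [Nat.unpair_pair]
    exact decide_eq_true hl
  let g : α → ℕ := fun a => Nat.find (hex a)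
  have hg : Computable g := by
    have h1 : Partrec fun a => Nat.rfind fun k => (Part.some (D a k) : Part Bool) :=
      Partrec.rfind hD.to_comp.partrec₂
    refine h1.of_eq fun a => ?_
    refine Part.eq_some_iff.2 ?_
    refine Nat.mem_rfind.2 ⟨?_, fun {m} hm => ?_⟩
    · exact Part.mem_some_iff.2 (Nat.find_spec (hex a)).symm
    · have h2 := Nat.find_min (hex a) hm
      exact Part.mem_some_iff.2 (by simpa using h2)
  refine ⟨fun a => (g a).unpair.1, Primrec.fst.to_comp.comp (Primrec.unpair.to_comp.comp hg),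
    fun a => ?_⟩
  have h2 : D a (g a) = true := Nat.find_spec (hex a)
  exact (hpR (a, (g a).unpair.1)).2 ⟨(g a).unpair.2, of_decide_eq_true h2⟩

/-- **A computable approximation of the largest limiting density which is at most `ρ`.** -/
theorem exists_approx : ∃ f : (ℕ × ℕ) × ℕ → ℕ, Computable f ∧ ∀ a b N : ℕ,
    |sd ((a : ℝ) / ((b : ℝ) + 1)) - (f ((a, b), N) : ℝ) / ((N : ℝ) + 1)| ≤ 1 / ((N : ℝ) + 1) := by
  obtain ⟨f, hf, hf'⟩ := exists_choice (α := (ℕ × ℕ) × ℕ) (p := fun q j =>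
    sd ((q.1.1 : ℝ) / ((q.1.2 : ℝ) + 1)) < ((j + 1 : ℕ) : ℝ) / ((q.2 : ℝ) + 1) ∧
    (j = 0 ∨ ((j - 1 : ℕ) : ℝ) / ((q.2 : ℝ) + 1) < sd ((q.1.1 : ℝ) / ((q.1.2 : ℝ) + 1)))) (by
      refine SOne.and ?_ (SOne.or ?_ ?_)
      · exact sone_sd_lt.comp (f := fun x : ((ℕ × ℕ) × ℕ) × ℕ => (x.1.1, (x.2 + 1, x.1.2)))
          (Primrec.pair (Primrec.fst.comp Primrec.fst) (Primrec.pair (Primrec.succ.comp Primrec.snd)
            (Primrec.snd.comp Primrec.fst)))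
      · exact sone_eq Primrec.snd (Primrec.const 0)
      · exact sone_lt_sd.comp (f := fun x : ((ℕ × ℕ) × ℕ) × ℕ => (x.1.1, (x.2 - 1, x.1.2)))
          (Primrec.pair (Primrec.fst.comp Primrec.fst) (Primrec.pair
            (Primrec.nat_sub.comp Primrec.snd (Primrec.const 1)) (Primrec.snd.comp Primrec.fst))))
    (by
      rintro ⟨⟨a, b⟩, N⟩
      simp only
      set s := sd ((a : ℝ) / ((b : ℝ) + 1)) with hs
      have hs0 : 0 ≤ s := sd_nonneg (by positivity)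
      have hN : (0 : ℝ) < N + 1 := by positivity
      refine ⟨⌊s * (N + 1)⌋₊, ?_, ?_⟩
      · rw [lt_div_iff₀ hN]
        push_cast
        exact Nat.lt_floor_add_one _
      · rcases Nat.eq_zero_or_pos ⌊s * (N + 1)⌋₊ with h | h
        · exact Or.inl h
        · right
          rw [div_lt_iff₀ hN]
          have h1 : ((⌊s * (N + 1)⌋₊ : ℕ) : ℝ) ≤ s * (N + 1) := Nat.floor_le (by positivity)
          have h2 : ((⌊s * (N + 1)⌋₊ - 1 : ℕ) : ℝ) < ⌊s * (N + 1)⌋₊ := by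
            exact_mod_cast Nat.sub_lt h one_pos
          linarith)
  refine ⟨f, hf, fun a b N => ?_⟩
  obtain ⟨h1, h2⟩ := hf' ((a, b), N)
  simp only at h1 h2
  set s := sd ((a : ℝ) / ((b : ℝ) + 1)) with hs
  have hs0 : 0 ≤ s := sd_nonneg (by positivity)
  have hN : (0 : ℝ) < N + 1 := by positivity
  rw [lt_div_iff₀ hN] at h1
  push_cast at h1
  rw [abs_le]
  constructor
  · rcases h2 with h2 | h2
    · rw [h2]
      have : 0 ≤ 1 / ((N : ℝ) + 1) := by positivity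
      simp only [Nat.cast_zero, zero_div, sub_zero]
      linarith
    · rcases Nat.eq_zero_or_pos (f ((a, b), N)) with h | h
      · rw [h]
        have : 0 ≤ 1 / ((N : ℝ) + 1) := by positivity
        simp only [Nat.cast_zero, zero_div, sub_zero]
        linarith
      · rw [Nat.cast_pred h] at h2
        rw [← sub_nonneg]
        have h3 : s - (f ((a, b), N) : ℝ) / (N + 1) - -(1 / ((N : ℝ) + 1)) =
            s - ((f ((a, b), N) : ℝ) - 1) / (N + 1) := by ring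
        rw [h3]
        linarith
  · have h3 : s ≤ ((f ((a, b), N) : ℝ) + 1) / (N + 1) := by
      rw [le_div_iff₀ hN]; exact h1.le
    have h4 : ((f ((a, b), N) : ℝ) + 1) / (N + 1) = (f ((a, b), N) : ℝ) / (N + 1) + 1 / (N + 1) := by
      ring
    linarith

/-- no limiting density in a closed interval -/
theorem no_den_iff {ρ σ : ℝ} (hρ : 0 ≤ ρ) :
    (∀ x, IsDen x → ¬ (σ ≤ x ∧ x ≤ ρ)) ↔ sd ρ < σ := by
  have h := isGreatest_sd hρ
  constructor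
  · intro h1
    by_contra hn
    push Not at hn
    exact h1 _ h.1.1 ⟨hn, h.1.2⟩
  · rintro h1 x hx ⟨h2, h3⟩
    have := h.2 ⟨hx, h3⟩
    linarith

/-- **The rational closed intervals without limiting densities are recursively enumerable.** -/
theorem rePred_interval : REPred fun q : (ℕ × ℕ) × (ℕ × ℕ) => ∀ x, IsDen x →
    ¬ ((q.2.1 : ℝ) / ((q.2.2 : ℝ) + 1) ≤ x ∧ x ≤ (q.1.1 : ℝ) / ((q.1.2 : ℝ) + 1)) :=
  (sone_sd_lt.of_eq fun _ => (no_den_iff (by positivity)).symm).rePred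

/-- **The set of limiting densities is co-recursively enumerable.** -/
theorem rePred_not_isDen : REPred fun p : ℕ × ℕ => ¬ IsDen ((p.1 : ℝ) / ((p.2 : ℝ) + 1)) := by
  refine ((sone_sd_lt.comp (f := fun p : ℕ × ℕ => (p, p)) (Primrec.pair Primrec.id
    Primrec.id)).of_eq fun p => ?_).rePred
  rw [← no_den_iff (by positivity)]
  constructor
  · intro h h1
    exact h _ h1 ⟨le_rfl, le_rfl⟩
  · rintro h x hx ⟨h1, h2⟩
    have : x = (p.1 : ℝ) / ((p.2 : ℝ) + 1) := le_antisymm h2 h1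
    rw [this] at hx
    exact h hx

end Pool.Agent.Work.MP_216d61_lc
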