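import Pool.Agent.Work.MP_216d61_lc.Fans

/-!
# Counting edges in fans and in graphs with a partition into a root part and many other parts
-/

set_option autoImplicit false

namespace Pool.Agent.Work.MP_216d61_lc

open Set

open Classical in
/-- The number of ordered adjacent pairs which one copy contributes to a fan. -/
noncomputable def tau2 {R C : Type*} [Fintype R] [Fintype C] (H : SimpleGraph C)
    (A : R → C → Prop) : ℕ :=
  e2 H + 2 * (Finset.univ.filter fun p : R × C => A p.1 p.2).card

open Classical in
theorem e2_eq_sum {V : Type*} [Fintype V] (G : SimpleGraph V) :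
    e2 G = ∑ x, ∑ y, if G.Adj x y then 1 else 0 := by
  rw [e2, Finset.card_filter, Fintype.sum_prod_type]

theorem e2_fan {R C I : Type*} [Fintype R] [Fintype C] [Fintype I] (H : SimpleGraph C)
    (A : R → C → Prop) : e2 (Fan H A I) = Fintype.card I * tau2 H A := by
  classical
  rw [e2_eq_sum, tau2, e2_eq_sum, Finset.card_filter, Fintype.sum_prod_type]
  simp only [Fintype.sum_sum_type, Fintype.sum_prod_type, fan_ll, fan_lr, fan_rl, fan_rr,
    if_false, Finset.sum_const_zero, zero_add, Finset.sum_const, Finset.card_univ, smul_eq_mul,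
    Finset.sum_add_distrib]
  have h1 : ∑ x : I, ∑ y : C, ∑ z : I, ∑ w : C, (if x = z ∧ H.Adj y w then 1 else 0) =
      Fintype.card I * ∑ y : C, ∑ w : C, if H.Adj y w then 1 else 0 := by
    have h2 : ∀ (x : I) (y : C), ∑ z : I, ∑ w : C, (if x = z ∧ H.Adj y w then 1 else 0) =
        ∑ w : C, if H.Adj y w then 1 else 0 := by
      intro x y
      rw [Finset.sum_eq_single x]
      · simp
      · intro z _ hz
        exact Finset.sum_eq_zero fun w _ => if_neg fun h => hz h.1.symm
      · intro h
        exact absurd (Finset.mem_univ x) h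
    simp only [h2, Finset.sum_const, Finset.card_univ, smul_eq_mul]
  have h3 : ∑ _ : I, ∑ y : C, ∑ a : R, (if A a y then 1 else 0) =
      Fintype.card I * ∑ a : R, ∑ y : C, if A a y then 1 else 0 := by
    rw [Finset.sum_const, Finset.card_univ, smul_eq_mul, Finset.sum_comm]
  rw [h1, ← Finset.mul_sum]
  linarith [h3]

section col

variable {W I : Type*} [Fintype W] [Fintype I] (K : SimpleGraph W) (col : W → Option I)

theorem card_col : (∑ i : I, Nat.card {w // col w = some i}) + Nat.card {w // col w = none} =
    Nat.card W := by
  classical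
  have h1 : Nat.card W = ∑ o : Option I, Nat.card {w // col w = o} := by
    rw [← Nat.card_congr (Equiv.sigmaFiberEquiv col), Nat.card_sigma]
  rw [h1, Fintype.sum_option, add_comm]

theorem e2_le_col [∀ i, Fintype {w // col w = some i}] [Fintype {w // col w = none}]
    (h : ∀ w w', K.Adj w w' → ∀ i j, col w = some i → col w' = some j → i = j) :
    e2 K + Nat.card {w // col w = none} ≤
      Nat.card {w // col w = none} * Nat.card {w // col w = none} +
      ∑ i : I, tau2 (K.comap (fun w : {w // col w = some i} => (w : W)))
        (fun (a : {w // col w = none}) (c : {w // col w = some i}) => K.Adj a c) := by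
  classical
  set S : Finset (W × W) := Finset.univ.filter fun p => K.Adj p.1 p.2 with hS
  set S0 : Finset (W × W) := (Finset.univ.filter fun w => col w = none).offDiag with hS0
  set S' : I → Finset (W × W) := fun i => S.filter fun p => col p.1 = some i ∨ col p.2 = some i
    with hS'
  have hsub : S ⊆ S0 ∪ Finset.univ.biUnion S' := by
    rintro ⟨x, y⟩ hp
    have hadj : K.Adj x y := (Finset.mem_filter.1 hp).2
    rcases hx : col x with _ | i
    · rcases hy : col y with _ | j
      · refine Finset.mem_union_left _ (Finset.mem_offDiag.2 ⟨?_, ?_, ?_⟩)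
        · simpa using hx
        · simpa using hy
        · exact hadj.ne
      · refine Finset.mem_union_right _ (Finset.mem_biUnion.2 ⟨j, Finset.mem_univ _, ?_⟩)
        exact Finset.mem_filter.2 ⟨hp, Or.inr hy⟩
    · refine Finset.mem_union_right _ (Finset.mem_biUnion.2 ⟨i, Finset.mem_univ _, ?_⟩)
      exact Finset.mem_filter.2 ⟨hp, Or.inl hx⟩
  have h0 : S0.card + Nat.card {w // col w = none} =
      Nat.card {w // col w = none} * Nat.card {w // col w = none} := by
    have hc : Nat.card {w // col w = none} = (Finset.univ.filter fun w => col w = none).card :=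
      Nat.subtype_card _ (by simp)
    rw [hS0, Finset.offDiag_card, hc]
    exact Nat.sub_add_cancel (Nat.le_mul_self _)
  have hi : ∀ i, (S' i).card ≤ tau2 (K.comap (fun w : {w // col w = some i} => (w : W)))
        (fun (a : {w // col w = none}) (c : {w // col w = some i}) => K.Adj a c) := by
    intro i
    set T1 : Finset ({w // col w = some i} × {w // col w = some i}) :=
      Finset.univ.filter fun p => K.Adj p.1 p.2 with hT1
    set T2 : Finset ({w // col w = none} × {w // col w = some i}) :=
      Finset.univ.filter fun p => K.Adj p.1 p.2 with hT2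
    have hsub' : S' i ⊆ (T1.image fun p => ((p.1 : W), (p.2 : W))) ∪
        ((T2.image fun p => ((p.1 : W), (p.2 : W))) ∪ (T2.image fun p => ((p.2 : W), (p.1 : W)))) := by
      rintro ⟨x, y⟩ hp
      rw [hS', Finset.mem_filter, hS, Finset.mem_filter] at hp
      obtain ⟨⟨_, hadj⟩, hor⟩ := hp
      simp only at hadj hor
      have hmem1 : ∀ x y, K.Adj x y → ∀ (hx : col x = some i) (hy : col y = some i),
          (x, y) ∈ (T1.image fun p => ((p.1 : W), (p.2 : W))) := by
        intro x y hadj hx hy
        exact Finset.mem_image.2 ⟨(⟨x, hx⟩, ⟨y, hy⟩), Finset.mem_filter.2 ⟨Finset.mem_univ _, hadj⟩,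
          rfl⟩
      rcases hx : col x with _ | j
      · rcases hy : col y with _ | j'
        · rw [hx, hy] at hor
          simp at hor
        · have : j' = i := by
            rw [hx, hy] at hor
            simpa using hor
          subst this
          refine Finset.mem_union_right _ (Finset.mem_union_left _ (Finset.mem_image.2 ?_))
          exact ⟨(⟨x, hx⟩, ⟨y, hy⟩), Finset.mem_filter.2 ⟨Finset.mem_univ _, hadj⟩, rfl⟩
      · rcases hy : col y with _ | j'
        · have : j = i := by
            rw [hx, hy] at hor
            simpa using hor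
          subst this
          refine Finset.mem_union_right _ (Finset.mem_union_right _ (Finset.mem_image.2 ?_))
          exact ⟨(⟨y, hy⟩, ⟨x, hx⟩), Finset.mem_filter.2 ⟨Finset.mem_univ _, hadj.symm⟩, rfl⟩
        · have h1 := h x y hadj j j' hx hy
          subst h1
          have : j = i := by
            rw [hx, hy] at hor
            simpa using hor
          subst this
          exact Finset.mem_union_left _ (hmem1 x y hadj hx hy)
    refine (Finset.card_le_card hsub').trans ?_
    refine (Finset.card_union_le _ _).trans ?_
    have h1 : (T1.image fun p => ((p.1 : W), (p.2 : W))).card ≤ T1.card := Finset.card_image_le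
    have h2 : (T2.image fun p => ((p.1 : W), (p.2 : W))).card ≤ T2.card := Finset.card_image_le
    have h3 : (T2.image fun p => ((p.2 : W), (p.1 : W))).card ≤ T2.card := Finset.card_image_le
    have h4 := Finset.card_union_le (T2.image fun p => ((p.1 : W), (p.2 : W)))
      (T2.image fun p => ((p.2 : W), (p.1 : W)))
    have h5 : tau2 (K.comap (fun w : {w // col w = some i} => (w : W)))
        (fun (a : {w // col w = none}) (c : {w // col w = some i}) => K.Adj a c) =
        T1.card + 2 * T2.card := rfl
    omega
  have h1 : e2 K ≤ S0.card + ∑ i : I, (S' i).card := by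
    calc e2 K = S.card := rfl
      _ ≤ (S0 ∪ Finset.univ.biUnion S').card := Finset.card_le_card hsub
      _ ≤ S0.card + (Finset.univ.biUnion S').card := Finset.card_union_le _ _
      _ ≤ S0.card + ∑ i : I, (S' i).card := Nat.add_le_add_left Finset.card_biUnion_le _
  have h2 : ∑ i : I, (S' i).card ≤ ∑ i : I, tau2 (K.comap (fun w : {w // col w = some i} => (w : W)))
        (fun (a : {w // col w = none}) (c : {w // col w = some i}) => K.Adj a c) :=
    Finset.sum_le_sum fun i _ => hi i
  omega

/-- The bound which is used for minors of fans. -/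
theorem e2_le_of_types [∀ i, Fintype {w // col w = some i}] [Fintype {w // col w = none}] {θ : ℝ}
    (h : ∀ w w', K.Adj w w' → ∀ i j, col w = some i → col w' = some j → i = j)
    (hr : Nat.card {w // col w = none} = 0 ∨ (Nat.card {w // col w = none} : ℝ) - 1 ≤ 2 * θ)
    (hi : ∀ i, (tau2 (K.comap (fun w : {w // col w = some i} => (w : W)))
        (fun (a : {w // col w = none}) (c : {w // col w = some i}) => K.Adj a c) : ℝ) ≤
      2 * θ * Nat.card {w // col w = some i}) :
    (e2 K : ℝ) ≤ 2 * θ * Nat.card W := by
  have h1 := e2_le_col K col h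
  have h2 := card_col col
  set r : ℕ := Nat.card {w // col w = none} with hrdef
  have h1' : (e2 K : ℝ) + r ≤ r * r + ∑ i : I, (tau2 (K.comap
      (fun w : {w // col w = some i} => (w : W)))
        (fun (a : {w // col w = none}) (c : {w // col w = some i}) => K.Adj a c) : ℝ) := by
    exact_mod_cast h1
  have h3 : ∑ i : I, (tau2 (K.comap (fun w : {w // col w = some i} => (w : W)))
        (fun (a : {w // col w = none}) (c : {w // col w = some i}) => K.Adj a c) : ℝ) ≤
      ∑ i : I, 2 * θ * (Nat.card {w // col w = some i} : ℝ) := Finset.sum_le_sum fun i _ => hi i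
  rw [← Finset.mul_sum] at h3
  have h2' : (∑ i : I, (Nat.card {w // col w = some i} : ℝ)) + r = Nat.card W := by
    exact_mod_cast h2
  have h4 : (r : ℝ) * r - r ≤ 2 * θ * r := by
    rcases hr with hr | hr
    · rw [hr]; simp
    · have h0 : (0 : ℝ) ≤ r := Nat.cast_nonneg _
      have := mul_le_mul_of_nonneg_right hr h0
      linarith
  rw [← h2', mul_add]
  linarith

end col

section tau

variable {R C R' C' : Type*} [Fintype R] [Fintype C] [Fintype R'] [Fintype C']
  {H : SimpleGraph C} {A : R → C → Prop} {H' : SimpleGraph C'} {A' : R' → C' → Prop}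

theorem tau2_le_of_inj (φ : C' → C) (ψ : R' → R) (hφ : Function.Injective φ)
    (hψ : Function.Injective ψ) (hH : ∀ c d, H'.Adj c d → H.Adj (φ c) (φ d))
    (hA : ∀ a c, A' a c → A (ψ a) (φ c)) : tau2 H' A' ≤ tau2 H A := by
  classical
  rw [tau2, tau2]
  refine Nat.add_le_add (e2_le_of_inj φ hφ hH) (Nat.mul_le_mul_left _ ?_)
  refine Finset.card_le_card_of_injOn (fun p => (ψ p.1, φ p.2)) ?_ ?_
  · intro p hp
    simp only [Finset.coe_filter, Finset.mem_univ, true_and, mem_ofPred_eq] at hp ⊢
    exact hA _ _ hp
  · intro p _ q _ hpq
    simp only [Prod.mk.injEq] at hpq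
    exact Prod.ext (hψ hpq.1) (hφ hpq.2)

end tau

end Pool.Agent.Work.MP_216d61_lc
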