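import Pool.Agent.Work.MP_216d61_lc.Sep

/-!
# Decomposition of graphs without `K_t` minor into small pieces of small total size
-/

namespace Pool.Agent.Work.MP_216d61_lc

open Finset Relation Pool.Agent.Work.MP_09dd0a_co
open scoped Classical

variable {V : Type*} {t : ℕ} {adj : V → V → Prop}

/-- `Q` is a family of subsets of `U` of size at most `k` which covers the vertices and the edges. -/
structure Cover (adj : V → V → Prop) (U : Finset V) (k : ℕ) (Q : Finset (Finset V)) : Prop where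
  sub : ∀ P ∈ Q, P ⊆ U
  small : ∀ P ∈ Q, P.card ≤ k
  vert : ∀ x ∈ U, ∃ P ∈ Q, x ∈ P
  edge : ∀ x ∈ U, ∀ y ∈ U, adj x y → ∃ P ∈ Q, x ∈ P ∧ y ∈ P

theorem Cover.union {U U1 U2 : Finset V} {k : ℕ} {Q1 Q2 : Finset (Finset V)}
    (h1 : Cover adj U1 k Q1) (h2 : Cover adj U2 k Q2) (hU1 : U1 ⊆ U) (hU2 : U2 ⊆ U)
    (hv : ∀ x ∈ U, x ∈ U1 ∨ x ∈ U2)
    (he : ∀ x ∈ U, ∀ y ∈ U, adj x y → (x ∈ U1 ∧ y ∈ U1) ∨ (x ∈ U2 ∧ y ∈ U2)) :
    Cover adj U k (Q1 ∪ Q2) := by
  refine ⟨?_, ?_, ?_, ?_⟩
  · intro P hP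
    rcases mem_union.1 hP with hP | hP
    · exact (h1.sub P hP).trans hU1
    · exact (h2.sub P hP).trans hU2
  · intro P hP
    rcases mem_union.1 hP with hP | hP
    · exact h1.small P hP
    · exact h2.small P hP
  · intro x hx
    rcases hv x hx with hx | hx
    · obtain ⟨P, hP, hxP⟩ := h1.vert x hx
      exact ⟨P, mem_union_left _ hP, hxP⟩
    · obtain ⟨P, hP, hxP⟩ := h2.vert x hx
      exact ⟨P, mem_union_right _ hP, hxP⟩
  · intro x hx y hy hxy
    rcases he x hx y hy hxy with ⟨hx, hy⟩ | ⟨hx, hy⟩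
    · obtain ⟨P, hP, hxP⟩ := h1.edge x hx y hy hxy
      exact ⟨P, mem_union_left _ hP, hxP⟩
    · obtain ⟨P, hP, hxP⟩ := h2.edge x hx y hy hxy
      exact ⟨P, mem_union_right _ hP, hxP⟩

theorem Cover.self (U : Finset V) {k : ℕ} (h : U.card ≤ k) : Cover adj U k {U} := by
  refine ⟨?_, ?_, ?_, ?_⟩
  · intro P hP; rw [mem_singleton.1 hP]
  · intro P hP; rw [mem_singleton.1 hP]; exact h
  · intro x hx; exact ⟨U, mem_singleton_self _, hx⟩
  · intro x hx y hy _; exact ⟨U, mem_singleton_self _, hx, hy⟩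

theorem decomp_aux (hadj : ∀ x y, adj x y → adj y x) (hK : KFree t adj) (ht : 1 ≤ t)
    (k : ℕ) (b : ℝ) (hb : b = 2 * t * √t) (hk : (16 * b) ^ 2 ≤ k) :
    ∀ (n : ℕ) (U : Finset V), U.card = n → k ≤ 4 * n →
      ∃ Q : Finset (Finset V), Cover adj U k Q ∧
        ((∑ P ∈ Q, P.card : ℕ) : ℝ) ≤ n + 16 * b * n / √k - 8 * b * √n := by
  have ht1 : (1 : ℝ) ≤ t := by exact_mod_cast ht
  have hst : 1 ≤ √(t : ℝ) := by rw [Real.one_le_sqrt]; exact ht1
  have hb2 : 2 ≤ b := by rw [hb]; nlinarith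
  have hk0 : (0 : ℝ) < k := lt_of_lt_of_le (by positivity) hk
  have hsk : 16 * b ≤ √k := by
    rw [← Real.sqrt_sq (by positivity : (0 : ℝ) ≤ 16 * b)]
    exact Real.sqrt_le_sqrt hk
  have hskp : 0 < √(k : ℝ) := Real.sqrt_pos.2 hk0
  intro n
  induction n using Nat.strong_induction_on with
  | _ n ih =>
  intro U hU hkn
  have hn0 : 0 < n := by
    rcases Nat.eq_zero_or_pos n with h | h
    · subst h
      have : (0 : ℝ) < k := hk0
      have : 0 < k := by exact_mod_cast this
      omega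
    · exact h
  have hn0' : (0 : ℝ) < n := by exact_mod_cast hn0
  have hsn : 0 < √(n : ℝ) := Real.sqrt_pos.2 hn0'
  have hsn2 : √(n : ℝ) * √n = n := Real.mul_self_sqrt hn0'.le
  rcases le_or_gt n k with hle | hlt
  · -- a single piece
    refine ⟨{U}, Cover.self U (by omega), ?_⟩
    rw [sum_singleton, hU]
    have h1 : √(k : ℝ) ≤ 2 * √n := by
      rw [show (2 : ℝ) * √n = √(4 * n) by
        rw [Real.sqrt_mul (by norm_num), show (4 : ℝ) = 2 ^ 2 by norm_num,
          Real.sqrt_sq (by norm_num)]]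
      apply Real.sqrt_le_sqrt
      exact_mod_cast hkn
    have h2 : 8 * b * √n ≤ 16 * b * n / √k := by
      rw [le_div_iff₀ hskp]
      calc 8 * b * √n * √k ≤ 8 * b * √n * (2 * √n) :=
            mul_le_mul_of_nonneg_left h1 (by positivity)
        _ = 16 * b * (√n * √n) := by ring
        _ = 16 * b * n := by rw [hsn2]
    linarith
  · -- splitting
    have hkn' : (k : ℝ) < n := by exact_mod_cast hlt
    have hsnb : 16 * b ≤ √n := hsk.trans (Real.sqrt_le_sqrt hkn'.le)
    set r : ℕ := Nat.sqrt (t * n) + 1 with hr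
    have hr2 : t * U.card ≤ r * r := by
      rw [hU]; exact (Nat.lt_succ_sqrt (t * n)).le
    have hrr : (t : ℝ) * r ≤ b * √n := by
      have h1 : ((Nat.sqrt (t * n) : ℕ) : ℝ) ≤ √(t * n : ℝ) := by
        apply Real.le_sqrt_of_sq_le
        have := Nat.sqrt_le' (t * n)
        exact_mod_cast this
      have h2 : 1 ≤ √(t * n : ℝ) := by
        rw [Real.one_le_sqrt]
        have : (1 : ℝ) ≤ n := by exact_mod_cast hn0
        nlinarith
      have h3 : √(t * n : ℝ) = √t * √n := Real.sqrt_mul (by positivity) _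
      have h4 : (r : ℝ) ≤ 2 * √(t * n : ℝ) := by
        rw [hr]; push_cast; linarith
      calc (t : ℝ) * r ≤ t * (2 * √(t * n : ℝ)) := mul_le_mul_of_nonneg_left h4 (by positivity)
        _ = b * √n := by rw [h3, hb]; ring
    have hZn : ∀ Z : Finset V, Z.card ≤ t * r → 16 * (Z.card : ℝ) ≤ n := by
      intro Z hZ
      have h1 : (Z.card : ℝ) ≤ t * r := by exact_mod_cast hZ
      have h2 : 16 * (b * √n) ≤ √n * √n := by
        have := mul_le_mul_of_nonneg_right hsnb hsn.le
        linarith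
      linarith
    obtain ⟨Z, hZU, hZr, P, hPU, hP1, hP2, hPe⟩ := split (w := fun _ => (1 : ℝ)) hadj hK
      (fun _ => zero_le_one) (r := r) (by omega) hr2 (by
        intro Z _ hZr
        have := hZn Z hZr
        simp only [sum_const, nsmul_eq_mul, mul_one, hU]
        have h0 : (0 : ℝ) ≤ Z.card := Nat.cast_nonneg _
        linarith)
    simp only [sum_const, nsmul_eq_mul, mul_one, hU] at hP1 hP2
    have hZc := hZn Z hZr
    have hZb : (Z.card : ℝ) ≤ b * √n := by
      have h1 : (Z.card : ℝ) ≤ t * r := by exact_mod_cast hZr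
      linarith
    have hPc : ((U \ P).card : ℝ) + P.card = n := by
      have := card_sdiff_add_card_eq_card hPU
      rw [hU] at this
      exact_mod_cast this
    set U1 := P ∪ Z with hU1
    set U2 := (U \ P) ∪ Z with hU2
    have hU1s : U1 ⊆ U := union_subset hPU hZU
    have hU2s : U2 ⊆ U := union_subset sdiff_subset hZU
    have hsum : (U1.card : ℝ) + U2.card = n + Z.card := by
      have h1 : U1.card = P.card + (Z \ P).card := by
        rw [hU1, ← union_sdiff_self_eq_union, card_union_of_disjoint disjoint_sdiff]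
      have h2 : U2.card = (U \ P).card + (Z ∩ P).card := by
        have h3 : U2 = (U \ P) ∪ (Z ∩ P) := by
          ext x
          simp only [hU2, mem_union, mem_sdiff, mem_inter]
          constructor
          · rintro (h | h)
            · exact Or.inl h
            · by_cases hx : x ∈ P
              · exact Or.inr ⟨h, hx⟩
              · exact Or.inl ⟨hZU h, hx⟩
          · rintro (h | h)
            · exact Or.inl h
            · exact Or.inr h.1
        rw [h3, card_union_of_disjoint]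
        rw [disjoint_left]
        intro x hx hx2
        exact (mem_sdiff.1 hx).2 (mem_inter.1 hx2).2
      have h4 : (Z \ P).card + (Z ∩ P).card = Z.card := card_sdiff_add_card_inter Z P
      rw [h1, h2]
      push_cast
      have h4' : ((Z \ P).card : ℝ) + (Z ∩ P).card = Z.card := by exact_mod_cast h4
      linarith
    have hc1 : (n : ℝ) ≤ 3 * U1.card := by
      have h1 : (P.card : ℝ) ≤ U1.card := by exact_mod_cast card_le_card subset_union_left
      linarith
    have hc2 : (n : ℝ) ≤ 3 * U2.card := by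
      have h1 : ((U \ P).card : ℝ) ≤ U2.card := by exact_mod_cast card_le_card subset_union_left
      linarith
    have hl1 : U1.card < n := by
      have h1 : (U1.card : ℝ) ≤ P.card + Z.card := by exact_mod_cast card_union_le _ _
      have h2 : (U1.card : ℝ) < n := by linarith
      exact_mod_cast h2
    have hl2 : U2.card < n := by
      have h1 : (U2.card : ℝ) ≤ (U \ P).card + Z.card := by exact_mod_cast card_union_le _ _
      have h2 : (U2.card : ℝ) < n := by linarith
      exact_mod_cast h2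
    have hk1 : k ≤ 4 * U1.card := by
      have h1 : (k : ℝ) ≤ 4 * U1.card := by linarith
      exact_mod_cast h1
    have hk2 : k ≤ 4 * U2.card := by
      have h1 : (k : ℝ) ≤ 4 * U2.card := by linarith
      exact_mod_cast h1
    obtain ⟨Q1, hQ1, hs1⟩ := ih U1.card hl1 U1 rfl hk1
    obtain ⟨Q2, hQ2, hs2⟩ := ih U2.card hl2 U2 rfl hk2
    refine ⟨Q1 ∪ Q2, hQ1.union hQ2 hU1s hU2s ?_ ?_, ?_⟩
    · intro x hx
      by_cases hxP : x ∈ P
      · exact Or.inl (mem_union_left _ hxP)
      · exact Or.inr (mem_union_left _ (mem_sdiff.2 ⟨hx, hxP⟩))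
    · intro x hx y hy hxy
      by_cases hxP : x ∈ P
      · by_cases hyP : y ∈ P
        · exact Or.inl ⟨mem_union_left _ hxP, mem_union_left _ hyP⟩
        · have hy' := mem_sdiff.2 ⟨hy, hyP⟩
          rcases hPe x hxP y hy' hxy with h | h
          · exact Or.inr ⟨mem_union_right _ h, mem_union_left _ hy'⟩
          · exact Or.inl ⟨mem_union_left _ hxP, mem_union_right _ h⟩
      · have hx' := mem_sdiff.2 ⟨hx, hxP⟩
        by_cases hyP : y ∈ P
        · rcases hPe y hyP x hx' (hadj _ _ hxy) with h | h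
          · exact Or.inr ⟨mem_union_left _ hx', mem_union_right _ h⟩
          · exact Or.inl ⟨mem_union_right _ h, mem_union_left _ hyP⟩
        · exact Or.inr ⟨mem_union_left _ hx', mem_union_left _ (mem_sdiff.2 ⟨hy, hyP⟩)⟩
    · have h1 : ((∑ P ∈ Q1 ∪ Q2, P.card : ℕ) : ℝ) ≤ (∑ P ∈ Q1, P.card : ℕ) + (∑ P ∈ Q2, P.card : ℕ) := by
        have h2 : ∑ P ∈ Q1 ∪ Q2, P.card ≤ ∑ P ∈ Q1, P.card + ∑ P ∈ Q2, P.card := by
          have h3 := sum_union_inter (s₁ := Q1) (s₂ := Q2) (f := fun P : Finset V => P.card)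
          omega
        exact_mod_cast h2
      set u1 : ℝ := (U1.card : ℝ) with hu1
      set u2 : ℝ := (U2.card : ℝ) with hu2
      have hu1p : 0 < u1 := by linarith
      have hu2p : 0 < u2 := by linarith
      -- the square roots
      have hsq : 5 * √n ≤ 4 * (√u1 + √u2) := by
        have h2 : √n * √n ≤ 3 * (√u1 * √u2) := by
          have h3 : √(n / 3 : ℝ) ≤ √u1 := Real.sqrt_le_sqrt (by linarith)
          have h4 : √(n / 3 : ℝ) ≤ √u2 := Real.sqrt_le_sqrt (by linarith)
          have h5 : √(n / 3 : ℝ) * √(n / 3 : ℝ) = n / 3 := Real.mul_self_sqrt (by positivity)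
          have h6 : √(n / 3 : ℝ) * √(n / 3 : ℝ) ≤ √u1 * √u2 :=
            mul_le_mul h3 h4 (Real.sqrt_nonneg _) (Real.sqrt_nonneg _)
          rw [hsn2]
          linarith
        have h3 : √u1 * √u1 = u1 := Real.mul_self_sqrt hu1p.le
        have h4 : √u2 * √u2 = u2 := Real.mul_self_sqrt hu2p.le
        have h5 : (0 : ℝ) ≤ Z.card := Nat.cast_nonneg _
        have h6 : 0 ≤ √u1 := Real.sqrt_nonneg _
        have h7 : 0 ≤ √u2 := Real.sqrt_nonneg _
        apply le_of_sq_le_sq _ (by positivity)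
        nlinarith
      have hzz : (1 + 16 * b / √k) ≤ 2 := by
        have : 16 * b / √k ≤ 1 := by rw [div_le_one hskp]; exact hsk
        linarith
      have h3 : u1 + 16 * b * u1 / √k + (u2 + 16 * b * u2 / √k) =
          (n + Z.card) * (1 + 16 * b / √k) := by
        rw [← hsum]; ring
      have h4 : (Z.card : ℝ) * (1 + 16 * b / √k) ≤ 2 * (b * √n) := by
        have h0 : (0 : ℝ) ≤ Z.card := Nat.cast_nonneg _
        calc (Z.card : ℝ) * (1 + 16 * b / √k) ≤ Z.card * 2 := mul_le_mul_of_nonneg_left hzz h0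
          _ ≤ 2 * (b * √n) := by linarith
      have h5 : 8 * b * (√u1 + √u2) ≥ 10 * b * √n := by
        have := mul_le_mul_of_nonneg_left hsq (by positivity : 0 ≤ 2 * b)
        linarith
      have h6 : (n : ℝ) * (1 + 16 * b / √k) = n + 16 * b * n / √k := by ring
      have h7 : ((n : ℝ) + Z.card) * (1 + 16 * b / √k) =
          n * (1 + 16 * b / √k) + Z.card * (1 + 16 * b / √k) := by ring
      have h8 : 8 * b * (√u1 + √u2) = 8 * b * √u1 + 8 * b * √u2 := by ring
      have h9 : 2 * (b * √n) = 2 * b * √(n : ℝ) := by ring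
      have h10 : 0 ≤ b * √(n : ℝ) := by positivity
      have hs1' : ((∑ P ∈ Q1, P.card : ℕ) : ℝ) ≤ u1 + 16 * b * u1 / √k - 8 * b * √u1 := hs1
      have hs2' : ((∑ P ∈ Q2, P.card : ℕ) : ℝ) ≤ u2 + 16 * b * u2 / √k - 8 * b * √u2 := hs2
      linarith

/-- **Decomposition theorem.** -/
theorem decomp (hadj : ∀ x y, adj x y → adj y x) (hK : KFree t adj) (ht : 1 ≤ t) (N : ℕ)
    (hN : 1 ≤ N) (k : ℕ) (hk : 4096 * N ^ 2 * t ^ 3 ≤ k) (U : Finset V) :
    ∃ Q : Finset (Finset V), Cover adj U k Q ∧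
      2 * N * ∑ P ∈ Q, P.card ≤ (2 * N + 1) * U.card := by
  have ht1 : (1 : ℝ) ≤ t := by exact_mod_cast ht
  have hN1 : (1 : ℝ) ≤ N := by exact_mod_cast hN
  have hst : √(t : ℝ) * √t = t := Real.mul_self_sqrt (by positivity)
  have hk' : (64 * N * (t * √t) : ℝ) ^ 2 ≤ k := by
    have h1 : (64 * N * (t * √t) : ℝ) ^ 2 = 4096 * N ^ 2 * t ^ 3 := by
      have : (64 * N * (t * √t) : ℝ) ^ 2 = 4096 * N ^ 2 * t ^ 2 * (√t * √t) := by ring
      rw [this, hst]; ring
    rw [h1]
    exact_mod_cast hk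
  have hsp : 0 < √(t : ℝ) := Real.sqrt_pos.2 (by positivity)
  have hsk : 64 * N * (t * √t) ≤ √(k : ℝ) := by
    rw [← Real.sqrt_sq (by positivity : (0 : ℝ) ≤ 64 * N * (t * √t))]
    exact Real.sqrt_le_sqrt hk'
  have hskp : 0 < √(k : ℝ) := lt_of_lt_of_le (by positivity) hsk
  rcases le_or_gt U.card k with hle | hlt
  · refine ⟨{U}, Cover.self U hle, ?_⟩
    rw [sum_singleton]
    exact Nat.mul_le_mul_right _ (by omega)
  · obtain ⟨Q, hQ, hs⟩ := decomp_aux hadj hK ht k (2 * t * √t) rfl (by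
      refine le_trans ?_ hk'
      have h1 : (0 : ℝ) ≤ t * √t := by positivity
      have h2 : 16 * (2 * t * √t) ≤ 64 * N * (t * √t) := by nlinarith
      exact pow_le_pow_left₀ (by positivity) h2 2) U.card U rfl (by omega)
    refine ⟨Q, hQ, ?_⟩
    have h0 : (0 : ℝ) ≤ U.card := Nat.cast_nonneg _
    have h1 : 2 * N * (16 * (2 * t * √t) * U.card / √k) ≤ (U.card : ℝ) := by
      have h2 : 2 * N * (16 * (2 * t * √t) * U.card / √k) =
          (64 * N * (t * √t)) * U.card / √k := by ring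
      rw [h2, div_le_iff₀ hskp, mul_comm (U.card : ℝ)]
      exact mul_le_mul_of_nonneg_right hsk h0
    have h2 : (0 : ℝ) ≤ 8 * (2 * t * √t) * √U.card := by positivity
    have h3 : (2 * N : ℝ) * (∑ P ∈ Q, P.card : ℕ) ≤ (2 * N + 1) * U.card := by
      have h4 : (2 * N : ℝ) * (∑ P ∈ Q, P.card : ℕ) ≤
          2 * N * (U.card + 16 * (2 * t * √t) * U.card / √k) := by
        apply mul_le_mul_of_nonneg_left _ (by positivity)
        linarith
      nlinarith
    exact_mod_cast h3

end Pool.Agent.Work.MP_216d61_lc
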