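import Mathlib

/-!
# Limiting densities of proper minor-closed classes
-/

set_option autoImplicit false

namespace Pool.Agent.Work.MP_216d61_lc

/-- `x` is the limiting edge density of a proper minor-closed class `F` of finite graphs: the
infimum of the `c ≥ 0` such that, for all large `n`, all `n`-vertex members of `F` have at most
`c * n` edges. (In terms of average degrees this is half of the limiting density.) -/
def IsLimitingDensity (x : ℝ) : Prop :=
  ∃ F : (n : ℕ) → Set (SimpleGraph (Fin n)),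
    (∀ (m k : ℕ) (H : SimpleGraph (Fin m)) (G : SimpleGraph (Fin k)), G ∈ F k →
      (∃ f : Fin m → Set (Fin k),
        (∀ i j, i ≠ j → Disjoint (f i) (f j)) ∧
        (∀ i, (G.induce (f i)).Connected) ∧
        (∀ i j, H.Adj i j → ∃ a ∈ f i, ∃ b ∈ f j, G.Adj a b)) → H ∈ F m) ∧
    (∃ (n : ℕ) (G : SimpleGraph (Fin n)), G ∉ F n) ∧
    (x = sInf {c : ℝ | 0 ≤ c ∧ ∀ᶠ n in Filter.atTop, ∀ G ∈ F n,
        (G.edgeSet.ncard : ℝ) ≤ c * n})

end Pool.Agent.Work.MP_216d61_lc
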