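import Pool.Agent.Work.MP_216d61_lc.Count

/-!
# The classes `M_ρ` and the easy half of the characterisation of limiting densities
-/

set_option autoImplicit false

namespace Pool.Agent.Work.MP_216d61_lc

open Set Filter Relation

/-- Every minor of `G` has at most `ρ` times as many edges as vertices. -/
def MR (ρ : ℝ) {V : Type} (G : SimpleGraph V) : Prop :=
  ∀ (W : Type) [Fintype W] (K : SimpleGraph W), Minor K G → (e2 K : ℝ) ≤ 2 * ρ * Nat.card W

theorem MR.minor {ρ : ℝ} {V W : Type} {G : SimpleGraph V} {H : SimpleGraph W} (h : MR ρ G)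
    (hm : Minor H G) : MR ρ H := fun U _ K hK => h U K (hK.trans hm)

theorem MR.self {ρ : ℝ} {V : Type} [Fintype V] {G : SimpleGraph V} (h : MR ρ G) :
    (e2 G : ℝ) ≤ 2 * ρ * Nat.card V := h V G (Minor.refl G)

/-- the densities of the graphs in `M_ρ` come arbitrarily close to `ρ` -/
def Dense (ρ : ℝ) : Prop :=
  ∀ ε : ℝ, 0 < ε → ∃ m : ℕ, 1 ≤ m ∧ ∃ G : SimpleGraph (Fin m), MR ρ G ∧
    2 * (ρ - ε) * m < e2 G

/-- the set of which the limiting density is the infimum -/
def SS (F : Cls) : Set ℝ :=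
  {c : ℝ | 0 ≤ c ∧ ∀ᶠ n in Filter.atTop, ∀ G ∈ F n, (G.edgeSet.ncard : ℝ) ≤ c * n}

/-- `ρ` is the limiting density of a proper minor-closed class -/
def IsDen (ρ : ℝ) : Prop :=
  ∃ F : Cls, MinorClosed F ∧ (∃ (n : ℕ) (G : SimpleGraph (Fin n)), G ∉ F n) ∧ ρ = sInf (SS F)

theorem mem_SS {F : Cls} {c : ℝ} : c ∈ SS F ↔ 0 ≤ c ∧ ∃ n0 : ℕ, ∀ n ≥ n0, ∀ G ∈ F n,
    (e2 G : ℝ) ≤ 2 * c * n := by
  unfold SS
  rw [mem_ofPred_eq, eventually_atTop]
  refine and_congr_right fun _ => exists_congr fun n0 => forall₂_congr fun n _ =>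
    forall₂_congr fun G _ => ?_
  have h1 : 2 * (G.edgeSet.ncard : ℝ) = e2 G := by exact_mod_cast two_mul_ncard G
  rw [← h1]
  constructor <;> intro h <;> linarith

theorem SS_bddBelow (F : Cls) : BddBelow (SS F) := ⟨0, fun _ hc => hc.1⟩

theorem e2_top (n : ℕ) : e2 (⊤ : SimpleGraph (Fin n)) + n = n * n := by
  classical
  have h1 : e2 (⊤ : SimpleGraph (Fin n)) = (Finset.univ : Finset (Fin n)).offDiag.card := by
    rw [e2]
    congr 1
    ext ⟨x, y⟩
    simp [Finset.mem_offDiag]
  rw [h1, Finset.offDiag_card, Finset.card_univ, Fintype.card_fin]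
  exact Nat.sub_add_cancel (Nat.le_mul_self n)

/-- the class `M_ρ` -/
def MC (ρ : ℝ) : Cls := fun _ => {G | MR ρ G}

theorem MC_closed (ρ : ℝ) : MinorClosed (MC ρ) := fun _ _ _ _ hG hm => MR.minor hG hm

theorem top_not_MR {ρ : ℝ} {n : ℕ} (hn : 1 ≤ n) (h : 2 * ρ + 1 < n) :
    ¬ MR ρ (⊤ : SimpleGraph (Fin n)) := by
  intro hM
  have h1 := hM.self
  rw [Nat.card_eq_fintype_card, Fintype.card_fin] at h1
  have h2 : (e2 (⊤ : SimpleGraph (Fin n)) : ℝ) + n = n * n := by exact_mod_cast e2_top n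
  have h3 : (1 : ℝ) ≤ n := by exact_mod_cast hn
  nlinarith

/-- a branch set without root, projected to the copy -/
theorem model_proj {R C I W : Type*} {G : SimpleGraph C} {A : R → C → Prop} {K : SimpleGraph W}
    {f : W → Set (R ⊕ I × C)} (hm : Model K (Fan G A I) f) (i : I) {W' : Type*} (γ : W' → W)
    (hγ : Function.Injective γ) (hC : ∀ w, ∀ x ∈ f (γ w), ∃ d, x = Sum.inr (i, d)) :
    Minor (K.comap γ) G := by
  refine Model.minor (f := fun w => {c | Sum.inr (i, c) ∈ f (γ w)}) ⟨?_, ?_, ?_⟩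
  · intro w w' hne
    rw [disjoint_left]
    intro c hc hc'
    exact hne (hγ (hm.eq_of_mem hc hc'))
  · intro w
    obtain ⟨x0, hx0⟩ := (hm.conn (γ w)).1
    obtain ⟨c0, rfl⟩ := hC w _ hx0
    refine ⟨⟨c0, hx0⟩, ?_⟩
    intro c hc d hd
    have h1 := (hm.conn (γ w)).2 _ hc _ hd
    have key : ∀ y, ReflTransGen (fun a b => (Fan G A I).Adj a b ∧ a ∈ f (γ w) ∧ b ∈ f (γ w))
        (Sum.inr (i, c)) y → ∀ d, y = Sum.inr (i, d) →
        ReflTransGen (fun a b => G.Adj a b ∧ Sum.inr (i, a) ∈ f (γ w) ∧ Sum.inr (i, b) ∈ f (γ w))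
        c d := by
      intro y hy
      induction hy with
      | refl =>
        intro d hd
        have h2 : c = d := (Prod.ext_iff.1 (Sum.inr_injective hd)).2
        subst h2
        exact ReflTransGen.refl
      | @tail y z _ hst ih =>
        intro d hd
        obtain ⟨e, rfl⟩ := hC w _ hst.2.1
        refine (ih e rfl).tail ?_
        subst hd
        exact ⟨hst.1.2, hst.2.1, hst.2.2⟩
    exact key _ h1 d rfl
  · intro w w' hadj
    obtain ⟨x, hx, y, hy, hxy⟩ := hm.adj _ _ hadj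
    obtain ⟨c, rfl⟩ := hC w _ hx
    obtain ⟨d, rfl⟩ := hC w' _ hy
    exact ⟨c, hx, d, hy, hxy.2⟩

/-- A colouring of the branch sets: `none` for those with a root, the index of the copy for the
others. -/
theorem exists_col {R C I W : Type*} {G : SimpleGraph C} {A : R → C → Prop} {K : SimpleGraph W}
    {f : W → Set (R ⊕ I × C)} (hm : Model K (Fan G A I) f) :
    ∃ col : W → Option I, (∀ w, col w = none → ∃ a, Sum.inl a ∈ f w) ∧
      (∀ w i, col w = some i → ∀ x ∈ f w, ∃ d, x = Sum.inr (i, d)) := by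
  classical
  have h : ∀ w, ∃ o : Option I, (o = none → ∃ a, Sum.inl a ∈ f w) ∧
      (∀ i, o = some i → ∀ x ∈ f w, ∃ d, x = Sum.inr (i, d)) := by
    intro w
    by_cases hr : ∃ a, Sum.inl a ∈ f w
    · exact ⟨none, fun _ => hr, fun i hi => absurd hi (by simp)⟩
    · push Not at hr
      obtain ⟨i, hi⟩ := copy_of_no_root (hm.conn w) hr
      refine ⟨some i, fun h => absurd h (by simp), fun j hj => ?_⟩
      have : i = j := by simpa using hj
      subst this
      exact hi
  choose col hcol using h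
  exact ⟨col, fun w => (hcol w).1, fun w => (hcol w).2⟩

theorem col_adj {R C I W : Type*} {G : SimpleGraph C} {A : R → C → Prop} {K : SimpleGraph W}
    {f : W → Set (R ⊕ I × C)} (hm : Model K (Fan G A I) f) {col : W → Option I}
    (h2 : ∀ w i, col w = some i → ∀ x ∈ f w, ∃ d, x = Sum.inr (i, d)) :
    ∀ w w', K.Adj w w' → ∀ i j, col w = some i → col w' = some j → i = j := by
  intro w w' hadj i j hi hj
  obtain ⟨x, hx, y, hy, hxy⟩ := hm.adj _ _ hadj
  obtain ⟨c, rfl⟩ := h2 w i hi _ hx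
  obtain ⟨d, rfl⟩ := h2 w' j hj _ hy
  exact hxy.1

/-- the number of branch sets with a root is at most the number of roots -/
theorem card_root_le {R C I W : Type*} [Finite R] {G : SimpleGraph C} {A : R → C → Prop}
    {K : SimpleGraph W}
    {f : W → Set (R ⊕ I × C)} (hm : Model K (Fan G A I) f) {col : W → Option I}
    (h1 : ∀ w, col w = none → ∃ a, Sum.inl a ∈ f w) :
    Nat.card {w // col w = none} ≤ Nat.card R := by
  choose a ha using fun w : {w // col w = none} => h1 w w.2
  refine Nat.card_le_card_of_injective a ?_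
  intro w w' hww
  have h3 := ha w
  rw [hww] at h3
  exact Subtype.ext (hm.eq_of_mem h3 (ha w'))

/-- the number of branch sets in a copy is at most the number of vertices of the copy -/
theorem card_copy_le {R C I W : Type*} [Finite C] {G : SimpleGraph C} {A : R → C → Prop}
    {K : SimpleGraph W}
    {f : W → Set (R ⊕ I × C)} (hm : Model K (Fan G A I) f) {col : W → Option I}
    (h2 : ∀ w i, col w = some i → ∀ x ∈ f w, ∃ d, x = Sum.inr (i, d)) (i : I) :
    Nat.card {w // col w = some i} ≤ Nat.card C := by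
  have h3 : ∀ w : {w // col w = some i}, ∃ d, Sum.inr (i, d) ∈ f w := by
    intro w
    obtain ⟨x, hx⟩ := (hm.conn w).1
    obtain ⟨d, rfl⟩ := h2 w i w.2 _ hx
    exact ⟨d, hx⟩
  choose a ha using h3
  refine Nat.card_le_card_of_injective a ?_
  intro w w' hww
  have h3 := ha w
  rw [hww] at h3
  exact Subtype.ext (hm.eq_of_mem h3 (ha w'))

theorem e2_congr {V W : Type*} [Fintype V] [Fintype W] {H : SimpleGraph W} {G : SimpleGraph V}
    (e : W ≃ V) (h : ∀ i j, H.Adj i j ↔ G.Adj (e i) (e j)) : e2 H = e2 G := by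
  refine le_antisymm (e2_le_of_inj e e.injective fun i j => (h i j).1)
    (e2_le_of_inj e.symm e.symm.injective fun i j hij => ?_)
  rw [h, e.apply_symm_apply, e.apply_symm_apply]
  exact hij

/-- Copies of a graph of `M_ρ` are in `M_ρ`. -/
theorem MR.copies {ρ : ℝ} {C : Type} [Fintype C] {G : SimpleGraph C} (h : MR ρ G) (q : ℕ) :
    MR ρ (Fan G (fun (_ : Fin 0) (_ : C) => False) (Fin q)) := by
  classical
  intro W _ K hK
  obtain ⟨f, hf⟩ := minor_iff.1 hK
  obtain ⟨col, h1, h2⟩ := exists_col hf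
  refine e2_le_of_types K col (col_adj hf h2) (Or.inl ?_) ?_
  · have h3 := card_root_le hf h1
    simpa using h3
  · intro i
    have h3 := h _ _ (model_proj hf i (fun w : {w // col w = some i} => (w : W))
      Subtype.val_injective (fun w => h2 w i w.2))
    have h4 : (Finset.univ.filter fun p : {w // col w = none} × {w // col w = some i} =>
        K.Adj p.1 p.2).card = 0 := by
      rw [Finset.card_eq_zero, Finset.filter_eq_empty_iff]
      rintro ⟨⟨w, hw⟩, _⟩ _
      obtain ⟨a, _⟩ := h1 w hw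
      exact a.elim0
    rw [tau2, h4]
    simpa using h3

theorem isDen_of_dense {ρ : ℝ} (hρ : 0 ≤ ρ) (h : Dense ρ) : IsDen ρ := by
  refine ⟨MC ρ, MC_closed ρ, ?_, ?_⟩
  · obtain ⟨n, hn⟩ := exists_nat_gt (2 * ρ + 1)
    refine ⟨n, ⊤, top_not_MR ?_ hn⟩
    have : (0 : ℝ) < n := by linarith
    have : 0 < n := by exact_mod_cast this
    omega
  · have hmem : ρ ∈ SS (MC ρ) := by
      rw [mem_SS]
      refine ⟨hρ, 0, fun n _ G hG => ?_⟩
      have := MR.self hG
      rwa [Nat.card_eq_fintype_card, Fintype.card_fin] at this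
    refine le_antisymm (le_csInf ⟨ρ, hmem⟩ ?_) (csInf_le (SS_bddBelow _) hmem)
    intro c hc
    by_contra hlt
    push Not at hlt
    obtain ⟨m, hm, G, hG, hGe⟩ := h (ρ - c) (by linarith)
    rw [mem_SS] at hc
    obtain ⟨_, n0, hn0⟩ := hc
    set q : ℕ := n0 + 1 with hq
    set A : Fin 0 → Fin m → Prop := fun _ _ => False with hA
    set Γ := Fan G A (Fin q) with hΓ
    have hcard : Fintype.card (Fin 0 ⊕ Fin q × Fin m) = q * m := by simp
    set e := Fintype.equivFinOfCardEq hcard with he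
    set G' : SimpleGraph (Fin (q * m)) := Γ.comap e.symm with hG'
    have hmin : Minor G' Γ := minor_of_inj e.symm e.symm.injective fun _ _ h => h
    have hMR : MR ρ G' := (hG.copies q).minor hmin
    have h1 := hn0 (q * m) (by nlinarith) G' hMR
    have h2 : e2 G' = q * tau2 G A := by
      rw [e2_congr (H := G') (G := Γ) e.symm fun _ _ => Iff.rfl, hΓ, e2_fan, Fintype.card_fin]
    have h3 : e2 G ≤ tau2 G A := Nat.le_add_right _ _
    have h4 : (e2 G : ℝ) ≤ tau2 G A := by exact_mod_cast h3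
    rw [h2] at h1
    push_cast at h1
    have hq0 : (0 : ℝ) < q := by
      rw [hq]; positivity
    have h5 : (q : ℝ) * (2 * (ρ - (ρ - c)) * m) < q * tau2 G A :=
      mul_lt_mul_of_pos_left (lt_of_lt_of_le hGe h4) hq0
    have h6 : (q : ℝ) * (2 * (ρ - (ρ - c)) * m) = 2 * c * (q * m) := by ring
    linarith

end Pool.Agent.Work.MP_216d61_lc
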