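import Mathlib

/-!
# The sunflower lemma
-/

set_option autoImplicit false

namespace Pool.Agent.Work.MP_216d61_lc

open Finset

/-- **Sunflower lemma.** -/
theorem sunflower (κ : ℕ) : ∀ k : ℕ, ∃ M : ℕ, ∀ (V : Type) [DecidableEq V]
    (Q : Finset (Finset V)), (∀ P ∈ Q, P.card ≤ k) → M < Q.card →
    ∃ S ⊆ Q, κ ≤ S.card ∧ ∃ K : Finset V, (∀ P ∈ S, K ⊆ P) ∧
      ∀ P ∈ S, ∀ P' ∈ S, P ≠ P' → P ∩ P' = K := by
  intro k
  induction k with
  | zero =>
    refine ⟨1, fun V _ Q hQ hlt => ?_⟩
    exfalso
    have h1 : Q ⊆ {∅} := by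
      intro P hP
      have := hQ P hP
      rw [mem_singleton, ← card_eq_zero]
      omega
    have := card_le_card h1
    simp at this
    omega
  | succ k ih =>
    obtain ⟨M, hM⟩ := ih
    refine ⟨1 + (κ * (k + 1)) * (M + 1), fun V _ Q hQ hlt => ?_⟩
    classical
    -- a maximal disjoint subfamily
    set Q' := Q.erase ∅ with hQ'
    have hQ'c : (κ * (k + 1)) * (M + 1) < Q'.card := by
      have := pred_card_le_card_erase (s := Q) (a := ∅)
      rw [← hQ'] at this
      omega
    have hne : (Q'.powerset.filter fun D => ∀ P ∈ D, ∀ P' ∈ D, P ≠ P' → Disjoint P P').Nonempty :=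
      ⟨∅, by simp⟩
    obtain ⟨D, hD, hmax⟩ := exists_max_image _ card hne
    rw [mem_filter, mem_powerset] at hD
    obtain ⟨hDQ, hDd⟩ := hD
    rcases le_or_gt κ D.card with hκ | hκ
    · refine ⟨D, hDQ.trans (erase_subset _ _), hκ, ∅, fun P _ => empty_subset _, ?_⟩
      intro P hP P' hP' hne
      exact disjoint_iff_inter_eq_empty.1 (hDd P hP P' hP' hne)
    · -- the union of the subfamily meets every set
      set U := D.biUnion id with hU
      have hUc : U.card ≤ κ * (k + 1) := by
        calc U.card ≤ ∑ P ∈ D, (id P).card := card_biUnion_le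
          _ ≤ ∑ _P ∈ D, (k + 1) := sum_le_sum fun P hP => hQ P (mem_of_mem_erase (hDQ hP))
          _ = D.card * (k + 1) := by rw [sum_const, smul_eq_mul]
          _ ≤ κ * (k + 1) := Nat.mul_le_mul_right _ hκ.le
      have hmeet : ∀ P ∈ Q', ∃ x ∈ U, x ∈ P := by
        intro P hP
        by_contra hcon
        push Not at hcon
        have hPne : P ≠ ∅ := (mem_erase.1 hP).1
        have hPD : P ∉ D := by
          intro hPD
          obtain ⟨x, hx⟩ := nonempty_iff_ne_empty.2 hPne
          exact hcon x (mem_biUnion.2 ⟨P, hPD, hx⟩) hx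
        have hdis : ∀ P' ∈ D, Disjoint P P' := by
          intro P' hP'
          rw [disjoint_left]
          intro x hx hx'
          exact hcon x (mem_biUnion.2 ⟨P', hP', hx'⟩) hx
        have h1 := hmax (insert P D) (by
          rw [mem_filter, mem_powerset]
          refine ⟨insert_subset hP hDQ, ?_⟩
          intro P1 hP1 P2 hP2 hne
          rcases mem_insert.1 hP1 with h1 | hP1
          · rcases mem_insert.1 hP2 with h2 | hP2
            · exact absurd (h1.trans h2.symm) hne
            · rw [h1]
              exact hdis _ hP2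
          · rcases mem_insert.1 hP2 with h2 | hP2
            · rw [h2]
              exact (hdis _ hP1).symm
            · exact hDd _ hP1 _ hP2 hne)
        rw [card_insert_of_notMem hPD] at h1
        omega
      have hnV : Nonempty V := by
        obtain ⟨P, hP⟩ : Q'.Nonempty := card_pos.1 (by omega)
        obtain ⟨x, _, _⟩ := hmeet P hP
        exact ⟨x⟩
      choose! x hxU hxP using hmeet
      obtain ⟨v, _, hv⟩ := exists_lt_card_fiber_of_mul_lt_card_of_maps_to (s := Q') (t := U)
        (f := x) (n := M + 1) hxU (lt_of_le_of_lt (Nat.mul_le_mul_right _ hUc) hQ'c)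
      set Qv := Q'.filter fun P => x P = v with hQv
      have hvP : ∀ P ∈ Qv, v ∈ P := by
        intro P hP
        obtain ⟨h1, h2⟩ := mem_filter.1 hP
        rw [← h2]
        exact hxP P h1
      have hinj : Set.InjOn (fun P : Finset V => P.erase v) Qv := by
        intro P hP P' hP' heq
        have h1 : insert v (P.erase v) = insert v (P'.erase v) := congrArg _ heq
        rwa [insert_erase (hvP P hP), insert_erase (hvP P' hP')] at h1
      obtain ⟨S, hS, hSc, K, hK1, hK2⟩ := hM V (Qv.image fun P => P.erase v) (by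
        intro P hP
        obtain ⟨P0, hP0, rfl⟩ := mem_image.1 hP
        have h1 := hQ P0 (mem_of_mem_erase (mem_filter.1 hP0).1)
        have h2 := card_erase_of_mem (hvP P0 hP0)
        omega) (by
        rw [card_image_of_injOn hinj]
        omega)
      refine ⟨Qv.filter fun P => P.erase v ∈ S, ?_, ?_, insert v K, ?_, ?_⟩
      · intro P hP
        exact mem_of_mem_erase (mem_filter.1 (mem_filter.1 hP).1).1
      · have h1 : S ⊆ (Qv.filter fun P => P.erase v ∈ S).image fun P => P.erase v := by
          intro P hP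
          obtain ⟨P0, hP0, rfl⟩ := mem_image.1 (hS hP)
          exact mem_image.2 ⟨P0, mem_filter.2 ⟨hP0, hP⟩, rfl⟩
        exact hSc.trans ((card_le_card h1).trans card_image_le)
      · intro P hP
        obtain ⟨h1, h2⟩ := mem_filter.1 hP
        exact insert_subset (hvP P h1) ((hK1 _ h2).trans (erase_subset _ _))
      · intro P hP P' hP' hne
        obtain ⟨h1, h2⟩ := mem_filter.1 hP
        obtain ⟨h3, h4⟩ := mem_filter.1 hP'
        rw [← hK2 _ h2 _ h4 (fun h => hne (hinj h1 h3 h))]
        ext y
        simp only [mem_inter, mem_insert, mem_erase]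
        constructor
        · rintro ⟨hy1, hy2⟩
          by_cases hyv : y = v
          · exact Or.inl hyv
          · exact Or.inr ⟨⟨hyv, hy1⟩, ⟨hyv, hy2⟩⟩
        · rintro (rfl | ⟨⟨_, hy1⟩, ⟨_, hy2⟩⟩)
          · exact ⟨hvP _ h1, hvP _ h3⟩
          · exact ⟨hy1, hy2⟩

end Pool.Agent.Work.MP_216d61_lc
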