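import Pool.Agent.Work.MP_216d61_lc.Dense
import Pool.Agent.Work.MP_216d61_lc.Sunflower
import Pool.Agent.Work.MP_216d61_lc.Decomp

/-!
# Dense members of a minor-closed class give a good type
-/

set_option autoImplicit false

namespace Pool.Agent.Work.MP_216d61_lc

open Finset

theorem unif {α : Type*} [Finite α] (p : α → ℕ → Prop)
    (hmono : ∀ x κ κ', κ ≤ κ' → p x κ → p x κ') (h : ∀ x, ∃ κ, p x κ) : ∃ κ, ∀ x, p x κ := by
  choose f hf using h
  obtain ⟨κ, hκ⟩ := (Set.finite_range f).bddAbove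
  exact ⟨κ, fun x => hmono x _ _ (hκ (Set.mem_range_self x)) (hf x)⟩

theorem not_inF_mono {F : Cls} {R C : Type*} {H : SimpleGraph C} {A : R → C → Prop} {κ κ' : ℕ}
    (h : κ ≤ κ') (hn : ¬ InF F (Fan H A (Fin κ))) : ¬ InF F (Fan H A (Fin κ')) :=
  fun h' => hn (h'.minor (fan_minor_of_inj (Fin.castLE_injective h)))

theorem exists_kappa {F : Cls} (k : ℕ) (θ : ℝ)
    (hbad : ∀ (r c : ℕ) (H : SimpleGraph (Fin c)) (A : Fin r → Fin c → Prop),
      θ * c < tau2 H A → ¬ Good F H A) :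
    ∃ κ, ∀ (r c : ℕ) (H : SimpleGraph (Fin c)) (A : Fin r → Fin c → Prop), r ≤ k → c ≤ k →
      θ * c < tau2 H A → ¬ InF F (Fan H A (Fin κ)) := by
  have h1 : ∀ r : Fin (k + 1), ∃ κ, ∀ c : Fin (k + 1),
      ∀ x : SimpleGraph (Fin c) × (Fin r → Fin c → Prop),
        θ * (c : ℕ) < tau2 x.1 x.2 → ¬ InF F (Fan x.1 x.2 (Fin κ)) := by
    intro r
    refine unif _ (fun c κ κ' hle h x hx => not_inF_mono hle (h x hx)) ?_
    intro c
    refine unif _ (fun x κ κ' hle h hx => not_inF_mono hle (h hx)) ?_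
    intro x
    by_cases hx : θ * (c : ℕ) < tau2 x.1 x.2
    · have h2 := hbad r c x.1 x.2 hx
      unfold Good at h2
      push Not at h2
      obtain ⟨κ, hκ⟩ := h2
      exact ⟨κ, fun _ => hκ⟩
    · exact ⟨0, fun h => absurd h hx⟩
  obtain ⟨κ, hκ⟩ := unif _ (fun r κ κ' hle h c x hx => not_inF_mono hle (h c x hx)) h1
  exact ⟨κ, fun r c H A hr hc hx => hκ ⟨r, by omega⟩ ⟨c, by omega⟩ (H, A) hx⟩

/-- the types with `r` roots and at most `k` other vertices -/
abbrev Ty (r k : ℕ) := Σ c : Fin (k + 1), SimpleGraph (Fin c) × (Fin r → Fin c → Prop)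

/-- an upper bound for the number of types -/
noncomputable def Tk (k : ℕ) : ℕ := ∑ r ∈ range (k + 1), Nat.card (Ty r k)

open Classical in
/-- ordered adjacent pairs in `P` which are not both in `K` -/
noncomputable def eP {V : Type} (G : SimpleGraph V) (K P : Finset V) : ℕ :=
  ((P ×ˢ P).filter fun p => G.Adj p.1 p.2 ∧ ¬ (p.1 ∈ K ∧ p.2 ∈ K)).card

theorem eP_anti {V : Type} (G : SimpleGraph V) {K K' : Finset V} (P : Finset V) (h : K ⊆ K') :
    eP G K' P ≤ eP G K P := by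
  classical
  rw [eP, eP]
  refine card_le_card fun p hp => ?_
  obtain ⟨h5, h6, h7⟩ := mem_filter.1 hp
  exact mem_filter.2 ⟨h5, h6, fun h8 => h7 ⟨h h8.1, h h8.2⟩⟩

theorem eP_le_tau2 {V : Type} (G : SimpleGraph V) (K P : Finset V) {r c : ℕ}
    (H : SimpleGraph (Fin c)) (A : Fin r → Fin c → Prop) (α : Fin r → V) (β : Fin c → V)
    (hα : ∀ x ∈ K, ∃ a, α a = x) (hβ : ∀ x ∈ P, x ∉ K → ∃ i, β i = x)
    (hH : ∀ i j, G.Adj (β i) (β j) → H.Adj i j) (hA : ∀ a i, G.Adj (α a) (β i) → A a i) :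
    eP G K P ≤ tau2 H A := by
  classical
  rw [eP, tau2, e2]
  set T1 : Finset (Fin c × Fin c) := univ.filter fun p => H.Adj p.1 p.2 with hT1
  set T2 : Finset (Fin r × Fin c) := univ.filter fun p => A p.1 p.2 with hT2
  have hsub : ((P ×ˢ P).filter fun p => G.Adj p.1 p.2 ∧ ¬ (p.1 ∈ K ∧ p.2 ∈ K)) ⊆
      (T1.image fun p => (β p.1, β p.2)) ∪
        ((T2.image fun p => (α p.1, β p.2)) ∪ (T2.image fun p => (β p.2, α p.1))) := by
    rintro ⟨x, y⟩ hp
    rw [mem_filter, mem_product] at hp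
    obtain ⟨⟨hx, hy⟩, hadj, hn⟩ := hp
    simp only at hx hy hadj hn
    by_cases hxK : x ∈ K
    · have hyK : y ∉ K := fun h => hn ⟨hxK, h⟩
      obtain ⟨a, rfl⟩ := hα x hxK
      obtain ⟨i, rfl⟩ := hβ y hy hyK
      exact mem_union_right _ (mem_union_left _ (mem_image.2 ⟨(a, i),
        mem_filter.2 ⟨mem_univ _, hA _ _ hadj⟩, rfl⟩))
    · obtain ⟨i, rfl⟩ := hβ x hx hxK
      by_cases hyK : y ∈ K
      · obtain ⟨a, rfl⟩ := hα y hyK
        exact mem_union_right _ (mem_union_right _ (mem_image.2 ⟨(a, i),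
          mem_filter.2 ⟨mem_univ _, hA _ _ hadj.symm⟩, rfl⟩))
      · obtain ⟨j, rfl⟩ := hβ y hy hyK
        exact mem_union_left _ (mem_image.2 ⟨(i, j),
          mem_filter.2 ⟨mem_univ _, hH _ _ hadj⟩, rfl⟩)
  refine (card_le_card hsub).trans ((card_union_le _ _).trans ?_)
  have h1 : (T1.image fun p => (β p.1, β p.2)).card ≤ T1.card := card_image_le
  have h2 : (T2.image fun p => (α p.1, β p.2)).card ≤ T2.card := card_image_le
  have h3 : (T2.image fun p => (β p.2, α p.1)).card ≤ T2.card := card_image_le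
  have h4 := card_union_le (T2.image fun p => (α p.1, β p.2)) (T2.image fun p => (β p.2, α p.1))
  omega

theorem fan_of_sunflower {V : Type} [DecidableEq V] (G : SimpleGraph V) (k κ : ℕ) (θ : ℝ)
    (hθ : 0 ≤ θ)
    (S : Finset (Finset V)) (K : Finset V) (hK : ∀ P ∈ S, K ⊆ P)
    (hS : ∀ P ∈ S, ∀ P' ∈ S, P ≠ P' → P ∩ P' = K) (hk : ∀ P ∈ S, P.card ≤ k)
    (hP : ∀ P ∈ S, θ * P.card < eP G K P) (hc : Tk k * κ < S.card) :
    ∃ (r c : ℕ) (H : SimpleGraph (Fin c)) (A : Fin r → Fin c → Prop), r ≤ k ∧ c ≤ k ∧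
      θ * c < tau2 H A ∧ Minor (Fan H A (Fin κ)) G := by
  classical
  obtain ⟨P0, hP0⟩ : S.Nonempty := card_pos.1 (by omega)
  have hrk : K.card ≤ k := (card_le_card (hK P0 hP0)).trans (hk P0 hP0)
  set r := K.card with hr
  set α : Fin r → V := fun a => K.equivFin.symm a with hα
  have hαK : ∀ a, α a ∈ K := fun a => (K.equivFin.symm a).2
  have hαinj : Function.Injective α := fun a b h =>
    K.equivFin.symm.injective (Subtype.ext h)
  have hαs : ∀ x ∈ K, ∃ a, α a = x := fun x hx => ⟨K.equivFin ⟨x, hx⟩, by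
    simp only [hα]
    rw [Equiv.symm_apply_apply]⟩
  let ty : Finset V → Ty r k := fun P =>
    if h : (P \ K).card ≤ k then
      ⟨⟨(P \ K).card, by omega⟩, G.comap (fun i => ((P \ K).equivFin.symm i : V)),
        fun a i => G.Adj (α a) ((P \ K).equivFin.symm i)⟩
    else ⟨⟨0, by omega⟩, ⊥, fun _ _ => False⟩
  have hfin : Fintype (Ty r k) := Fintype.ofFinite _
  have hTk : (univ : Finset (Ty r k)).card ≤ Tk k := by
    rw [card_univ, ← Nat.card_eq_fintype_card]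
    exact single_le_sum (f := fun r => Nat.card (Ty r k)) (fun _ _ => Nat.zero_le _)
      (mem_range.2 (by omega))
  obtain ⟨τ, _, hτ⟩ := exists_lt_card_fiber_of_mul_lt_card_of_maps_to (s := S)
    (t := (univ : Finset (Ty r k))) (f := ty) (n := κ) (fun _ _ => mem_univ _)
    (lt_of_le_of_lt (Nat.mul_le_mul_right _ hTk) hc)
  obtain ⟨⟨c, hck⟩, H, A⟩ := τ
  set S' := S.filter fun P => ty P = ⟨⟨c, hck⟩, H, A⟩ with hS'
  have key : ∀ P ∈ S', ∃ β : Fin c → V, Function.Injective β ∧ (∀ i, β i ∈ P \ K) ∧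
      (∀ x ∈ P, x ∉ K → ∃ i, β i = x) ∧ (∀ i j, H.Adj i j ↔ G.Adj (β i) (β j)) ∧
      (∀ a i, A a i ↔ G.Adj (α a) (β i)) := by
    intro P hP
    obtain ⟨hPS, hPτ⟩ := mem_filter.1 hP
    have hle : (P \ K).card ≤ k := (card_le_card sdiff_subset).trans (hk P hPS)
    have h1 : ty P = ⟨⟨(P \ K).card, by omega⟩, G.comap (fun i => ((P \ K).equivFin.symm i : V)),
        fun a i => G.Adj (α a) ((P \ K).equivFin.symm i)⟩ := dif_pos hle
    have h2 : ∀ τ : Ty r k, ty P = τ → ∃ β : Fin τ.1 → V, Function.Injective β ∧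
        (∀ i, β i ∈ P \ K) ∧ (∀ x ∈ P, x ∉ K → ∃ i, β i = x) ∧
        (∀ i j, τ.2.1.Adj i j ↔ G.Adj (β i) (β j)) ∧
        (∀ a i, τ.2.2 a i ↔ G.Adj (α a) (β i)) := by
      intro τ hτ
      rw [h1] at hτ
      subst hτ
      refine ⟨fun i => (P \ K).equivFin.symm i, ?_, ?_, ?_, fun _ _ => Iff.rfl, fun _ _ => Iff.rfl⟩
      · intro i j hij
        exact (P \ K).equivFin.symm.injective (Subtype.ext hij)
      · intro i
        exact ((P \ K).equivFin.symm i).2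
      · intro x hx hxK
        refine ⟨(P \ K).equivFin ⟨x, mem_sdiff.2 ⟨hx, hxK⟩⟩, ?_⟩
        show (((P \ K).equivFin.symm ((P \ K).equivFin ⟨x, mem_sdiff.2 ⟨hx, hxK⟩⟩) : {y // y ∈ P \ K}) : V) = x
        rw [Equiv.symm_apply_apply]
    exact h2 _ hPτ
  choose β hβi hβm hβs hβH hβA using key
  obtain ⟨P1, hP1⟩ : S'.Nonempty := card_pos.1 (by omega)
  refine ⟨r, c, H, A, hrk, by omega, ?_, ?_⟩
  · have h1 := hP P1 (mem_filter.1 hP1).1
    have h2 : eP G K P1 ≤ tau2 H A := eP_le_tau2 G K P1 H A α (β P1 hP1) hαs (hβs P1 hP1)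
      (fun i j h => (hβH P1 hP1 i j).2 h) (fun a i h => (hβA P1 hP1 a i).2 h)
    have h3 : c ≤ P1.card := by
      have h4 := card_le_card_of_injOn (s := (univ : Finset (Fin c))) (t := P1) (β P1 hP1)
        (fun i _ => (mem_sdiff.1 (hβm P1 hP1 i)).1) (fun i _ j _ h => hβi P1 hP1 h)
      simpa using h4
    have h5 : (c : ℝ) ≤ P1.card := by exact_mod_cast h3
    have h6 : (eP G K P1 : ℝ) ≤ tau2 H A := by exact_mod_cast h2
    have h7 := mul_le_mul_of_nonneg_left h5 hθ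
    linarith
  · set ι : Fin κ → {P // P ∈ S'} := fun i => S'.equivFin.symm (Fin.castLE hτ.le i) with hι
    have hιi : Function.Injective ι := fun i j h =>
      Fin.castLE_injective hτ.le (S'.equivFin.symm.injective h)
    refine minor_of_inj (Sum.elim α (fun p : Fin κ × Fin c => β (ι p.1) (ι p.1).2 p.2)) ?_ ?_
    · rintro (a | p) (b | q) h
      · exact congrArg Sum.inl (hαinj h)
      · have h1 : α a = β (ι q.1) (ι q.1).2 q.2 := h
        have h2 := (mem_sdiff.1 (hβm (ι q.1) (ι q.1).2 q.2)).2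
        rw [← h1] at h2
        exact absurd (hαK a) h2
      · have h1 : β (ι p.1) (ι p.1).2 p.2 = α b := h
        have h2 := (mem_sdiff.1 (hβm (ι p.1) (ι p.1).2 p.2)).2
        rw [h1] at h2
        exact absurd (hαK b) h2
      · have h1 : β (ι p.1) (ι p.1).2 p.2 = β (ι q.1) (ι q.1).2 q.2 := h
        have h2 := mem_sdiff.1 (hβm (ι p.1) (ι p.1).2 p.2)
        have h3 := mem_sdiff.1 (hβm (ι q.1) (ι q.1).2 q.2)
        have h4 : ι p.1 = ι q.1 := by
          by_contra hne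
          have h5 := hS (ι p.1) (mem_filter.1 (ι p.1).2).1 (ι q.1) (mem_filter.1 (ι q.1).2).1
            (fun h => hne (Subtype.ext h))
          rw [← h1] at h3
          have h6 := mem_inter.2 ⟨h2.1, h3.1⟩
          rw [h5] at h6
          exact h2.2 h6
        have h5 : p.1 = q.1 := hιi h4
        obtain ⟨p1, p2⟩ := p
        obtain ⟨q1, q2⟩ := q
        simp only at h5
        subst h5
        have h6 : p2 = q2 := hβi _ _ h1
        rw [h6]
    · rintro (a | p) (b | q) h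
      · exact h.elim
      · exact (hβA _ _ _ _).1 h
      · exact ((hβA _ _ _ _).1 h).symm
      · obtain ⟨p1, p2⟩ := p
        obtain ⟨q1, q2⟩ := q
        obtain ⟨h1, h2⟩ := h
        simp only at h1 h2
        subst h1
        exact (hβH _ _ _ _).1 h2

open Classical in
/-- the vertices in at least two pieces -/
noncomputable def Sh {V : Type} [Fintype V] (Q : Finset (Finset V)) : Finset V :=
  univ.filter fun v => ∃ P ∈ Q, ∃ P' ∈ Q, P ≠ P' ∧ v ∈ P ∧ v ∈ P'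

theorem mem_Sh {V : Type} [Fintype V] {Q : Finset (Finset V)} {v : V} :
    v ∈ Sh Q ↔ ∃ P ∈ Q, ∃ P' ∈ Q, P ≠ P' ∧ v ∈ P ∧ v ∈ P' := by
  classical
  rw [Sh, mem_filter]
  simp

theorem card_add_Sh {V : Type} [Fintype V] {Q : Finset (Finset V)}
    (hv : ∀ x : V, ∃ P ∈ Q, x ∈ P) : Fintype.card V + (Sh Q).card ≤ ∑ P ∈ Q, P.card := by
  classical
  have h1 : ∑ P ∈ Q, P.card = ∑ v : V, (Q.filter fun P => v ∈ P).card := by
    have h2 : ∀ P : Finset V, P.card = ∑ v : V, if v ∈ P then 1 else 0 := by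
      intro P
      rw [← card_filter]
      congr 1
      ext v
      simp
    simp only [h2]
    rw [sum_comm]
    refine sum_congr rfl fun v _ => ?_
    rw [← card_filter]
  have h2 : ∀ v : V, 1 + (if v ∈ Sh Q then 1 else 0) ≤ (Q.filter fun P => v ∈ P).card := by
    intro v
    obtain ⟨P, hP, hvP⟩ := hv v
    split_ifs with hvS
    · obtain ⟨P1, hP1, P2, hP2, hne, hv1, hv2⟩ := mem_Sh.1 hvS
      have h3 : ({P1, P2} : Finset (Finset V)) ⊆ Q.filter fun P => v ∈ P := by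
        intro P hP
        rcases mem_insert.1 hP with rfl | hP
        · exact mem_filter.2 ⟨hP1, hv1⟩
        · rw [mem_singleton.1 hP]
          exact mem_filter.2 ⟨hP2, hv2⟩
      have h4 := card_le_card h3
      rw [card_pair hne] at h4
      exact h4
    · exact card_pos.2 ⟨P, mem_filter.2 ⟨hP, hvP⟩⟩
  have h3 : ∑ v : V, (1 + if v ∈ Sh Q then 1 else 0) = Fintype.card V + (Sh Q).card := by
    rw [sum_add_distrib, ← card_filter]
    simp
  rw [h1, ← h3]
  exact sum_le_sum fun v _ => h2 v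

theorem e2_le_pieces {V : Type} [Fintype V] (G : SimpleGraph V) {Q : Finset (Finset V)}
    (hQ : ∀ x y, G.Adj x y → ∃ P ∈ Q, x ∈ P ∧ y ∈ P) (X : Finset V) :
    e2 G ≤ e2 (G.comap (fun x : {x // x ∈ X} => (x : V))) + ∑ P ∈ Q, eP G X P := by
  classical
  set T : Finset ({x // x ∈ X} × {x // x ∈ X}) := univ.filter fun p => G.Adj p.1 p.2 with hT
  have hsub : (univ.filter fun p : V × V => G.Adj p.1 p.2) ⊆
      (T.image fun p => ((p.1 : V), (p.2 : V))) ∪ Q.biUnion fun P =>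
        ((P ×ˢ P).filter fun p => G.Adj p.1 p.2 ∧ ¬ (p.1 ∈ X ∧ p.2 ∈ X)) := by
    rintro ⟨x, y⟩ hp
    have hadj : G.Adj x y := (mem_filter.1 hp).2
    by_cases hX : x ∈ X ∧ y ∈ X
    · exact mem_union_left _ (mem_image.2 ⟨(⟨x, hX.1⟩, ⟨y, hX.2⟩),
        mem_filter.2 ⟨mem_univ _, hadj⟩, rfl⟩)
    · obtain ⟨P, hP, hx, hy⟩ := hQ x y hadj
      exact mem_union_right _ (mem_biUnion.2 ⟨P, hP, mem_filter.2 ⟨mem_product.2 ⟨hx, hy⟩,
        hadj, hX⟩⟩)
  calc e2 G = (univ.filter fun p : V × V => G.Adj p.1 p.2).card := rfl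
    _ ≤ _ := card_le_card hsub
    _ ≤ _ := card_union_le _ _
    _ ≤ T.card + ∑ P ∈ Q, ((P ×ˢ P).filter fun p => G.Adj p.1 p.2 ∧
          ¬ (p.1 ∈ X ∧ p.2 ∈ X)).card :=
        Nat.add_le_add card_image_le card_biUnion_le
    _ = _ := by
        refine congrArg₂ (· + ·) rfl (sum_congr rfl fun P _ => ?_)
        rw [eP]

/-- many pieces have positive value -/
theorem many_pos {V : Type} [Fintype V] (G : SimpleGraph V) {Q : Finset (Finset V)}
    (hv : ∀ x : V, ∃ P ∈ Q, x ∈ P)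
    (hQ : ∀ x y, G.Adj x y → ∃ P ∈ Q, x ∈ P ∧ y ∈ P) {k N : ℕ} (hk : ∀ P ∈ Q, P.card ≤ k)
    (hN : 1 ≤ N)
    (hsum : 2 * N * ∑ P ∈ Q, P.card ≤ (2 * N + 1) * Fintype.card V) {θ B : ℝ} (hθ : 0 ≤ θ)
    (hB0 : 0 ≤ B)
    (hB : (e2 (G.comap (fun x : {x // x ∈ Sh Q} => (x : V))) : ℝ) ≤ B * (Sh Q).card) :
    ∀ (_inst : DecidablePred fun P : Finset V => θ * P.card < eP G (Sh Q) P),
    (e2 G : ℝ) - θ * Fintype.card V - (B + θ) * Fintype.card V / (2 * N) ≤
      (Q.filter fun P => θ * P.card < eP G (Sh Q) P).card * (k : ℝ) ^ 2 := by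
  intro inst
  classical
  have hNr : (1 : ℝ) ≤ N := by exact_mod_cast hN
  have h1 := card_add_Sh hv
  have h2 := e2_le_pieces G hQ (Sh Q)
  have h1' : (Fintype.card V : ℝ) + (Sh Q).card ≤ ∑ P ∈ Q, (P.card : ℝ) := by exact_mod_cast h1
  have h2' : (e2 G : ℝ) ≤ e2 (G.comap (fun x : {x // x ∈ Sh Q} => (x : V))) +
      ∑ P ∈ Q, (eP G (Sh Q) P : ℝ) := by exact_mod_cast h2
  have hsum' : 2 * N * ∑ P ∈ Q, (P.card : ℝ) ≤ (2 * N + 1) * Fintype.card V := by
    exact_mod_cast hsum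
  have h3 : ∑ P ∈ Q, (P.card : ℝ) ≤ Fintype.card V + Fintype.card V / (2 * N) := by
    have h4 : (Fintype.card V : ℝ) + Fintype.card V / (2 * N) =
        ((2 * N + 1) * Fintype.card V) / (2 * N) := by
      field_simp
    rw [h4, le_div_iff₀ (by positivity)]
    linarith
  have h4 : ((Sh Q).card : ℝ) ≤ Fintype.card V / (2 * N) := by linarith
  have h5 : ∑ P ∈ Q, ((eP G (Sh Q) P : ℝ) - θ * P.card) ≤
      (Q.filter fun P => θ * P.card < eP G (Sh Q) P).card * (k : ℝ) ^ 2 := by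
    have h6 : ∑ P ∈ Q, ((eP G (Sh Q) P : ℝ) - θ * P.card) ≤
        ∑ P ∈ Q, if θ * P.card < eP G (Sh Q) P then (k : ℝ) ^ 2 else 0 := by
      refine sum_le_sum fun P hP => ?_
      split_ifs with hlt
      · have h7 : eP G (Sh Q) P ≤ P.card * P.card := by
          rw [eP, ← card_product]
          exact card_le_card (filter_subset _ _)
        have h8 : P.card * P.card ≤ k * k := Nat.mul_le_mul (hk P hP) (hk P hP)
        have h9 : (eP G (Sh Q) P : ℝ) ≤ k * k := by exact_mod_cast h7.trans h8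
        have h10 : 0 ≤ θ * P.card := mul_nonneg hθ (Nat.cast_nonneg _)
        rw [sq]
        linarith
      · linarith
    refine h6.trans (le_of_eq ?_)
    rw [← sum_filter, sum_const, nsmul_eq_mul]
  rw [sum_sub_distrib, ← mul_sum] at h5
  have h6 : B * (Sh Q).card ≤ B * (Fintype.card V / (2 * N)) := mul_le_mul_of_nonneg_left h4 hB0
  have h7 : θ * ∑ P ∈ Q, (P.card : ℝ) ≤ θ * (Fintype.card V + Fintype.card V / (2 * N)) :=
    mul_le_mul_of_nonneg_left h3 hθ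
  have h8 : (B + θ) * Fintype.card V / (2 * N) = B * (Fintype.card V / (2 * N)) +
    θ * (Fintype.card V / (2 * N)) := by ring
  rw [h8]
  linarith

theorem InF.fin {F : Cls} (hF : MinorClosed F) {V : Type} [Fintype V] {G : SimpleGraph V}
    (h : InF F G) {n : ℕ} (hn : Fintype.card V = n) : ∃ G' ∈ F n, e2 G' = e2 G := by
  set e := Fintype.equivFinOfCardEq hn with he
  refine ⟨G.comap e.symm, ?_, e2_congr e.symm fun _ _ => Iff.rfl⟩
  exact (inF_fin hF).1 (h.minor (minor_of_inj e.symm e.symm.injective fun _ _ h => h))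

/-- **Extraction of a good type.** -/
theorem exists_good {F : Cls} (hF : MinorClosed F) {B : ℝ} (hB0 : 0 ≤ B)
    (hB : ∀ n, ∀ G ∈ F n, (e2 G : ℝ) ≤ B * n) {t : ℕ} (ht : 1 ≤ t)
    (hK : ∀ n, ∀ G ∈ F n, KFree t G.Adj) {ρ ε : ℝ} (hε : 0 < ε) (hρε : 0 ≤ ρ - 2 * ε)
    (hfreq : ∀ n0 : ℕ, ∃ n ≥ n0, ∃ G ∈ F n, 2 * (ρ - ε) * n < e2 G) :
    ∃ (r c : ℕ) (H : SimpleGraph (Fin c)) (A : Fin r → Fin c → Prop), Good F H A ∧
      2 * (ρ - 2 * ε) * c < tau2 H A := by
  classical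
  by_contra hcon
  push Not at hcon
  set θ : ℝ := 2 * (ρ - 2 * ε) with hθdef
  have hθ : 0 ≤ θ := by rw [hθdef]; linarith
  obtain ⟨N, hN⟩ := exists_nat_gt ((B + θ) / (2 * ε))
  have hN0 : (0 : ℝ) < N := lt_of_le_of_lt (by positivity) hN
  have hN1 : 1 ≤ N := by
    have : 0 < N := by exact_mod_cast hN0
    omega
  obtain ⟨k, hkdef⟩ : ∃ k : ℕ, k = 4096 * N ^ 2 * t ^ 3 := ⟨_, rfl⟩
  obtain ⟨κ, hκ⟩ := exists_kappa (F := F) k θ (fun r c H A hlt hg =>
    absurd (hcon r c H A hg) (not_le.2 hlt))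
  obtain ⟨M, hM⟩ := sunflower (Tk k * κ + 2) k
  obtain ⟨n0, hn0⟩ := exists_nat_gt ((M : ℝ) * k ^ 2 / ε)
  obtain ⟨n, hn, G, hG, hGe⟩ := hfreq n0
  obtain ⟨Q, hQ, hQs⟩ := decomp (fun x y h => SimpleGraph.Adj.symm h) (hK n G hG) ht N hN1 k hkdef.ge
    (univ : Finset (Fin n))
  rw [card_univ] at hQs
  have hBS : (e2 (G.comap (fun x : {x // x ∈ Sh Q} => (x : Fin n))) : ℝ) ≤ B * (Sh Q).card := by
    obtain ⟨G', hG', he⟩ := InF.fin hF ((inF_of_mem hG).minor (minor_of_inj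
      (H := G.comap (fun x : {x // x ∈ Sh Q} => (x : Fin n))) (fun x : {x // x ∈ Sh Q} => (x : Fin n))
      Subtype.val_injective fun _ _ h => h)) (Fintype.card_coe (Sh Q))
    rw [← he]
    exact hB _ G' hG'
  have h1 := many_pos G (fun x => hQ.vert x (mem_univ x))
    (fun x y h => hQ.edge x (mem_univ x) y (mem_univ y) h) hQ.small hN1 hQs hθ hB0 hBS
    (fun _ => Classical.propDecidable _)
  set Qp := Q.filter fun P => θ * P.card < eP G (Sh Q) P with hQp
  have h2 : (M : ℝ) < Qp.card := by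
    have h3 : (M : ℝ) * k ^ 2 < ε * n := by
      have h4 : (n0 : ℝ) ≤ n := by exact_mod_cast hn
      have h5 := lt_of_lt_of_le hn0 h4
      rw [div_lt_iff₀ hε] at h5
      linarith
    have h4 : (B + θ) * Fintype.card (Fin n) / (2 * N) ≤ ε * n := by
      rw [Fintype.card_fin, div_le_iff₀ (by positivity)]
      rw [div_lt_iff₀ (by positivity)] at hN
      have h5 : (0 : ℝ) ≤ n := Nat.cast_nonneg _
      have h6 := mul_le_mul_of_nonneg_right hN.le h5
      linarith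
    rw [Fintype.card_fin] at h1 h4
    have h5 : 2 * (ρ - ε) * n - θ * n = 2 * ε * n := by rw [hθdef]; ring
    have h6 : (M : ℝ) * k ^ 2 < Qp.card * (k : ℝ) ^ 2 := by
      refine lt_of_lt_of_le ?_ h1
      linarith
    exact lt_of_mul_lt_mul_right h6 (by positivity)
  have h2' : M < Qp.card := by exact_mod_cast h2
  obtain ⟨S, hSQ, hSc, K, hKS, hSK⟩ := hM (Fin n) Qp
    (fun P hP => hQ.small P (mem_filter.1 hP).1) h2'
  have hKsh : K ⊆ Sh Q := by
    obtain ⟨P1, hP1, P2, hP2, hne⟩ := one_lt_card.1 (by omega : 1 < S.card)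
    intro x hx
    exact mem_Sh.2 ⟨P1, (mem_filter.1 (hSQ hP1)).1, P2,
      (mem_filter.1 (hSQ hP2)).1, hne, hKS P1 hP1 hx, hKS P2 hP2 hx⟩
  obtain ⟨r, c, H, A, hr, hc, hlt, hm⟩ := fan_of_sunflower G k κ θ hθ S K hKS hSK
    (fun P hP => hQ.small P (mem_filter.1 (hSQ hP)).1) (fun P hP => by
      have h3 := (mem_filter.1 (hSQ hP)).2
      have h4 : eP G (Sh Q) P ≤ eP G K P := eP_anti G P hKsh
      have h5 : (eP G (Sh Q) P : ℝ) ≤ eP G K P := by exact_mod_cast h4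
      linarith) (by omega)
  exact hκ r c H A hr hc hlt ((inF_of_mem hG).minor hm)

end Pool.Agent.Work.MP_216d61_lc
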