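import Pool.Agent.Work.MP_216d61_lc.Minor

/-!
# Fans: many copies of a graph attached to the same roots
-/

set_option autoImplicit false

namespace Pool.Agent.Work.MP_216d61_lc

open Relation Set

/-- The fan: roots `R`, one copy of `H` for each `i : I`, and the root `a` is joined to the vertices
`c` of every copy with `A a c`. -/
def Fan {R C : Type*} (H : SimpleGraph C) (A : R → C → Prop) (I : Type*) :
    SimpleGraph (R ⊕ I × C) where
  Adj x y := match x, y with
    | .inl _, .inl _ => False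
    | .inl a, .inr q => A a q.2
    | .inr p, .inl b => A b p.2
    | .inr p, .inr q => p.1 = q.1 ∧ H.Adj p.2 q.2
  symm := ⟨by
    rintro (a | p) (b | q) h
    · exact h
    · exact h
    · exact h
    · exact ⟨h.1.symm, h.2.symm⟩⟩
  loopless := ⟨by
    rintro (a | p) h
    · exact h
    · exact H.loopless.irrefl _ h.2⟩

section fan

variable {R C I J : Type*} {H : SimpleGraph C} {A : R → C → Prop}

@[simp] theorem fan_ll (a b : R) : (Fan H A I).Adj (.inl a) (.inl b) ↔ False := Iff.rfl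
@[simp] theorem fan_lr (a : R) (q : I × C) : (Fan H A I).Adj (.inl a) (.inr q) ↔ A a q.2 := Iff.rfl
@[simp] theorem fan_rl (a : R) (q : I × C) : (Fan H A I).Adj (.inr q) (.inl a) ↔ A a q.2 := Iff.rfl
@[simp] theorem fan_rr (p q : I × C) :
    (Fan H A I).Adj (.inr p) (.inr q) ↔ p.1 = q.1 ∧ H.Adj p.2 q.2 := Iff.rfl

/-- The map induced by a map of the index sets. -/
def fmap (α : I → J) : R ⊕ I × C → R ⊕ J × C := Sum.map id (Prod.map α id)

theorem fmap_adj (α : I → J) {x y : R ⊕ I × C} (h : (Fan H A I).Adj x y) :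
    (Fan H A J).Adj (fmap α x) (fmap α y) := by
  rcases x with a | p <;> rcases y with b | q
  · exact h
  · exact h
  · exact h
  · exact ⟨congrArg α h.1, h.2⟩

theorem fmap_injective {α : I → J} (hα : Function.Injective α) :
    Function.Injective (fmap α : R ⊕ I × C → R ⊕ J × C) :=
  Function.Injective.sumMap Function.injective_id (Function.Injective.prodMap hα Function.injective_id)

theorem fan_minor_of_inj {α : I → J} (hα : Function.Injective α) :
    Minor (Fan H A I) (Fan H A J) :=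
  minor_of_inj (fmap α) (fmap_injective hα) fun _ _ h => fmap_adj α h

end fan

/-- All fans of the type `(H, A)` are in the class. -/
def Good (F : Cls) {R C : Type*} (H : SimpleGraph C) (A : R → C → Prop) : Prop :=
  ∀ κ : ℕ, InF F (Fan H A (Fin κ))

section good

variable {F : Cls} {R C R' C' I : Type*} {H : SimpleGraph C} {A : R → C → Prop}
  {H' : SimpleGraph C'} {A' : R' → C' → Prop}

theorem Good.fintype (h : Good F H A) (I : Type*) [Fintype I] : InF F (Fan H A I) :=
  (h (Fintype.card I)).minor (fan_minor_of_inj (Fintype.equivFin I).injective)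

theorem Good.of_minor (h : Good F H A)
    (hm : ∀ κ : ℕ, Minor (Fan H' A' (Fin κ)) (Fan H A (Fin κ))) : Good F H' A' :=
  fun κ => (h κ).minor (hm κ)

/-- Passing to a subtype (on the level of injections). -/
theorem Good.sub (h : Good F H A) (φ : C' → C) (ψ : R' → R) (hφ : Function.Injective φ)
    (hψ : Function.Injective ψ) (hH : ∀ c d, H'.Adj c d → H.Adj (φ c) (φ d))
    (hA : ∀ a c, A' a c → A (ψ a) (φ c)) : Good F H' A' := by
  refine h.of_minor fun κ => minor_of_inj (Sum.map ψ (Prod.map id φ))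
    (Function.Injective.sumMap hψ (Function.Injective.prodMap Function.injective_id hφ)) ?_
  rintro (a | p) (b | q) hab
  · exact hab
  · exact hA _ _ hab
  · exact hA _ _ hab
  · exact ⟨hab.1, hH _ _ hab.2⟩

/-- Contracting the connected graph `H` to a point. -/
theorem Good.contract (h : Good F H A) (hc : Conn H univ) (hr : ∀ a, ∃ c, A a c) :
    Good F (⊥ : SimpleGraph (Fin 1)) (fun (_ : R) (_ : Fin 1) => True) := by
  refine h.of_minor fun κ => Model.minor (f := fun x => match x with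
    | .inl a => {Sum.inl a}
    | .inr p => (fun c => Sum.inr (p.1, c)) '' univ) ⟨?_, ?_, ?_⟩
  · rintro (a | p) (b | q) hne
    · rw [disjoint_singleton]
      intro h'
      exact hne (congrArg Sum.inl (Sum.inl_injective h'))
    · rw [disjoint_left]
      rintro _ rfl ⟨c, _, hc⟩
      exact Sum.inr_ne_inl hc
    · rw [disjoint_left]
      rintro _ ⟨c, _, rfl⟩ hc
      exact Sum.inr_ne_inl hc
    · rw [disjoint_left]
      rintro _ ⟨c, _, rfl⟩ ⟨d, _, hd⟩
      apply hne
      have h0 : (Sum.inr (q.1, d) : R ⊕ Fin κ × C) = Sum.inr (p.1, c) := hd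
      have h1 : q.1 = p.1 := (Prod.ext_iff.1 (Sum.inr_injective h0)).1
      have h2 : q.2 = p.2 := Subsingleton.elim _ _
      exact congrArg Sum.inr (Prod.ext h1.symm h2.symm)
  · rintro (a | p)
    · exact conn_singleton _
    · exact hc.image _ fun a _ b _ hab => ⟨rfl, hab⟩
  · rintro (a | p) (b | q) hab
    · exact hab.elim
    · obtain ⟨c, hc⟩ := hr a
      exact ⟨_, rfl, _, ⟨c, trivial, rfl⟩, hc⟩
    · obtain ⟨c, hc⟩ := hr b
      exact ⟨_, ⟨c, trivial, rfl⟩, _, rfl, hc⟩
    · exact absurd hab.2 (by simp)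

/-- Preimages of connected sets containing a root are connected. -/
theorem conn_preimage {J : Type*} (β : J → I) {s : Set (R ⊕ I × C)}
    (hs : Conn (Fan H A I) s) {a : R} (ha : Sum.inl a ∈ s)
    (hsec : ∀ j : J, ∃ α : I → J, (∀ i, β (α i) = i) ∧ α (β j) = j) [Nonempty J] :
    Conn (Fan H A J) (fmap β ⁻¹' s) := by
  have hlift : ∀ (α : I → J), (∀ i, β (α i) = i) → ∀ x ∈ s,
      ReflTransGen (fun u v => (Fan H A J).Adj u v ∧ u ∈ fmap β ⁻¹' s ∧ v ∈ fmap β ⁻¹' s)
        (fmap α x) (Sum.inl a) := by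
    intro α hα x hx
    have hβα : ∀ y : R ⊕ I × C, fmap β (fmap α y) = y := by
      rintro (b | p)
      · rfl
      · show Sum.inr (β (α p.1), p.2) = Sum.inr p
        rw [hα]
    have h1 := hs.2 x hx _ ha
    exact ReflTransGen.lift
      (p := fun u v => (Fan H A J).Adj u v ∧ u ∈ fmap β ⁻¹' s ∧ v ∈ fmap β ⁻¹' s) (fmap α)
      (fun u v huv => ⟨fmap_adj α huv.1, by
        show fmap β (fmap α u) ∈ s
        rw [hβα]; exact huv.2.1, by
        show fmap β (fmap α v) ∈ s
        rw [hβα]; exact huv.2.2⟩) _ _ h1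
  refine conn_of_center (x0 := Sum.inl a) ha ?_
  rintro (b | p) hx
  · obtain ⟨j⟩ := ‹Nonempty J›
    obtain ⟨α, hα, _⟩ := hsec j
    exact hlift α hα _ hx
  · obtain ⟨α, hα, hα2⟩ := hsec p.1
    have h1 := hlift α hα _ hx
    have h2 : fmap α (fmap β (Sum.inr p : R ⊕ J × C)) = Sum.inr p := by
      show Sum.inr (α (β p.1), p.2) = Sum.inr p
      rw [hα2]
    rw [h2] at h1
    exact h1

end good

/-! ### Minors of fans -/

section minors

variable {R C I W : Type*} {H : SimpleGraph C} {A : R → C → Prop} {K : SimpleGraph W}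
  {f : W → Set (R ⊕ I × C)}

/-- a branch set without root lies in one copy -/
theorem copy_of_no_root {s : Set (R ⊕ I × C)} (hs : Conn (Fan H A I) s)
    (hr : ∀ a, Sum.inl a ∉ s) : ∃ i, ∀ x ∈ s, ∃ c, x = Sum.inr (i, c) := by
  obtain ⟨x0, hx0⟩ := hs.1
  rcases x0 with a | p
  · exact absurd hx0 (hr a)
  · refine ⟨p.1, ?_⟩
    intro y hy
    have h1 := hs.2 _ hx0 y hy
    have key : ∀ y, ReflTransGen (fun a b => (Fan H A I).Adj a b ∧ a ∈ s ∧ b ∈ s)
        (Sum.inr p) y → ∃ c, y = Sum.inr (p.1, c) := by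
      intro y hxy
      induction hxy with
      | refl => exact ⟨p.2, rfl⟩
      | @tail y z _ hst ih =>
        obtain ⟨c, rfl⟩ := ih
        rcases z with b | q
        · exact absurd hst.2.2 (hr b)
        · have h2 := hst.1.1
          exact ⟨q.2, by
            show Sum.inr q = Sum.inr (p.1, q.2)
            have h3 : p.1 = q.1 := h2
            rw [h3]⟩
    exact key y h1

theorem Model.good {F : Cls} {κ : ℕ} {f : W → Set (R ⊕ Fin κ × C)}
    (hm : Model K (Fan H A (Fin κ)) f) (hg : Good F H A) (i : Fin κ) {R' C' : Type*}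
    (ρ : R' → W) (γ : C' → W) (hρ : Function.Injective ρ) (hγ : Function.Injective γ)
    (hR : ∀ a, ∃ b, Sum.inl b ∈ f (ρ a)) (hC : ∀ c, ∀ x ∈ f (γ c), ∃ d, x = Sum.inr (i, d)) :
    Good F (K.comap γ) (fun (a : R') (c : C') => K.Adj (ρ a) (γ c)) := by
  intro κ'
  refine (hg.fintype (Fin κ ⊕ Fin κ')).minor ?_
  set β : Fin κ ⊕ Fin κ' → Fin κ := Sum.elim id (fun _ => i) with hβ
  set α : Fin κ' → Fin κ → Fin κ ⊕ Fin κ' := fun l j => if j = i then Sum.inr l else Sum.inl j with hα
  have hβα : ∀ l j, β (α l j) = j := by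
    intro l j
    by_cases h : j = i
    · simp [hα, hβ, h]
    · simp [hα, hβ, h]
  have hinj : ∀ l, Function.Injective (α l) := fun l =>
    Function.LeftInverse.injective (g := β) (hβα l)
  have hfβα : ∀ l (x : R ⊕ Fin κ × C), fmap β (fmap (α l) x) = x := by
    rintro l (a | p)
    · rfl
    · show Sum.inr (β (α l p.1), p.2) = Sum.inr p
      rw [hβα]
  have hsec : ∀ j : Fin κ ⊕ Fin κ', ∃ α : Fin κ → Fin κ ⊕ Fin κ', (∀ i, β (α i) = i) ∧
      α (β j) = j := by
    rintro (j | l)
    · exact ⟨Sum.inl, fun _ => rfl, rfl⟩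
    · refine ⟨α l, hβα l, ?_⟩
      simp [hα, hβ]
  have hne : Nonempty (Fin κ ⊕ Fin κ') := ⟨Sum.inl i⟩
  refine Model.minor (f := fun x => match x with
    | .inl a => fmap β ⁻¹' f (ρ a)
    | .inr p => fmap (α p.1) '' f (γ p.2)) ⟨?_, ?_, ?_⟩
  · rintro (a | p) (b | q) hne
    · rw [disjoint_left]
      intro x hx hx'
      have := hm.eq_of_mem hx hx'
      exact hne (congrArg Sum.inl (hρ this))
    · rw [disjoint_left]
      rintro _ hx ⟨x, hx', rfl⟩
      have hx2 : x ∈ f (ρ a) := by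
        have : fmap β (fmap (α q.1) x) ∈ f (ρ a) := hx
        rwa [hfβα] at this
      obtain ⟨b, hb⟩ := hR a
      have h1 := hm.eq_of_mem hx2 hx'
      rw [h1] at hb
      obtain ⟨d, hd⟩ := hC _ _ hb
      exact Sum.inl_ne_inr hd
    · rw [disjoint_right]
      rintro _ hx ⟨x, hx', rfl⟩
      have hx2 : x ∈ f (ρ b) := by
        have : fmap β (fmap (α p.1) x) ∈ f (ρ b) := hx
        rwa [hfβα] at this
      obtain ⟨b', hb'⟩ := hR b
      have h1 := hm.eq_of_mem hx2 hx'
      rw [h1] at hb'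
      obtain ⟨d, hd⟩ := hC _ _ hb'
      exact Sum.inl_ne_inr hd
    · rw [disjoint_left]
      rintro _ ⟨x, hx, rfl⟩ ⟨y, hy, hxy⟩
      have h1 : y = x := by
        have := congrArg (fmap β) hxy
        rwa [hfβα, hfβα] at this
      subst h1
      have h2 := hγ (hm.eq_of_mem hx hy)
      obtain ⟨d, rfl⟩ := hC _ _ hx
      have h3 : (Sum.inr (α q.1 i, d) : R ⊕ (Fin κ ⊕ Fin κ') × C) = Sum.inr (α p.1 i, d) := hxy
      have h4 : α q.1 i = α p.1 i := congrArg Prod.fst (Sum.inr_injective h3)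
      simp only [hα, if_true] at h4
      have h5 : q.1 = p.1 := Sum.inr_injective h4
      exact hne (congrArg Sum.inr (Prod.ext h5.symm h2))
  · rintro (a | p)
    · obtain ⟨b, hb⟩ := hR a
      exact conn_preimage β (hm.conn _) hb hsec
    · exact (hm.conn _).image _ fun x _ y _ hxy => fmap_adj _ hxy
  · have key : ∀ (a : R') (q : Fin κ' × C'), K.Adj (ρ a) (γ q.2) →
        ∃ x ∈ fmap β ⁻¹' f (ρ a), ∃ y ∈ fmap (α q.1) '' f (γ q.2),
          (Fan H A (Fin κ ⊕ Fin κ')).Adj x y := by
      intro a q hab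
      obtain ⟨x, hx, y, hy, hxy⟩ := hm.adj _ _ hab
      refine ⟨fmap (α q.1) x, ?_, fmap (α q.1) y, mem_image_of_mem _ hy, fmap_adj _ hxy⟩
      show fmap β (fmap (α q.1) x) ∈ f (ρ a)
      rw [hfβα]; exact hx
    rintro (a | p) (b | q) hab
    · exact hab.elim
    · exact key a q hab
    · obtain ⟨x, hx, y, hy, hxy⟩ := key b p hab
      exact ⟨y, hy, x, hx, hxy.symm⟩
    · obtain ⟨h1, h2⟩ := hab
      obtain ⟨x, hx, y, hy, hxy⟩ := hm.adj _ _ h2
      refine ⟨fmap (α p.1) x, mem_image_of_mem _ hx, fmap (α q.1) y, mem_image_of_mem _ hy, ?_⟩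
      rw [← h1]
      exact fmap_adj _ hxy

end minors

end Pool.Agent.Work.MP_216d61_lc
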