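import Pool.Agent.Work.MP_216d61_lc.Comp

/-!
# Interface for the second half: limiting densities which are attained in bounded treewidth

All statements `Stmt_X` are to be proved in `Work/MP_216d61_lc_<seat>/X.lean` as
`theorem stmt_X : Stmt_X` (a block may assume other `Stmt_Y` as hypotheses).
-/

set_option autoImplicit false

namespace Pool.Agent.Work.MP_216d61_lc

/-- `G` has treewidth at most `w`: after renumbering the vertices, `G` is a subgraph of the chordal
graph in which the earlier neighbours of `v` are the elements of `N v`; these form a clique with at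
most `w` vertices. -/
def TWle (w : ℕ) {n : ℕ} (G : SimpleGraph (Fin n)) : Prop :=
  ∃ (e : Equiv.Perm (Fin n)) (N : Fin n → Finset (Fin n)),
    (∀ v, ∀ u ∈ N v, u < v) ∧ (∀ v, (N v).card ≤ w) ∧
    (∀ v, ∀ u ∈ N v, ∀ u' ∈ N v, u' < u → u' ∈ N u) ∧
    (∀ u v, u < v → G.Adj (e u) (e v) → u ∈ N v)

/-- For some `w`, the graphs of treewidth at most `w` in `M_ρ` have densities arbitrarily close to
`ρ`. -/
def BT (ρ : ℝ) : Prop :=
  ∃ w : ℕ, ∀ ε : ℝ, 0 < ε → ∃ m : ℕ, 1 ≤ m ∧ ∃ G : SimpleGraph (Fin m), TWle w G ∧ MR ρ G ∧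
    2 * (ρ - ε) * m < e2 G

/-- Glue the type `(H, A)` with root set `R` to the graph `Z` along `l : R → V`. -/
def Glue {R C V : Type} (Z : SimpleGraph V) (l : R → V) (H : SimpleGraph C) (A : R → C → Prop) :
    SimpleGraph (V ⊕ C) where
  Adj x y := match x, y with
    | .inl u, .inl v => Z.Adj u v
    | .inl u, .inr c => ∃ a, l a = u ∧ A a c
    | .inr c, .inl u => ∃ a, l a = u ∧ A a c
    | .inr c, .inr d => H.Adj c d
  symm := ⟨by
    rintro (u | c) (v | d) h
    · exact h.symm
    · exact h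
    · exact h
    · exact h.symm⟩
  loopless := ⟨by
    rintro (u | c) h
    · exact Z.loopless.irrefl _ h
    · exact H.loopless.irrefl _ h⟩

/-- Two types with the same root set are equivalent if they behave in the same way in all
gluings. -/
def Eqv (ρ : ℝ) {R C C' : Type} (H : SimpleGraph C) (A : R → C → Prop) (H' : SimpleGraph C')
    (A' : R → C' → Prop) : Prop :=
  ∀ (V : Type) (Z : SimpleGraph V) (l : R → V), Function.Injective l →
    (MR ρ (Glue Z l H A) ↔ MR ρ (Glue Z l H' A'))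

/-- an explicit bound for the number of classes -/
def NB (s a : ℕ) : ℕ := 2 ^ ((s + 1) ^ s * 2 ^ (s * s) * 2 ^ (s * s) * (2 * a * s + 3))

/-- **Block FI** (finite index). -/
def Stmt_FI : Prop :=
  ∀ (a b : ℕ) (R : Type) [Fintype R] (C : ℕ → Type) (H : ∀ i, SimpleGraph (C i))
    (A : ∀ i, R → C i → Prop), ∃ i j, i < j ∧ j ≤ NB (Fintype.card R) a ∧
      Eqv ((a : ℝ) / ((b : ℝ) + 1)) (H i) (A i) (H j) (A j)

/-- The data of a periodic chain: roots `R`, period `M`. -/
structure Chn (R M : Type) where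
  /-- edges inside a period -/
  E0 : SimpleGraph M
  /-- edges from a period to the next one -/
  E1 : M → M → Prop
  /-- edges from a root to every period -/
  A : R → M → Prop

/-- The chain with `n` periods. -/
def Chn.G {R M : Type} (c : Chn R M) (n : ℕ) : SimpleGraph (R ⊕ Fin n × M) where
  Adj x y := match x, y with
    | .inl _, .inl _ => False
    | .inl a, .inr q => c.A a q.2
    | .inr p, .inl b => c.A b p.2
    | .inr p, .inr q => (p.1 = q.1 ∧ c.E0.Adj p.2 q.2) ∨
        ((p.1 : ℕ) + 1 = q.1 ∧ c.E1 p.2 q.2) ∨ ((q.1 : ℕ) + 1 = p.1 ∧ c.E1 q.2 p.2)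
  symm := ⟨by
    rintro (a | p) (b | q) h
    · exact h
    · exact h
    · exact h
    · rcases h with ⟨h1, h2⟩ | h | h
      · exact Or.inl ⟨h1.symm, h2.symm⟩
      · exact Or.inr (Or.inr h)
      · exact Or.inr (Or.inl h)⟩
  loopless := ⟨by
    rintro (a | p) h
    · exact h
    · rcases h with ⟨_, h2⟩ | h | h
      · exact c.E0.loopless.irrefl _ h2
      · have := h.1; omega
      · have := h.1; omega⟩

open Classical in
/-- twice the number of edges per period -/
noncomputable def Chn.ce {R M : Type} [Fintype R] [Fintype M] (c : Chn R M) : ℕ :=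
  e2 c.E0 + 2 * (Finset.univ.filter fun p : M × M => c.E1 p.1 p.2).card +
    2 * (Finset.univ.filter fun p : R × M => c.A p.1 p.2).card

/-- **Block CH** (pumping chains; uses `Stmt_FI`). -/
def Stmt_CH : Prop :=
  ∀ (a b r m : ℕ) (c : Chn (Fin r) (Fin m)),
    MR ((a : ℝ) / ((b : ℝ) + 1)) (c.G (NB (r + m) a + 2)) →
    ∀ n, MR ((a : ℝ) / ((b : ℝ) + 1)) (c.G n)

/-- exact periodic chain -/
def Exact (a b : ℕ) {r m : ℕ} (c : Chn (Fin r) (Fin m)) : Prop :=
  1 ≤ m ∧ (b + 1) * c.ce = 2 * a * m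

/-- **Block SD** (an exact chain shows `BT`; treewidth and edge count of chains). -/
def Stmt_SD : Prop :=
  ∀ (a b r m : ℕ) (c : Chn (Fin r) (Fin m)), Exact a b c →
    (∀ n, MR ((a : ℝ) / ((b : ℝ) + 1)) (c.G n)) → BT ((a : ℝ) / ((b : ℝ) + 1))

/-- **Block EX** (a chain exists; follows from `TM`, `CX`, `ET`). -/
def Stmt_EX : Prop :=
  ∀ (a b : ℕ), BT ((a : ℝ) / ((b : ℝ) + 1)) → ∃ (r m : ℕ) (c : Chn (Fin r) (Fin m)),
    Exact a b c ∧ ∀ n, MR ((a : ℝ) / ((b : ℝ) + 1)) (c.G n)

/-- **Block CO** (computability of the certificate). -/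
def Stmt_CO : Prop :=
  REPred fun p : ℕ × ℕ => ∃ (r m : ℕ) (c : Chn (Fin r) (Fin m)), Exact p.1 p.2 c ∧
    MR ((p.1 : ℝ) / ((p.2 : ℝ) + 1)) (c.G (NB (r + m) p.1 + 2))

/-! ### Terms for graphs of bounded treewidth -/

/-- Terms: `leaf` adds nothing; `add a E t u` adds a new vertex `x` adjacent to the current vertices
with labels in `E \ {a}`, then `t` is executed with `x` as the vertex with label `a`, and `u` is
executed with the old labels. -/
inductive Tm (s : ℕ) : Type
  | leaf : Tm s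
  | add (a : Fin s) (E : Finset (Fin s)) (t u : Tm s) : Tm s

/-- the new vertices of a term -/
def Tm.I {s : ℕ} : Tm s → Type
  | .leaf => Empty
  | .add _ _ t u => Unit ⊕ (t.I ⊕ u.I)

/-- adjacency between the labels and the new vertices -/
def Tm.A {s : ℕ} : (t : Tm s) → Fin s → t.I → Prop
  | .leaf => fun _ x => x.elim
  | .add a E t u => fun b x => match x with
    | .inl _ => b ∈ E ∧ b ≠ a
    | .inr (.inl c) => b ≠ a ∧ t.A b c
    | .inr (.inr c) => u.A b c

/-- adjacency between the new vertices -/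
def Tm.R {s : ℕ} : (t : Tm s) → t.I → t.I → Prop
  | .leaf => fun x _ => x.elim
  | .add a _ t u => fun x y => match x, y with
    | .inl _, .inl _ => False
    | .inl _, .inr (.inl c) => t.A a c
    | .inl _, .inr (.inr _) => False
    | .inr (.inl c), .inl _ => t.A a c
    | .inr (.inr _), .inl _ => False
    | .inr (.inl c), .inr (.inl d) => t.R c d
    | .inr (.inl _), .inr (.inr _) => False
    | .inr (.inr _), .inr (.inl _) => False
    | .inr (.inr c), .inr (.inr d) => u.R c d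

theorem Tm.R_symm {s : ℕ} : ∀ (t : Tm s) (x y : t.I), t.R x y → t.R y x
  | .leaf, x, _, _ => x.elim
  | .add _ _ t u, x, y, h => by
    rcases x with x | x | x <;> rcases y with y | y | y
    · exact h
    · exact h
    · exact h
    · exact h
    · exact Tm.R_symm t _ _ h
    · exact h
    · exact h
    · exact h
    · exact Tm.R_symm u _ _ h

theorem Tm.R_irrefl {s : ℕ} : ∀ (t : Tm s) (x : t.I), ¬ t.R x x
  | .leaf, x => x.elim
  | .add _ _ t u, x => by
    rcases x with x | x | x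
    · exact fun h => h
    · exact Tm.R_irrefl t _
    · exact Tm.R_irrefl u _

/-- the graph on the new vertices -/
def Tm.H {s : ℕ} (t : Tm s) : SimpleGraph t.I where
  Adj := t.R
  symm := ⟨fun _ _ h => t.R_symm _ _ h⟩
  loopless := ⟨fun _ h => t.R_irrefl _ h⟩

/-- number of new vertices -/
def Tm.size {s : ℕ} : Tm s → ℕ
  | .leaf => 0
  | .add _ _ t u => 1 + (t.size + u.size)

/-- number of edges -/
def Tm.edg {s : ℕ} : Tm s → ℕ
  | .leaf => 0
  | .add a E t u => (E.erase a).card + (t.edg + u.edg)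

/-- the graph of the term, with `s` additional vertices for the labels -/
def Tm.B {s : ℕ} (t : Tm s) : SimpleGraph (Fin s ⊕ t.I) := Glue ⊥ id t.H t.A

/-- **Block ET** (from an elimination ordering to a term). -/
def Stmt_ET : Prop :=
  ∀ (w n : ℕ) (G : SimpleGraph (Fin n)), TWle w G → ∃ t : Tm (w + 1), t.size = n ∧
    2 * t.edg = e2 G ∧ ∀ ρ : ℝ, 0 ≤ ρ → MR ρ G → MR ρ t.B

/-- Terms with a hole. -/
inductive Ctx (s : ℕ) : Type
  | hole : Ctx s
  | left (a : Fin s) (E : Finset (Fin s)) (c : Ctx s) (u : Tm s) : Ctx s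
  | right (a : Fin s) (E : Finset (Fin s)) (t : Tm s) (c : Ctx s) : Ctx s

def Ctx.plug {s : ℕ} : Ctx s → Tm s → Tm s
  | .hole, t => t
  | .left a E c u, t => .add a E (c.plug t) u
  | .right a E t' c, t => .add a E t' (c.plug t)

def Ctx.size {s : ℕ} : Ctx s → ℕ
  | .hole => 0
  | .left _ _ c u => 1 + (c.size + u.size)
  | .right _ _ t c => 1 + (t.size + c.size)

def Ctx.edg {s : ℕ} : Ctx s → ℕ
  | .hole => 0
  | .left a E c u => (E.erase a).card + (c.edg + u.edg)
  | .right a E t c => (E.erase a).card + (t.edg + c.edg)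

/-- equivalence of terms -/
def TEq (ρ : ℝ) {s : ℕ} (t t' : Tm s) : Prop := Eqv ρ t.H t.A t'.H t'.A

/-- **Block TM** (a pumpable context without deficiency exists; uses `Stmt_FI` and the congruence
property of contexts). -/
def Stmt_TM : Prop :=
  ∀ (a b s : ℕ), (∀ k : ℕ, ∃ t : Tm s, MR ((a : ℝ) / ((b : ℝ) + 1)) t.B ∧
      (k : ℤ) * ((a : ℤ) * t.size - (b + 1) * t.edg + a * s + 1) < t.size) →
    ∃ (c : Ctx s) (t : Tm s), c ≠ .hole ∧ TEq ((a : ℝ) / ((b : ℝ) + 1)) (c.plug t) t ∧
      MR ((a : ℝ) / ((b : ℝ) + 1)) t.B ∧ a * c.size ≤ (b + 1) * c.edg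

/-- **Block CX** (from a pumpable context to a periodic chain). -/
def Stmt_CX : Prop :=
  ∀ (a b s : ℕ) (c : Ctx s) (t : Tm s), c ≠ .hole →
    TEq ((a : ℝ) / ((b : ℝ) + 1)) (c.plug t) t → MR ((a : ℝ) / ((b : ℝ) + 1)) t.B →
    a * c.size ≤ (b + 1) * c.edg →
    ∃ (r m : ℕ) (c : Chn (Fin r) (Fin m)), Exact a b c ∧
      ∀ n, MR ((a : ℝ) / ((b : ℝ) + 1)) (c.G n)

end Pool.Agent.Work.MP_216d61_lc
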