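import Mathlib

/-!
# Minors of simple graphs
-/

set_option autoImplicit false

namespace Pool.Agent.Work.MP_216d61_lc

open Relation Set

/-- `s` is a nonempty connected set of vertices. -/
def Conn {V : Type*} (G : SimpleGraph V) (s : Set V) : Prop :=
  s.Nonempty ∧ ∀ x ∈ s, ∀ y ∈ s, ReflTransGen (fun a b => G.Adj a b ∧ a ∈ s ∧ b ∈ s) x y

section conn

variable {V W : Type*} {G : SimpleGraph V} {s t : Set V}

theorem conn_iff : (G.induce s).Connected ↔ Conn G s := by
  rw [SimpleGraph.connected_iff]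
  constructor
  · rintro ⟨h1, h2⟩
    refine ⟨nonempty_coe_sort.1 h2, ?_⟩
    intro x hx y hy
    have h3 := h1 ⟨x, hx⟩ ⟨y, hy⟩
    rw [SimpleGraph.reachable_iff_reflTransGen] at h3
    have h4 := ReflTransGen.lift (p := fun a b => G.Adj a b ∧ a ∈ s ∧ b ∈ s)
      (fun a : s => (a : V)) (fun a b hab => ⟨hab, a.2, b.2⟩) _ _ h3
    exact h4
  · rintro ⟨h1, h2⟩
    refine ⟨?_, nonempty_coe_sort.2 h1⟩
    rintro ⟨x, hx⟩ ⟨y, hy⟩
    rw [SimpleGraph.reachable_iff_reflTransGen]
    have key : ∀ z, ReflTransGen (fun a b => G.Adj a b ∧ a ∈ s ∧ b ∈ s) x z →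
        ∀ hz : z ∈ s, ReflTransGen (G.induce s).Adj ⟨x, hx⟩ ⟨z, hz⟩ := by
      intro z hz
      induction hz with
      | refl => intro _; exact ReflTransGen.refl
      | tail _ h ih =>
        intro hz
        exact (ih h.2.1).tail h.1
    exact key y (h2 x hx y hy) hy

theorem Conn.nonempty (h : Conn G s) : s.Nonempty := h.1

theorem link_mono {x y : V} (h : s ⊆ t)
    (hxy : ReflTransGen (fun a b => G.Adj a b ∧ a ∈ s ∧ b ∈ s) x y) :
    ReflTransGen (fun a b => G.Adj a b ∧ a ∈ t ∧ b ∈ t) x y :=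
  ReflTransGen.mono (fun _ _ hab => ⟨hab.1, h hab.2.1, h hab.2.2⟩) _ _ hxy

theorem link_symm {x y : V}
    (hxy : ReflTransGen (fun a b => G.Adj a b ∧ a ∈ s ∧ b ∈ s) x y) :
    ReflTransGen (fun a b => G.Adj a b ∧ a ∈ s ∧ b ∈ s) y x := by
  induction hxy with
  | refl => exact ReflTransGen.refl
  | tail _ h ih => exact ReflTransGen.head ⟨h.1.symm, h.2.2, h.2.1⟩ ih

theorem conn_singleton (x : V) : Conn G {x} := by
  refine ⟨⟨x, rfl⟩, ?_⟩
  intro a ha b hb
  rw [mem_singleton_iff] at ha hb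
  subst ha
  subst hb
  exact ReflTransGen.refl

/-- The image of a connected set under a homomorphism. -/
theorem Conn.image {K : SimpleGraph W} (h : Conn G s) (φ : V → W)
    (hφ : ∀ a ∈ s, ∀ b ∈ s, G.Adj a b → K.Adj (φ a) (φ b)) : Conn K (φ '' s) := by
  refine ⟨h.1.image φ, ?_⟩
  rintro _ ⟨x, hx, rfl⟩ _ ⟨y, hy, rfl⟩
  exact ReflTransGen.lift φ (fun a b hab => ⟨hφ a hab.2.1 b hab.2.2 hab.1,
    mem_image_of_mem φ hab.2.1, mem_image_of_mem φ hab.2.2⟩) _ _ (h.2 x hx y hy)

/-- It is enough to link every point to a fixed one. -/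
theorem conn_of_center {x0 : V} (hx0 : x0 ∈ s)
    (h : ∀ x ∈ s, ReflTransGen (fun a b => G.Adj a b ∧ a ∈ s ∧ b ∈ s) x x0) : Conn G s :=
  ⟨⟨x0, hx0⟩, fun x hx y hy => (h x hx).trans (link_symm (h y hy))⟩

end conn

/-- `H` is a minor of `G`. -/
def Minor {W V : Type*} (H : SimpleGraph W) (G : SimpleGraph V) : Prop :=
  ∃ f : W → Set V, (∀ i j, i ≠ j → Disjoint (f i) (f j)) ∧ (∀ i, (G.induce (f i)).Connected) ∧
    (∀ i j, H.Adj i j → ∃ a ∈ f i, ∃ b ∈ f j, G.Adj a b)

/-- A minor model with the elementary notion of connectedness. -/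
structure Model {W V : Type*} (H : SimpleGraph W) (G : SimpleGraph V) (f : W → Set V) : Prop where
  disj : ∀ i j, i ≠ j → Disjoint (f i) (f j)
  conn : ∀ i, Conn G (f i)
  adj : ∀ i j, H.Adj i j → ∃ a ∈ f i, ∃ b ∈ f j, G.Adj a b

section minor

variable {U V W : Type*} {H : SimpleGraph W} {G : SimpleGraph V} {K : SimpleGraph U}

theorem minor_iff : Minor H G ↔ ∃ f, Model H G f := by
  constructor
  · rintro ⟨f, h1, h2, h3⟩
    exact ⟨f, h1, fun i => conn_iff.1 (h2 i), h3⟩
  · rintro ⟨f, h1, h2, h3⟩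
    exact ⟨f, h1, fun i => conn_iff.2 (h2 i), h3⟩

theorem Model.minor {f : W → Set V} (h : Model H G f) : Minor H G := minor_iff.2 ⟨f, h⟩

theorem Model.eq_of_mem {f : W → Set V} (h : Model H G f) {i j : W} {x : V} (hi : x ∈ f i)
    (hj : x ∈ f j) : i = j := by
  by_contra hne
  exact disjoint_left.1 (h.disj i j hne) hi hj

theorem Minor.trans (h1 : Minor H G) (h2 : Minor G K) : Minor H K := by
  rw [minor_iff] at h1 h2
  obtain ⟨f, hf⟩ := h1
  obtain ⟨g, hg⟩ := h2
  refine Model.minor (f := fun i => ⋃ v ∈ f i, g v) ⟨?_, ?_, ?_⟩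
  · intro i j hij
    rw [disjoint_left]
    intro x hx hx'
    simp only [mem_iUnion, exists_prop] at hx hx'
    obtain ⟨v, hv, hxv⟩ := hx
    obtain ⟨w, hw, hxw⟩ := hx'
    have : v = w := hg.eq_of_mem hxv hxw
    subst this
    exact disjoint_left.1 (hf.disj i j hij) hv hw
  · intro i
    have hsub : ∀ v ∈ f i, g v ⊆ ⋃ v ∈ f i, g v := fun v hv => subset_biUnion_of_mem hv
    have key : ∀ v w, v ∈ f i →
        ReflTransGen (fun a b => G.Adj a b ∧ a ∈ f i ∧ b ∈ f i) v w →
        ∀ x ∈ g v, ∀ y ∈ g w,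
        ReflTransGen (fun a b => K.Adj a b ∧ a ∈ (⋃ v ∈ f i, g v) ∧ b ∈ ⋃ v ∈ f i, g v) x y := by
      intro v w hv hvw
      induction hvw with
      | refl =>
        intro x hx y hy
        exact link_mono (hsub v hv) ((hg.conn v).2 x hx y hy)
      | @tail w' w _ hst ih =>
        intro x hx y hy
        obtain ⟨a, ha, b, hb, hab⟩ := hg.adj w' w hst.1
        refine (ih x hx a ha).trans ?_
        refine ReflTransGen.head ⟨hab, hsub _ hst.2.1 ha, hsub _ hst.2.2 hb⟩ ?_
        exact link_mono (hsub w hst.2.2) ((hg.conn w).2 b hb y hy)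
    obtain ⟨v0, hv0⟩ := (hf.conn i).1
    refine ⟨?_, ?_⟩
    · obtain ⟨x, hx⟩ := (hg.conn v0).1
      exact ⟨x, hsub v0 hv0 hx⟩
    · intro x hx y hy
      simp only [mem_iUnion, exists_prop] at hx hy
      obtain ⟨v, hv, hxv⟩ := hx
      obtain ⟨w, hw, hyw⟩ := hy
      exact key v w hv ((hf.conn i).2 v hv w hw) x hxv y hyw
  · intro i j hij
    obtain ⟨v, hv, w, hw, hvw⟩ := hf.adj i j hij
    obtain ⟨a, ha, b, hb, hab⟩ := hg.adj v w hvw
    exact ⟨a, mem_biUnion hv ha, b, mem_biUnion hw hb, hab⟩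

/-- An injective homomorphism gives a minor. -/
theorem minor_of_inj (φ : W → V) (hinj : Function.Injective φ)
    (hφ : ∀ i j, H.Adj i j → G.Adj (φ i) (φ j)) : Minor H G := by
  refine Model.minor (f := fun i => {φ i}) ⟨?_, fun i => conn_singleton _, ?_⟩
  · intro i j hij
    rw [disjoint_singleton]
    exact fun h => hij (hinj h)
  · intro i j hij
    exact ⟨φ i, rfl, φ j, rfl, hφ i j hij⟩

theorem Minor.refl (G : SimpleGraph V) : Minor G G :=
  minor_of_inj id Function.injective_id fun _ _ h => h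

end minor

/-- A class of finite graphs. -/
abbrev Cls := (n : ℕ) → Set (SimpleGraph (Fin n))

def MinorClosed (F : Cls) : Prop := ∀ (m k : ℕ) (H : SimpleGraph (Fin m)) (G : SimpleGraph (Fin k)),
  G ∈ F k → Minor H G → H ∈ F m

/-- The graph `G` (on an arbitrary type) is a minor of a graph of the class. -/
def InF (F : Cls) {V : Type*} (G : SimpleGraph V) : Prop :=
  ∃ (k : ℕ) (G' : SimpleGraph (Fin k)), G' ∈ F k ∧ Minor G G'

section InF

variable {V W : Type*} {H : SimpleGraph W} {G : SimpleGraph V} {F : Cls}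

theorem InF.minor (h : InF F G) (hm : Minor H G) : InF F H := by
  obtain ⟨k, G', hG', h'⟩ := h
  exact ⟨k, G', hG', hm.trans h'⟩

theorem inF_fin (hF : MinorClosed F) {n : ℕ} {G : SimpleGraph (Fin n)} : InF F G ↔ G ∈ F n := by
  constructor
  · rintro ⟨k, G', hG', h'⟩
    exact hF _ _ _ _ hG' h'
  · intro h
    exact ⟨n, G, h, Minor.refl G⟩

theorem inF_of_mem {n : ℕ} {G : SimpleGraph (Fin n)} (h : G ∈ F n) : InF F G :=
  ⟨n, G, h, Minor.refl G⟩

end InF

/-! ### Edge counts -/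

open Classical in
/-- Number of ordered pairs of adjacent vertices. -/
noncomputable def e2 {V : Type*} [Fintype V] (G : SimpleGraph V) : ℕ :=
  (Finset.univ.filter fun p : V × V => G.Adj p.1 p.2).card

theorem two_mul_ncard {V : Type*} [Fintype V] (G : SimpleGraph V) :
    2 * G.edgeSet.ncard = e2 G := by
  classical
  rw [e2, ← SimpleGraph.coe_edgeFinset, ncard_coe_finset]
  exact SimpleGraph.two_mul_card_edgeFinset G

theorem e2_le_sq {V : Type*} [Fintype V] (G : SimpleGraph V) :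
    e2 G ≤ Fintype.card V * Fintype.card V := by
  classical
  rw [e2, ← Fintype.card_prod]
  exact Finset.card_le_univ _

theorem e2_le_of_inj {V W : Type*} [Fintype V] [Fintype W] {H : SimpleGraph W} {G : SimpleGraph V}
    (φ : W → V) (hinj : Function.Injective φ) (hφ : ∀ i j, H.Adj i j → G.Adj (φ i) (φ j)) :
    e2 H ≤ e2 G := by
  classical
  rw [e2, e2]
  refine Finset.card_le_card_of_injOn (fun p => (φ p.1, φ p.2)) ?_ ?_
  · intro p hp
    simp only [Finset.coe_filter, Finset.mem_univ, true_and, mem_ofPred_eq] at hp ⊢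
    exact hφ _ _ hp
  · intro p _ q _ hpq
    simp only [Prod.mk.injEq] at hpq
    exact Prod.ext (hinj hpq.1) (hinj hpq.2)

end Pool.Agent.Work.MP_216d61_lc
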